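import Mathlib
import Pool.Agent.R412.RT.C

set_option autoImplicit false

/-! Changes of variables for pairs of points of the paraboloid. -/

namespace Pool.Agent.K4H46.RX

open MeasureTheory Set
open scoped ENNReal NNReal RealInnerProductSpace

abbrev E (n : ℕ) := EuclideanSpace ℝ (Fin n)

/-- the point with the coordinates `(y_0, y_1, s)` in the frame `e` -/
noncomputable def pt (e : OrthonormalBasis (Fin 3) ℝ (E 3)) (y : E 2) (s : ℝ) : E 3 :=
  y 0 • e 0 + y 1 • e 1 + s • e 2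

theorem lint_E2 (F : E 2 → ℝ≥0∞) (hF : Measurable F) :
    ∫⁻ x, F x = ∫⁻ a : ℝ, ∫⁻ b : ℝ, F !₂[a, b] := by
  have h1 := (PiLp.volume_preserving_toLp (Fin 2)).lintegral_comp hF
  rw [← h1]
  have h2 := (volume_preserving_finTwoArrow ℝ).symm
  rw [← h2.lintegral_comp_emb (MeasurableEquiv.finTwoArrow.symm.measurableEmbedding),
    Measure.volume_eq_prod, lintegral_prod]
  · rfl
  · exact ((hF.comp (PiLp.volume_preserving_toLp (Fin 2)).measurable).comp
      (MeasurableEquiv.finTwoArrow.symm.measurable)).aemeasurable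

theorem pt_repr (e : OrthonormalBasis (Fin 3) ℝ (E 3)) (y : E 2) (s : ℝ) :
    pt e y s = e.repr.symm (WithLp.toLp 2 ((2 : Fin 3).insertNth s (WithLp.ofLp y))) := by
  rw [← e.sum_repr (e.repr.symm _), Fin.sum_univ_three]
  simp only [LinearIsometryEquiv.apply_symm_apply]
  have h0 : ((2 : Fin 3).insertNth s (WithLp.ofLp y) : Fin 3 → ℝ) 0 = y 0 := rfl
  have h1 : ((2 : Fin 3).insertNth s (WithLp.ofLp y) : Fin 3 → ℝ) 1 = y 1 := rfl
  have h2 : ((2 : Fin 3).insertNth s (WithLp.ofLp y) : Fin 3 → ℝ) 2 = s := rfl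
  simp only [h0, h1, h2]
  rfl

theorem lint_E3 (e : OrthonormalBasis (Fin 3) ℝ (E 3)) (F : E 3 → ℝ≥0∞) (hF : Measurable F) :
    ∫⁻ D, F D = ∫⁻ y : E 2, ∫⁻ s : ℝ, F (pt e y s) := by
  have hm : Measurable fun y : Fin 3 → ℝ => F (e.repr.symm (WithLp.toLp 2 y)) :=
    hF.comp (e.measurePreserving_repr_symm.comp (PiLp.volume_preserving_toLp (Fin 3))).measurable
  rw [Pool.Agent.R412.RT.cov e F hF, Pool.Agent.R412.RT.split_lint (2 : Fin 3) _ hm]
  have hpm : Measurable fun p : E 2 × ℝ => pt e p.1 p.2 := by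
    unfold pt; fun_prop
  have h2 : Measurable fun t : E 2 × ℝ => F (pt e t.1 t.2) := hF.comp hpm
  rw [show (∫⁻ y : E 2, ∫⁻ s : ℝ, F (pt e y s)) = ∫⁻ s : ℝ, ∫⁻ y : E 2, F (pt e y s) from
    lintegral_lintegral_swap h2.aemeasurable]
  refine lintegral_congr fun a => ?_
  have h3 := (PiLp.volume_preserving_toLp (Fin 2)).lintegral_comp
    (f := fun t : E 2 => F (pt e t a)) (h2.comp (measurable_id.prodMk measurable_const))
  rw [← h3]
  refine lintegral_congr fun t => ?_
  rw [pt_repr]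

/-- the first point of the pair with difference `D` and parameter `β` -/
noncomputable def XX (D : E 3) (β : ℝ) : E 2 :=
  !₂[(D 2 + (D 0 ^ 2 + D 1 ^ 2)) / (2 * (D 0 ^ 2 + D 1 ^ 2)) * D 0 - β * D 1,
    (D 2 + (D 0 ^ 2 + D 1 ^ 2)) / (2 * (D 0 ^ 2 + D 1 ^ 2)) * D 1 + β * D 0]

/-- the difference in the frequency plane -/
noncomputable def dd (D : E 3) : E 2 := !₂[D 0, D 1]

theorem cov_lin (g : E 2 → ℝ≥0∞) (hg : Measurable g) (d0 d1 : ℝ) (hd : d0 ^ 2 + d1 ^ 2 ≠ 0) :
    ∫⁻ x, g x = 2⁻¹ * ∫⁻ τ : ℝ, ∫⁻ β : ℝ, g (XX !₂[d0, d1, τ] β) := by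
  set N : ℝ := d0 ^ 2 + d1 ^ 2 with hN
  set M : Matrix (Fin 2) (Fin 2) ℝ := !![d0 / (2 * N), -d1; d1 / (2 * N), d0] with hM
  have hdet : M.det = 1 / 2 := by
    rw [hM, Matrix.det_fin_two_of]
    field_simp
    rw [hN]
    ring
  have hmap := Real.map_matrix_volume_pi_eq_smul_volume_pi (M := M) (by rw [hdet]; norm_num)
  set c : Fin 2 → ℝ := ![d0 / 2, d1 / 2] with hc
  set h : (Fin 2 → ℝ) → ℝ≥0∞ := fun w => g (WithLp.toLp 2 (w + c)) with hh
  have hgm : Measurable fun w : Fin 2 → ℝ => g (WithLp.toLp 2 w) :=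
    hg.comp (PiLp.volume_preserving_toLp (Fin 2)).measurable
  have hhm : Measurable h := hgm.comp (measurable_id.add_const c)
  have e1 : ∫⁻ x, g x = ∫⁻ w, h w := by
    rw [← (PiLp.volume_preserving_toLp (Fin 2)).lintegral_comp hg]
    exact (lintegral_add_right_eq_self (fun w : Fin 2 → ℝ => g (WithLp.toLp 2 w)) c).symm
  have hMm : Measurable (Matrix.toLin' M : (Fin 2 → ℝ) →ₗ[ℝ] (Fin 2 → ℝ)) :=
    (LinearMap.continuous_of_finiteDimensional _).measurable
  have e2 : ∫⁻ v, h (Matrix.toLin' M v) = 2 * ∫⁻ w, h w := by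
    rw [← lintegral_map hhm hMm, hmap, lintegral_smul_measure, hdet]
    norm_num
  have e3 : ∫⁻ v, h (Matrix.toLin' M v) = ∫⁻ τ : ℝ, ∫⁻ β : ℝ, g (XX !₂[d0, d1, τ] β) := by
    have h2 := (volume_preserving_finTwoArrow ℝ).symm
    rw [← h2.lintegral_comp_emb (MeasurableEquiv.finTwoArrow.symm.measurableEmbedding),
      Measure.volume_eq_prod, lintegral_prod]
    · refine lintegral_congr fun τ => lintegral_congr fun β => ?_
      simp only [hh]
      congr 1
      ext i
      fin_cases i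
      · simp [hM, hc, XX, Matrix.toLin'_apply, MeasurableEquiv.finTwoArrow,
          MeasurableEquiv.piFinTwo]
        rw [← hN]
        field_simp
        ring
      · simp [hM, hc, XX, Matrix.toLin'_apply, MeasurableEquiv.finTwoArrow,
          MeasurableEquiv.piFinTwo]
        rw [← hN]
        field_simp
        ring
    · exact ((hhm.comp hMm).comp (MeasurableEquiv.finTwoArrow.symm.measurable)).aemeasurable
  rw [e1, ← e3, e2, ← mul_assoc, ENNReal.inv_mul_cancel (by norm_num) (by norm_num), one_mul]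

theorem XX_meas : Measurable fun p : E 3 × ℝ => XX p.1 p.2 := by
  unfold XX
  have h : ∀ i : Fin 3, Measurable fun p : E 3 × ℝ => p.1 i := fun i => by fun_prop
  have h0 := h 0
  have h1 := h 1
  have h2 := h 2
  have hs : Measurable fun p : E 3 × ℝ => p.2 := measurable_snd
  refine (PiLp.volume_preserving_toLp (Fin 2)).measurable.comp ?_
  refine measurable_pi_lambda _ fun i => ?_
  fin_cases i
  · exact (((h2.add ((h0.pow_const 2).add (h1.pow_const 2))).div
      (((h0.pow_const 2).add (h1.pow_const 2)).const_mul 2)).mul h0).sub (hs.mul h1)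
  · exact (((h2.add ((h0.pow_const 2).add (h1.pow_const 2))).div
      (((h0.pow_const 2).add (h1.pow_const 2)).const_mul 2)).mul h1).add (hs.mul h0)

theorem dd_meas : Measurable dd := by
  unfold dd
  refine (PiLp.volume_preserving_toLp (Fin 2)).measurable.comp ?_
  refine measurable_pi_lambda _ fun i => ?_
  fin_cases i
  · show Measurable fun D : E 3 => D 0
    fun_prop
  · show Measurable fun D : E 3 => D 1
    fun_prop

theorem pt_meas (e : OrthonormalBasis (Fin 3) ℝ (E 3)) : Measurable fun p : E 2 × ℝ =>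
    pt e p.1 p.2 := by
  unfold pt; fun_prop

theorem pt_std (y : E 2) (s : ℝ) :
    pt (EuclideanSpace.basisFun (Fin 3) ℝ) y s = !₂[y 0, y 1, s] := by
  ext i
  fin_cases i <;> simp [pt]

theorem cov_pair (e : OrthonormalBasis (Fin 3) ℝ (E 3)) (F : E 2 × E 2 → ℝ≥0∞)
    (hF : Measurable F) :
    ∫⁻ p, F p ∂(volume.prod volume) = 2⁻¹ * ∫⁻ y : E 2, ∫⁻ s : ℝ, ∫⁻ β : ℝ,
      F (XX (pt e y s) β, XX (pt e y s) β - dd (pt e y s)) := by
  have hg : Measurable fun D : E 3 => ∫⁻ β : ℝ, F (XX D β, XX D β - dd D) := by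
    have : Measurable fun p : E 3 × ℝ => F (XX p.1 p.2, XX p.1 p.2 - dd p.1) :=
      hF.comp (XX_meas.prodMk (XX_meas.sub (dd_meas.comp measurable_fst)))
    exact this.lintegral_prod_right'
  rw [lintegral_prod _ hF.aemeasurable]
  have e1 : ∀ x : E 2, ∫⁻ x', F (x, x') = ∫⁻ d, F (x, x - d) := fun x =>
    (lintegral_sub_left_eq_self (fun x' => F (x, x')) x).symm
  simp_rw [e1]
  have hm2 : Measurable fun p : E 2 × E 2 => F (p.1, p.1 - p.2) :=
    hF.comp (measurable_fst.prodMk (measurable_fst.sub measurable_snd))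
  rw [lintegral_lintegral_swap (f := fun x d => F (x, x - d)) hm2.aemeasurable]
  have e2 : ∀ᵐ d : E 2, ∫⁻ x, F (x, x - d) = 2⁻¹ * ∫⁻ τ : ℝ, ∫⁻ β : ℝ,
      F (XX !₂[d 0, d 1, τ] β, XX !₂[d 0, d 1, τ] β - dd !₂[d 0, d 1, τ]) := by
    have h0 : ∀ᵐ d : E 2, d ≠ 0 := by
      rw [ae_iff]
      simp
    filter_upwards [h0] with d hd
    have hdn : d 0 ^ 2 + d 1 ^ 2 ≠ 0 := by
      intro h
      apply hd
      have h1 : d 0 = 0 := by nlinarith [sq_nonneg (d 0), sq_nonneg (d 1)]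
      have h2 : d 1 = 0 := by nlinarith [sq_nonneg (d 0), sq_nonneg (d 1)]
      ext i
      fin_cases i
      · exact h1
      · exact h2
    have hg' : Measurable fun x : E 2 => F (x, x - d) :=
      hF.comp (measurable_id.prodMk (measurable_id.sub_const d))
    rw [cov_lin _ hg' (d 0) (d 1) hdn]
    have hdd : ∀ τ : ℝ, dd !₂[d 0, d 1, τ] = d := by
      intro τ
      ext i
      fin_cases i <;> simp [dd]
    simp_rw [hdd]
  rw [lintegral_congr_ae e2]
  have hg2 : Measurable fun d : E 2 => ∫⁻ τ : ℝ, ∫⁻ β : ℝ,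
      F (XX !₂[d 0, d 1, τ] β, XX !₂[d 0, d 1, τ] β - dd !₂[d 0, d 1, τ]) := by
    have h3 : Measurable fun p : E 2 × ℝ => (!₂[p.1 0, p.1 1, p.2] : E 3) := by
      have := pt_meas (EuclideanSpace.basisFun (Fin 3) ℝ)
      simp_rw [pt_std] at this
      exact this
    exact (hg.comp h3).lintegral_prod_right'
  rw [lintegral_const_mul _ hg2]
  congr 1
  have h4 := lint_E3 (EuclideanSpace.basisFun (Fin 3) ℝ) _ hg
  simp_rw [pt_std] at h4
  rw [← h4, lint_E3 e _ hg]

end Pool.Agent.K4H46.RX
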