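import Mathlib
import Pool.Agent.TH941.FN.HY

set_option autoImplicit false

/-! The Hausdorff-Young inequality for the Fourier transform on a Euclidean space. -/

namespace Pool.Agent.K4H46.RX

open MeasureTheory Set Complex
open scoped ENNReal NNReal RealInnerProductSpace
open Pool.Agent.TH941.FN (ft ft_sq ft_cont)

variable {V : Type*} [NormedAddCommGroup V] [InnerProductSpace ℝ V] [FiniteDimensional ℝ V]
  [MeasurableSpace V] [BorelSpace V]

theorem norm_ker (s : ℝ) : ‖cexp (-(s : ℂ) * I)‖ = 1 := by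
  have : -(s : ℂ) * I = ((-s : ℝ) : ℂ) * I := by push_cast; ring
  rw [this, Complex.norm_exp_ofReal_mul_I]

theorem ft_le (G : V → ℂ) (y : V) : ‖ft G y‖ₑ ≤ ∫⁻ w, ‖G w‖ₑ := by
  refine (enorm_integral_le_lintegral_enorm _).trans (le_of_eq ?_)
  refine lintegral_congr fun w => ?_
  rw [enorm_mul, ← ofReal_norm (cexp _), norm_ker, ENNReal.ofReal_one, one_mul]

theorem ft_add {G H : V → ℂ} (hG : Integrable G) (hH : Integrable H) (y : V) :
    ft (fun w => G w + H w) y = ft G y + ft H y := by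
  have hk : Continuous fun w : V => cexp (-((⟪y, w⟫ : ℝ) : ℂ) * I) := by fun_prop
  have h1 : ∀ {F : V → ℂ}, Integrable F →
      Integrable (fun w => cexp (-((⟪y, w⟫ : ℝ) : ℂ) * I) * F w) := fun hF =>
    hF.bdd_mul (c := 1) hk.aestronglyMeasurable
      (Filter.Eventually.of_forall fun w => (norm_ker _).le)
  unfold ft
  rw [← integral_add (h1 hG) (h1 hH)]
  congr 1
  ext w
  ring

/-- the inner integral in the layer cake formula -/
theorem inner_pow (q b : ℝ) (hq : 2 < q) (hb : 0 ≤ b) :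
    ∫⁻ t in Ioi (0 : ℝ), (if t ≤ b then ENNReal.ofReal (t ^ (q - 3)) else 0) ≤
      ENNReal.ofReal (b ^ (q - 2) / (q - 2)) := by
  have h1 : ∫⁻ t in Ioi (0 : ℝ), (if t ≤ b then ENNReal.ofReal (t ^ (q - 3)) else 0) =
      ∫⁻ t in Ioc (0 : ℝ) b, ENNReal.ofReal (t ^ (q - 3)) := by
    rw [← lintegral_indicator measurableSet_Ioi, ← lintegral_indicator measurableSet_Ioc]
    refine lintegral_congr fun t => ?_
    by_cases h0 : 0 < t
    · by_cases h : t ≤ b
      · rw [indicator_of_mem (show t ∈ Ioi (0 : ℝ) from h0),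
          indicator_of_mem (show t ∈ Ioc 0 b from ⟨h0, h⟩), if_pos h]
      · rw [indicator_of_mem (show t ∈ Ioi (0 : ℝ) from h0),
          indicator_of_notMem (fun h' : t ∈ Ioc 0 b => h h'.2), if_neg h]
    · rw [indicator_of_notMem (fun h' : t ∈ Ioi (0 : ℝ) => h0 h'),
        indicator_of_notMem (fun h' : t ∈ Ioc 0 b => h0 h'.1)]
  rw [h1]
  have h2 : IntervalIntegrable (fun t : ℝ => t ^ (q - 3)) volume 0 b :=
    intervalIntegral.intervalIntegrable_rpow' (by linarith)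
  have h3 : IntegrableOn (fun t : ℝ => t ^ (q - 3)) (Ioc 0 b) :=
    (intervalIntegrable_iff_integrableOn_Ioc_of_le hb).1 h2
  rw [← ofReal_integral_eq_lintegral_ofReal h3 ((ae_restrict_iff' measurableSet_Ioc).2
    (Filter.Eventually.of_forall fun t ht => Real.rpow_nonneg ht.1.le _)),
    ← intervalIntegral.integral_of_le hb, integral_rpow (Or.inl (by linarith))]
  rw [Real.zero_rpow (by linarith), sub_zero]
  have : q - 3 + 1 = q - 2 := by ring
  rw [this]

/-- **The Hausdorff-Young inequality.** -/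
theorem hausdorff_young {q : ℝ} (hq : 2 < q) : ∃ C : ℝ≥0, ∀ G : V → ℂ, Measurable G →
    Integrable G → ∫⁻ y, ‖ft G y‖ₑ ^ q ≤ C * (∫⁻ w, ‖G w‖ₑ ^ (q / (q - 1))) ^ (q - 1) := by
  set n := Module.finrank ℝ V with hn
  set ρ : ℝ := q / (q - 1) with hρ
  have hq1 : 0 < q - 1 := by linarith
  have hq2 : 0 < q - 2 := by linarith
  have hρ1 : 0 < ρ - 1 := by
    rw [hρ, div_sub_one hq1.ne']
    exact div_pos (by linarith) hq1
  have hρ0 : 0 < ρ := by linarith
  have hρq : (ρ - 1) * (q - 2) = 2 - ρ := by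
    rw [hρ]; field_simp; ring
  set C : ℝ := 2 ^ q * (q * ((2 * Real.pi) ^ n * (1 / (q - 2)))) with hC
  have hC0 : 0 < C := by positivity
  refine ⟨C.toNNReal, ?_⟩
  intro G hGm hG
  have hCC : ((C.toNNReal : ℝ≥0) : ℝ≥0∞) = ENNReal.ofReal C := rfl
  rw [hCC]
  set A : ℝ≥0∞ := ∫⁻ w, ‖G w‖ₑ ^ ρ with hA
  by_cases hAt : A = ∞
  · rw [hAt, ENNReal.top_rpow_of_pos hq1, ENNReal.mul_top (ENNReal.ofReal_pos.2 hC0).ne']
    exact le_top
  by_cases hA0 : A = 0
  · have h0 : G =ᵐ[volume] 0 := by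
      have h1 := (lintegral_eq_zero_iff (hGm.enorm.pow_const ρ)).1 hA0
      filter_upwards [h1] with w hw
      simp only [Pi.zero_apply] at hw
      have := (ENNReal.rpow_eq_zero_iff_of_pos hρ0).1 hw
      simpa using this
    have h1 : ∀ y, ft G y = 0 := by
      intro y
      unfold ft
      rw [integral_eq_zero_of_ae]
      filter_upwards [h0] with w hw
      rw [hw]; simp
    simp [h1, ENNReal.zero_rpow_of_pos (show 0 < q by linarith)]
  set a : ℝ := A.toReal with ha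
  have ha0 : 0 < a := ENNReal.toReal_pos hA0 hAt
  have hAa : A = ENNReal.ofReal a := (ENNReal.ofReal_toReal hAt).symm
  -- the small part
  set S : ℝ → Set V := fun t => {w | t * ‖G w‖ ^ (ρ - 1) ≤ a} with hS
  have hSm : ∀ t, MeasurableSet (S t) := fun t =>
    measurableSet_le ((hGm.norm.pow_const _).const_mul t) measurable_const
  have hbig : ∀ t : ℝ, 0 < t → ∫⁻ w in (S t)ᶜ, ‖G w‖ₑ ≤ ENNReal.ofReal t := by
    intro t ht
    have h1 : ∫⁻ w in (S t)ᶜ, ‖G w‖ₑ ≤ ∫⁻ w in (S t)ᶜ, ENNReal.ofReal (t / a) * ‖G w‖ₑ ^ ρ := by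
      refine setLIntegral_mono' (hSm t).compl fun w hw => ?_
      have hw' : a < t * ‖G w‖ ^ (ρ - 1) := by simpa [hS] using hw
      have hG0 : 0 < ‖G w‖ := by
        by_contra h
        have h' : ‖G w‖ = 0 := le_antisymm (not_lt.1 h) (norm_nonneg _)
        rw [h', Real.zero_rpow hρ1.ne', mul_zero] at hw'
        linarith
      rw [← ofReal_norm, ENNReal.ofReal_rpow_of_nonneg (norm_nonneg _) hρ0.le,
        ← ENNReal.ofReal_mul (by positivity)]
      apply ENNReal.ofReal_le_ofReal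
      have e1 : ‖G w‖ ^ ρ = ‖G w‖ * ‖G w‖ ^ (ρ - 1) := by
        rw [← Real.rpow_one_add' hG0.le (by linarith)]
        congr 1; ring
      rw [e1]
      have : t / a * (‖G w‖ * ‖G w‖ ^ (ρ - 1)) = ‖G w‖ * (t * ‖G w‖ ^ (ρ - 1) / a) := by
        field_simp
      rw [this]
      refine le_mul_of_one_le_right hG0.le ?_
      rw [le_div_iff₀ ha0]
      linarith
    refine h1.trans ?_
    rw [lintegral_const_mul _ (hGm.enorm.pow_const ρ)]
    calc ENNReal.ofReal (t / a) * ∫⁻ w in (S t)ᶜ, ‖G w‖ₑ ^ ρ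
        ≤ ENNReal.ofReal (t / a) * A := by gcongr; exact setLIntegral_le_lintegral _ _
      _ = ENNReal.ofReal t := by
        rw [hAa, ← ENNReal.ofReal_mul (by positivity), div_mul_cancel₀ _ ha0.ne']
  -- weak type estimate of one level
  have hlevel : ∀ t : ℝ, 0 < t → volume {y | t < ‖ft G y‖ / 2} * ENNReal.ofReal (t ^ (q - 1)) ≤
      ENNReal.ofReal ((2 * Real.pi) ^ n) * ∫⁻ w, ENNReal.ofReal (‖G w‖ ^ 2) *
        (if t * ‖G w‖ ^ (ρ - 1) ≤ a then ENNReal.ofReal (t ^ (q - 3)) else 0) := by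
    intro t ht
    set G1 : V → ℂ := (S t).indicator G with hG1
    set G2 : V → ℂ := (S t)ᶜ.indicator G with hG2
    have hG1i : Integrable G1 := hG.indicator (hSm t)
    have hG2i : Integrable G2 := hG.indicator (hSm t).compl
    have hG1b : ∀ w, ‖G1 w‖ ≤ (a / t) ^ (1 / (ρ - 1)) := by
      intro w
      by_cases hw : w ∈ S t
      · rw [hG1, indicator_of_mem hw]
        have hw' : t * ‖G w‖ ^ (ρ - 1) ≤ a := hw
        have h2 : ‖G w‖ ^ (ρ - 1) ≤ a / t := by rw [le_div_iff₀ ht]; linarith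
        have h3 := Real.rpow_le_rpow (by positivity) h2 (show 0 ≤ 1 / (ρ - 1) by positivity)
        rw [← Real.rpow_mul (norm_nonneg _), mul_one_div_cancel hρ1.ne', Real.rpow_one] at h3
        exact h3
      · rw [hG1, indicator_of_notMem hw, norm_zero]
        positivity
    have hG12 : MemLp G1 2 := by
      refine (memLp_two_iff_integrable_sq_norm hG1i.aestronglyMeasurable).2 ?_
      have := hG1i.norm.bdd_mul (c := (a / t) ^ (1 / (ρ - 1))) hG1i.norm.aestronglyMeasurable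
        (Filter.Eventually.of_forall fun w => by
          rw [Real.norm_of_nonneg (norm_nonneg _)]; exact hG1b w)
      refine this.congr (Filter.Eventually.of_forall fun w => ?_)
      simp only
      ring
    have hsum : ∀ y, ft G y = ft G1 y + ft G2 y := by
      intro y
      rw [← ft_add hG1i hG2i]
      congr 1
      ext w
      exact (congrFun (indicator_self_add_compl (S t) G) w).symm
    have h2 : ∀ y, ‖ft G2 y‖ ≤ t := by
      intro y
      have h3 : ‖ft G2 y‖ₑ ≤ ENNReal.ofReal t := by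
        refine (ft_le G2 y).trans ?_
        have : ∫⁻ w, ‖G2 w‖ₑ = ∫⁻ w in (S t)ᶜ, ‖G w‖ₑ := by
          rw [← lintegral_indicator (hSm t).compl]
          refine lintegral_congr fun w => ?_
          rw [hG2]
          exact enorm_indicator_eq_indicator_enorm _ _
        rw [this]
        exact hbig t ht
      rw [← ofReal_norm] at h3
      exact (ENNReal.ofReal_le_ofReal_iff ht.le).1 h3
    have hsub : {y | t < ‖ft G y‖ / 2} ⊆ {y | ENNReal.ofReal (t ^ 2) ≤ ‖ft G1 y‖ₑ ^ (2 : ℝ)} := by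
      intro y hy
      have hy' : t < ‖ft G y‖ / 2 := hy
      have h3 : ‖ft G y‖ ≤ ‖ft G1 y‖ + ‖ft G2 y‖ := by rw [hsum]; exact norm_add_le _ _
      have h4 : t ≤ ‖ft G1 y‖ := by linarith [h2 y]
      change ENNReal.ofReal (t ^ 2) ≤ ‖ft G1 y‖ₑ ^ (2 : ℝ)
      rw [← ofReal_norm, ENNReal.ofReal_rpow_of_nonneg (norm_nonneg _) (by norm_num)]
      apply ENNReal.ofReal_le_ofReal
      rw [Real.rpow_two]
      exact pow_le_pow_left₀ ht.le h4 2
    have hcheb := mul_meas_ge_le_lintegral (μ := (volume : Measure V))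
      ((ft_cont hG1i).measurable.enorm.pow_const (2 : ℝ)) (ENNReal.ofReal (t ^ 2))
    rw [ft_sq hG1i hG12] at hcheb
    have hL2 : ENNReal.ofReal (∫ w, ‖G1 w‖ ^ 2) = ∫⁻ w, (S t).indicator
        (fun w => ENNReal.ofReal (‖G w‖ ^ 2)) w := by
      rw [ofReal_integral_eq_lintegral_ofReal
        ((memLp_two_iff_integrable_sq_norm hG1i.aestronglyMeasurable).1 hG12)
        (Filter.Eventually.of_forall fun w => by positivity)]
      refine lintegral_congr fun w => ?_
      by_cases hw : w ∈ S t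
      · rw [hG1, indicator_of_mem hw, indicator_of_mem hw]
      · rw [hG1, indicator_of_notMem hw, indicator_of_notMem hw]
        simp
    rw [ENNReal.ofReal_mul (by positivity), hL2] at hcheb
    have ht2 : ENNReal.ofReal (t ^ (q - 1)) = ENNReal.ofReal (t ^ 2) * ENNReal.ofReal (t ^ (q - 3)) := by
      rw [← ENNReal.ofReal_mul (by positivity), ← Real.rpow_natCast t 2, ← Real.rpow_add ht]
      congr 2
      push_cast
      ring
    calc volume {y | t < ‖ft G y‖ / 2} * ENNReal.ofReal (t ^ (q - 1))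
        ≤ volume {y | ENNReal.ofReal (t ^ 2) ≤ ‖ft G1 y‖ₑ ^ (2 : ℝ)} *
          (ENNReal.ofReal (t ^ 2) * ENNReal.ofReal (t ^ (q - 3))) := by
          rw [ht2]; gcongr
      _ = (ENNReal.ofReal (t ^ 2) * volume {y | ENNReal.ofReal (t ^ 2) ≤ ‖ft G1 y‖ₑ ^ (2 : ℝ)}) *
          ENNReal.ofReal (t ^ (q - 3)) := by ring
      _ ≤ (ENNReal.ofReal ((2 * Real.pi) ^ n) * ∫⁻ w, (S t).indicator
          (fun w => ENNReal.ofReal (‖G w‖ ^ 2)) w) * ENNReal.ofReal (t ^ (q - 3)) := by gcongr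
      _ = _ := by
        rw [mul_assoc, ← lintegral_mul_const _ (((hGm.norm.pow_const 2).ennreal_ofReal).indicator
          (hSm t))]
        congr 1
        refine lintegral_congr fun w => ?_
        by_cases hw : w ∈ S t
        · rw [indicator_of_mem hw, if_pos (show t * ‖G w‖ ^ (ρ - 1) ≤ a from hw)]
        · rw [indicator_of_notMem hw, if_neg (show ¬ t * ‖G w‖ ^ (ρ - 1) ≤ a from hw), zero_mul,
            mul_zero]
  -- the inner integral
  have hin : ∀ w, ∫⁻ t in Ioi (0 : ℝ), ENNReal.ofReal (‖G w‖ ^ 2) *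
      (if t * ‖G w‖ ^ (ρ - 1) ≤ a then ENNReal.ofReal (t ^ (q - 3)) else 0) ≤
      ENNReal.ofReal (a ^ (q - 2) / (q - 2)) * ‖G w‖ₑ ^ ρ := by
    intro w
    by_cases hw : ‖G w‖ = 0
    · rw [hw]; simp
    have hw0 : 0 < ‖G w‖ := lt_of_le_of_ne (norm_nonneg _) (Ne.symm hw)
    have hp : 0 < ‖G w‖ ^ (ρ - 1) := Real.rpow_pos_of_pos hw0 _
    have e1 : ∀ t : ℝ, (if t * ‖G w‖ ^ (ρ - 1) ≤ a then ENNReal.ofReal (t ^ (q - 3)) else 0) =
        (if t ≤ a / ‖G w‖ ^ (ρ - 1) then ENNReal.ofReal (t ^ (q - 3)) else 0) := by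
      intro t
      have : t * ‖G w‖ ^ (ρ - 1) ≤ a ↔ t ≤ a / ‖G w‖ ^ (ρ - 1) := by rw [le_div_iff₀ hp]
      simp only [this]
    simp_rw [e1]
    rw [lintegral_const_mul' _ _ ENNReal.ofReal_ne_top]
    calc ENNReal.ofReal (‖G w‖ ^ 2) * ∫⁻ t in Ioi (0 : ℝ),
          (if t ≤ a / ‖G w‖ ^ (ρ - 1) then ENNReal.ofReal (t ^ (q - 3)) else 0)
        ≤ ENNReal.ofReal (‖G w‖ ^ 2) *
          ENNReal.ofReal ((a / ‖G w‖ ^ (ρ - 1)) ^ (q - 2) / (q - 2)) := by
          gcongr
          exact inner_pow q _ hq (by positivity)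
      _ = _ := by
        rw [← ofReal_norm, ENNReal.ofReal_rpow_of_nonneg (norm_nonneg _) hρ0.le,
          ← ENNReal.ofReal_mul (by positivity), ← ENNReal.ofReal_mul (by positivity)]
        congr 1
        rw [Real.div_rpow ha0.le hp.le, ← Real.rpow_mul hw0.le, hρq, Real.rpow_sub hw0,
          Real.rpow_two]
        have := Real.rpow_pos_of_pos hw0 ρ
        field_simp
  have hjm : Measurable fun p : ℝ × V => ENNReal.ofReal (‖G p.2‖ ^ 2) *
      (if p.1 * ‖G p.2‖ ^ (ρ - 1) ≤ a then ENNReal.ofReal (p.1 ^ (q - 3)) else 0) := by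
    refine Measurable.mul ?_ ?_
    · exact ((hGm.comp measurable_snd).norm.pow_const 2).ennreal_ofReal
    · refine Measurable.ite ?_ ?_ measurable_const
      · exact measurableSet_le (measurable_fst.mul ((hGm.comp measurable_snd).norm.pow_const _))
          measurable_const
      · exact (measurable_fst.pow_const _).ennreal_ofReal
  have hftm : Measurable fun y => ‖ft G y‖ / 2 := (ft_cont hG).measurable.norm.div_const 2
  have hlc := lintegral_rpow_eq_lintegral_meas_lt_mul (volume : Measure V) (f := fun y => ‖ft G y‖ / 2)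
    (Filter.Eventually.of_forall fun y => by positivity) hftm.aemeasurable
    (show 0 < q by linarith)
  have hfin : ∫⁻ y, ENNReal.ofReal ((‖ft G y‖ / 2) ^ q) ≤ ENNReal.ofReal q *
      (ENNReal.ofReal ((2 * Real.pi) ^ n) * (ENNReal.ofReal (a ^ (q - 2) / (q - 2)) * A)) := by
    rw [hlc]
    gcongr
    calc ∫⁻ t in Ioi (0 : ℝ), volume {y | t < ‖ft G y‖ / 2} * ENNReal.ofReal (t ^ (q - 1))
        ≤ ∫⁻ t in Ioi (0 : ℝ), ENNReal.ofReal ((2 * Real.pi) ^ n) *
          ∫⁻ w, ENNReal.ofReal (‖G w‖ ^ 2) *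
          (if t * ‖G w‖ ^ (ρ - 1) ≤ a then ENNReal.ofReal (t ^ (q - 3)) else 0) :=
          setLIntegral_mono' measurableSet_Ioi fun t ht => hlevel t ht
      _ = ENNReal.ofReal ((2 * Real.pi) ^ n) * ∫⁻ t in Ioi (0 : ℝ),
          ∫⁻ w, ENNReal.ofReal (‖G w‖ ^ 2) *
          (if t * ‖G w‖ ^ (ρ - 1) ≤ a then ENNReal.ofReal (t ^ (q - 3)) else 0) :=
          lintegral_const_mul' _ _ ENNReal.ofReal_ne_top
      _ = ENNReal.ofReal ((2 * Real.pi) ^ n) * ∫⁻ w, ∫⁻ t in Ioi (0 : ℝ),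
          ENNReal.ofReal (‖G w‖ ^ 2) *
          (if t * ‖G w‖ ^ (ρ - 1) ≤ a then ENNReal.ofReal (t ^ (q - 3)) else 0) := by
          rw [lintegral_lintegral_swap hjm.aemeasurable]
      _ ≤ ENNReal.ofReal ((2 * Real.pi) ^ n) * ∫⁻ w,
          ENNReal.ofReal (a ^ (q - 2) / (q - 2)) * ‖G w‖ₑ ^ ρ := by
          gcongr with w
          exact hin w
      _ = _ := by rw [lintegral_const_mul' _ _ ENNReal.ofReal_ne_top]
  have hlhs : ∫⁻ y, ‖ft G y‖ₑ ^ q = ENNReal.ofReal (2 ^ q) *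
      ∫⁻ y, ENNReal.ofReal ((‖ft G y‖ / 2) ^ q) := by
    rw [← lintegral_const_mul' _ _ ENNReal.ofReal_ne_top]
    refine lintegral_congr fun y => ?_
    rw [← ENNReal.ofReal_mul (by positivity), ← Real.mul_rpow (by norm_num) (by positivity),
      mul_div_cancel₀ _ (by norm_num : (2 : ℝ) ≠ 0), ← ofReal_norm,
      ENNReal.ofReal_rpow_of_nonneg (norm_nonneg _) (by linarith)]
  rw [hlhs]
  refine (mul_le_mul_right hfin _).trans (le_of_eq ?_)
  rw [hAa, ENNReal.ofReal_rpow_of_nonneg ha0.le hq1.le, ← ENNReal.ofReal_mul (by positivity),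
    ← ENNReal.ofReal_mul (by positivity), ← ENNReal.ofReal_mul (by positivity),
    ← ENNReal.ofReal_mul (by positivity), ← ENNReal.ofReal_mul (by positivity)]
  congr 1
  have e2 : a ^ (q - 1) = a ^ (q - 2) * a := by
    rw [← Real.rpow_add_one ha0.ne']
    congr 1; ring
  rw [hC, e2]
  ring

end Pool.Agent.K4H46.RX
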