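import Mathlib
import Pool.Agent.K4H46.RX.HY
import Pool.Agent.K4H46.RX.CV

set_option autoImplicit false

/-! The integral of `|Ef|²` along parallel lines as a Fourier transform. -/

namespace Pool.Agent.K4H46.RX

open MeasureTheory Set Complex
open scoped ENNReal NNReal RealInnerProductSpace ComplexConjugate
open Pool.Agent.TH941.FN (ft ft_sq ft_cont)

/-- the Gaussian kernel, the Fourier transform of `exp (- b s²)` -/
noncomputable def kb (b t : ℝ) : ℝ := Real.sqrt (Real.pi / b) * Real.exp (-t ^ 2 / (4 * b))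

theorem kb_nonneg (b t : ℝ) : 0 ≤ kb b t := by unfold kb; positivity

theorem kb_cont (b : ℝ) : Continuous (kb b) := by unfold kb; fun_prop

theorem kb_le (b t : ℝ) (hb : 0 < b) : kb b t ≤ Real.sqrt (Real.pi / b) := by
  unfold kb
  refine mul_le_of_le_one_right (Real.sqrt_nonneg _) ?_
  rw [Real.exp_le_one_iff]
  exact div_nonpos_of_nonpos_of_nonneg (by nlinarith [sq_nonneg t]) (by positivity)

theorem gauss1 (b t : ℝ) (hb : 0 < b) :
    ∫ s : ℝ, ((Real.exp (-b * s ^ 2) : ℝ) : ℂ) * cexp (-((s * t : ℝ) : ℂ) * I) = (kb b t : ℂ) := by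
  have h := fourierIntegral_gaussian (b := (b : ℂ)) (by simpa using hb) (-(t : ℂ))
  have e1 : ∀ s : ℝ, ((Real.exp (-b * s ^ 2) : ℝ) : ℂ) * cexp (-((s * t : ℝ) : ℂ) * I) =
      cexp (I * -(t : ℂ) * s) * cexp (-(b : ℂ) * s ^ 2) := by
    intro s
    rw [Complex.ofReal_exp, mul_comm]
    congr 2
    · push_cast; ring
    · push_cast; ring
  simp_rw [e1]
  rw [h]
  unfold kb
  have hpb : (0 : ℝ) ≤ Real.pi / b := by positivity
  rw [Real.sqrt_eq_rpow]
  push_cast
  rw [Complex.ofReal_cpow hpb]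
  push_cast
  congr 2
  ring

theorem gint (b : ℝ) (hb : 0 < b) : Integrable fun s : ℝ => Real.exp (-b * s ^ 2) :=
  integrable_exp_neg_mul_sq hb

/-- the regularised identity in one variable -/
theorem reg1 {φ : E 2 → ℝ} (hφ : Measurable φ) {g : E 2 → ℂ} (hg : Integrable g) (b : ℝ)
    (hb : 0 < b) :
    ∫⁻ s : ℝ, ‖∫ x, cexp (-((s * φ x : ℝ) : ℂ) * I) * g x‖ₑ ^ 2 *
        ENNReal.ofReal (Real.exp (-b * s ^ 2)) =
      ‖∫ z : E 2 × E 2, (g z.1 * conj (g z.2)) * (kb b (φ z.1 - φ z.2) : ℂ)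
        ∂(volume.prod volume)‖ₑ := by
  set F : ℝ → ℂ := fun s => ∫ x, cexp (-((s * φ x : ℝ) : ℂ) * I) * g x with hF
  set h : ℝ → (E 2 × E 2) → ℂ := fun s z =>
    ((Real.exp (-b * s ^ 2) : ℝ) : ℂ) * (cexp (-((s * (φ z.1 - φ z.2) : ℝ) : ℂ) * I) *
      (g z.1 * conj (g z.2))) with hh
  have hgm := hg.aestronglyMeasurable
  have hgg : Integrable (fun z : E 2 × E 2 => g z.1 * conj (g z.2)) (volume.prod volume) :=
    hg.mul_prod ((Complex.conjLIE.toContinuousLinearEquiv.integrable_comp_iff).2 hg)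
  have hprod : Integrable (fun p : ℝ × (E 2 × E 2) =>
      ((Real.exp (-b * p.1 ^ 2) : ℝ) : ℂ) * (g p.2.1 * conj (g p.2.2)))
      (volume.prod (volume.prod volume)) :=
    (gint b hb).ofReal.mul_prod hgg
  have hem : Measurable fun p : ℝ × (E 2 × E 2) =>
      cexp (-((p.1 * (φ p.2.1 - φ p.2.2) : ℝ) : ℂ) * I) := by
    have h1 : Measurable fun p : ℝ × (E 2 × E 2) => p.1 * (φ p.2.1 - φ p.2.2) :=
      measurable_fst.mul ((hφ.comp (measurable_fst.comp measurable_snd)).sub
        (hφ.comp (measurable_snd.comp measurable_snd)))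
    exact Complex.measurable_exp.comp ((Complex.measurable_ofReal.comp h1).neg.mul_const I)
  have hint : Integrable (fun p : ℝ × (E 2 × E 2) => h p.1 p.2)
      (volume.prod (volume.prod volume)) := by
    have h1 := hprod.bdd_mul (c := 1) hem.aestronglyMeasurable
      (Filter.Eventually.of_forall fun p => (norm_ker _).le)
    refine h1.congr (Filter.Eventually.of_forall fun p => ?_)
    simp only [hh]
    ring
  have hsq : ∀ s, (F s * conj (F s)) = ∫ z : E 2 × E 2,
      cexp (-((s * (φ z.1 - φ z.2) : ℝ) : ℂ) * I) * (g z.1 * conj (g z.2))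
        ∂(volume.prod volume) := by
    intro s
    have e1 : conj (F s) = ∫ y, conj (cexp (-((s * φ y : ℝ) : ℂ) * I) * g y) := by
      simp only [hF]
      rw [← integral_conj]
    rw [e1]
    simp only [hF]
    rw [← integral_prod_mul]
    refine integral_congr_ae (Filter.Eventually.of_forall fun z => ?_)
    simp only
    rw [map_mul, ← Complex.exp_conj]
    have e2 : cexp (-((s * (φ z.1 - φ z.2) : ℝ) : ℂ) * I) =
        cexp (-((s * φ z.1 : ℝ) : ℂ) * I) * cexp (conj (-((s * φ z.2 : ℝ) : ℂ) * I)) := by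
      rw [← Complex.exp_add]
      congr 1
      simp only [map_mul, map_neg, conj_ofReal, conj_I]
      push_cast
      ring
    rw [e2]
    ring
  have hkey : ∫ s, ((Real.exp (-b * s ^ 2) : ℝ) : ℂ) * (F s * conj (F s)) =
      ∫ z : E 2 × E 2, (g z.1 * conj (g z.2)) * (kb b (φ z.1 - φ z.2) : ℂ)
        ∂(volume.prod volume) := by
    have e1 : ∀ s, ((Real.exp (-b * s ^ 2) : ℝ) : ℂ) * (F s * conj (F s)) =
        ∫ z : E 2 × E 2, h s z ∂(volume.prod volume) := by
      intro s
      rw [hsq, ← integral_const_mul]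
    simp_rw [e1]
    rw [integral_integral_swap hint]
    refine integral_congr_ae (Filter.Eventually.of_forall fun z => ?_)
    simp only [hh]
    rw [← gauss1 b _ hb, ← integral_const_mul]
    refine integral_congr_ae (Filter.Eventually.of_forall fun s => ?_)
    simp only
    ring
  have hFm : AEStronglyMeasurable F volume := by
    have h1 : Measurable fun p : ℝ × E 2 => cexp (-((p.1 * φ p.2 : ℝ) : ℂ) * I) :=
      Complex.measurable_exp.comp ((Complex.measurable_ofReal.comp
        (measurable_fst.mul (hφ.comp measurable_snd))).neg.mul_const I)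
    have : AEStronglyMeasurable (fun p : ℝ × E 2 => cexp (-((p.1 * φ p.2 : ℝ) : ℂ) * I) * g p.2)
        (volume.prod volume) := h1.aestronglyMeasurable.mul hgm.comp_snd
    exact this.integral_prod_right'
  have hFb : ∀ s, ‖F s‖ ≤ ∫ x, ‖g x‖ := by
    intro s
    refine (norm_integral_le_integral_norm _).trans (le_of_eq ?_)
    refine integral_congr_ae (Filter.Eventually.of_forall fun x => ?_)
    simp only
    rw [norm_mul, norm_ker, one_mul]
  have hint2 : Integrable (fun s : ℝ => Real.exp (-b * s ^ 2) * ‖F s‖ ^ 2) := by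
    have := (gint b hb).bdd_mul (c := (∫ x, ‖g x‖) ^ 2) (hFm.norm.pow 2)
      (Filter.Eventually.of_forall fun t => by
        have h0 : 0 ≤ (‖F t‖) ^ 2 := by positivity
        show ‖(‖F t‖) ^ 2‖ ≤ _
        rw [Real.norm_of_nonneg h0]
        exact pow_le_pow_left₀ (norm_nonneg _) (hFb t) 2)
    refine this.congr (Filter.Eventually.of_forall fun t => ?_)
    simp only [Pi.pow_apply]
    ring
  have hre : ∫ s, ((Real.exp (-b * s ^ 2) : ℝ) : ℂ) * (F s * conj (F s)) =
      ((∫ s, Real.exp (-b * s ^ 2) * ‖F s‖ ^ 2 : ℝ) : ℂ) := by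
    rw [← integral_complex_ofReal]
    refine integral_congr_ae (Filter.Eventually.of_forall fun s => ?_)
    simp only
    rw [Complex.mul_conj, Complex.normSq_eq_norm_sq]
    push_cast
    ring
  have hlhs : ∫⁻ s : ℝ, ‖F s‖ₑ ^ 2 * ENNReal.ofReal (Real.exp (-b * s ^ 2)) =
      ENNReal.ofReal (∫ s, Real.exp (-b * s ^ 2) * ‖F s‖ ^ 2) := by
    rw [ofReal_integral_eq_lintegral_ofReal hint2 (Filter.Eventually.of_forall fun t => by positivity)]
    refine lintegral_congr fun t => ?_
    rw [ENNReal.ofReal_mul (by positivity), mul_comm, ENNReal.ofReal_pow (norm_nonneg _), ofReal_norm]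
  have h0 : 0 ≤ ∫ s, Real.exp (-b * s ^ 2) * ‖F s‖ ^ 2 := integral_nonneg fun t => by positivity
  rw [hlhs, ← hkey, hre, ← ofReal_norm, Complex.norm_real, Real.norm_of_nonneg h0]

/-- the paraboloid -/
noncomputable def Phi (x : E 2) : E 3 := !₂[x 0, x 1, x 0 ^ 2 + x 1 ^ 2]

/-- the extension operator -/
noncomputable def EE (f : E 2 → ℂ) (ξ : E 3) : ℂ :=
  ∫ x, cexp (-((⟪Phi x, ξ⟫ : ℝ) : ℂ) * I) * f x

theorem Phi_meas : Measurable Phi := by
  unfold Phi
  refine (PiLp.volume_preserving_toLp (Fin 3)).measurable.comp ?_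
  refine measurable_pi_lambda _ fun i => ?_
  fin_cases i
  · show Measurable fun x : E 2 => x 0
    fun_prop
  · show Measurable fun x : E 2 => x 1
    fun_prop
  · show Measurable fun x : E 2 => x 0 ^ 2 + x 1 ^ 2
    fun_prop

variable (e : OrthonormalBasis (Fin 3) ℝ (E 3))

/-- the coordinates of the paraboloid in the plane of `e 0`, `e 1` -/
noncomputable def Pp (x : E 2) : E 2 := !₂[⟪Phi x, e 0⟫, ⟪Phi x, e 1⟫]

/-- the coordinate of the paraboloid in the direction `e 2` -/
noncomputable def ph (x : E 2) : ℝ := ⟪Phi x, e 2⟫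

theorem ph_meas : Measurable (ph e) := Phi_meas.inner measurable_const

theorem Pp_meas : Measurable (Pp e) := by
  unfold Pp
  refine (PiLp.volume_preserving_toLp (Fin 2)).measurable.comp ?_
  refine measurable_pi_lambda _ fun i => ?_
  fin_cases i
  · exact Phi_meas.inner measurable_const
  · exact Phi_meas.inner measurable_const

theorem inner_pt (x y : E 2) (s : ℝ) : ⟪Phi x, pt e y s⟫ = ⟪y, Pp e x⟫ + s * ph e x := by
  unfold pt Pp ph
  rw [inner_add_right, inner_add_right, inner_smul_right, inner_smul_right, inner_smul_right]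
  rw [PiLp.inner_apply (𝕜 := ℝ) y]
  simp [Fin.sum_univ_two, mul_comm]

/-- the pair of frequencies -/
noncomputable def Th (p : E 2 × (ℝ × ℝ)) : E 2 × E 2 :=
  (XX (pt e p.1 p.2.1) p.2.2, XX (pt e p.1 p.2.1) p.2.2 - dd (pt e p.1 p.2.1))

theorem Th_meas : Measurable (Th e) := by
  have h1 : Measurable fun p : E 2 × (ℝ × ℝ) => pt e p.1 p.2.1 :=
    (pt_meas e).comp (measurable_fst.prodMk (measurable_fst.comp measurable_snd))
  have h2 : Measurable fun p : E 2 × (ℝ × ℝ) => XX (pt e p.1 p.2.1) p.2.2 :=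
    XX_meas.comp (h1.prodMk (measurable_snd.comp measurable_snd))
  exact h2.prodMk (h2.sub (dd_meas.comp h1))

theorem Th_map : Measure.map (Th e) (volume : Measure (E 2 × (ℝ × ℝ))) =
    (2 : ℝ≥0∞) • (volume : Measure (E 2)).prod volume := by
  refine Measure.ext_of_lintegral _ fun F hF => ?_
  rw [lintegral_map hF (Th_meas e), lintegral_smul_measure, cov_pair e F hF, smul_eq_mul,
    ← mul_assoc, ENNReal.mul_inv_cancel (by norm_num) (by norm_num), one_mul,
    Measure.volume_eq_prod, lintegral_prod (fun a => F (Th e a)) (hF.comp (Th_meas e)).aemeasurable]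
  refine lintegral_congr fun y => ?_
  have h1 : Measurable fun q : ℝ × ℝ => F (Th e (y, q)) :=
    (hF.comp (Th_meas e)).comp (measurable_const.prodMk measurable_id)
  rw [Measure.volume_eq_prod, lintegral_prod (fun q => F (Th e (y, q))) h1.aemeasurable]
  rfl

theorem Phi_diff (D : E 3) (β : ℝ) (hD : D 0 ^ 2 + D 1 ^ 2 ≠ 0) :
    Phi (XX D β) - Phi (XX D β - dd D) = D := by
  ext i
  fin_cases i
  · simp [Phi, XX, dd]
  · simp [Phi, XX, dd]
  · simp [Phi, XX, dd]
    field_simp
    ring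

theorem pt_ne : ∀ᵐ y : E 2, ∀ᵐ s : ℝ, (pt e y s) 0 ^ 2 + (pt e y s) 1 ^ 2 ≠ 0 := by
  have hm : MeasurableSet {D : E 3 | D 0 ^ 2 + D 1 ^ 2 = 0} := by
    refine measurableSet_eq_fun ?_ measurable_const
    fun_prop
  have h0 : ∫⁻ D : E 3, ({D : E 3 | D 0 ^ 2 + D 1 ^ 2 = 0}).indicator (fun _ => (1 : ℝ≥0∞)) D = 0 := by
    rw [lint_E3 (EuclideanSpace.basisFun (Fin 3) ℝ) _ (measurable_const.indicator hm)]
    simp_rw [pt_std]
    have h1 : ∀ᵐ y : E 2, ∫⁻ s : ℝ, ({D : E 3 | D 0 ^ 2 + D 1 ^ 2 = 0}).indicator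
        (fun _ => (1 : ℝ≥0∞)) !₂[y 0, y 1, s] = 0 := by
      have h0 : ∀ᵐ d : E 2, d ≠ 0 := by
        rw [ae_iff]
        simp
      filter_upwards [h0] with y hy
      have : ∀ s : ℝ, ({D : E 3 | D 0 ^ 2 + D 1 ^ 2 = 0}).indicator
          (fun _ => (1 : ℝ≥0∞)) !₂[y 0, y 1, s] = 0 := by
        intro s
        rw [indicator_of_notMem]
        intro h
        have h' : y 0 ^ 2 + y 1 ^ 2 = 0 := by simpa using h
        apply hy
        have h1 : y 0 = 0 := by nlinarith [sq_nonneg (y 0), sq_nonneg (y 1)]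
        have h2 : y 1 = 0 := by nlinarith [sq_nonneg (y 0), sq_nonneg (y 1)]
        ext i
        fin_cases i
        · exact h1
        · exact h2
      simp_rw [this]
      simp
    rw [lintegral_congr_ae h1]
    simp
  rw [lint_E3 e _ (measurable_const.indicator hm)] at h0
  have hm2 : Measurable fun y : E 2 => ∫⁻ s : ℝ, ({D : E 3 | D 0 ^ 2 + D 1 ^ 2 = 0}).indicator
      (fun _ => (1 : ℝ≥0∞)) (pt e y s) :=
    ((measurable_const.indicator hm).comp (pt_meas e)).lintegral_prod_right'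
  rw [lintegral_eq_zero_iff hm2] at h0
  filter_upwards [h0] with y hy
  have hm3 : Measurable fun s : ℝ => ({D : E 3 | D 0 ^ 2 + D 1 ^ 2 = 0}).indicator
      (fun _ => (1 : ℝ≥0∞)) (pt e y s) :=
    (measurable_const.indicator hm).comp ((pt_meas e).comp (measurable_const.prodMk measurable_id))
  have hy' : ∫⁻ s : ℝ, ({D : E 3 | D 0 ^ 2 + D 1 ^ 2 = 0}).indicator
      (fun _ => (1 : ℝ≥0∞)) (pt e y s) = 0 := hy
  rw [lintegral_eq_zero_iff hm3] at hy'
  filter_upwards [hy'] with s hs h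
  have : pt e y s ∈ {D : E 3 | D 0 ^ 2 + D 1 ^ 2 = 0} := h
  rw [indicator_of_mem this] at hs
  simp at hs

theorem pt_ne' : ∀ᵐ y : E 2, ∀ᵐ q : ℝ × ℝ, (pt e y q.1) 0 ^ 2 + (pt e y q.1) 1 ^ 2 ≠ 0 := by
  filter_upwards [pt_ne e] with y hy
  exact Measure.quasiMeasurePreserving_fst.ae hy

/-- the kernel -/
noncomputable def Kf (f : E 2 → ℂ) (b : ℝ) (z : E 2 × E 2) : ℂ :=
  f z.1 * conj (f z.2) * (kb b (ph e z.1 - ph e z.2) : ℂ)

/-- the density whose Fourier transform is the integral of `|Ef|²` along lines -/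
noncomputable def Hf (f : E 2 → ℂ) (b : ℝ) (y : E 2) : ℂ :=
  (1 / 2) * ∫ q : ℝ × ℝ, Kf e f b (Th e (y, q))

variable {f : E 2 → ℂ}

theorem Kf_sm (hfm : Measurable f) (b : ℝ) : Measurable (Kf e f b) := by
  unfold Kf
  have h1 : Measurable fun z : E 2 × E 2 => f z.1 := hfm.comp measurable_fst
  have h2 : Measurable fun z : E 2 × E 2 => conj (f z.2) :=
    Complex.continuous_conj.measurable.comp (hfm.comp measurable_snd)
  have h3 : Measurable fun z : E 2 × E 2 => (kb b (ph e z.1 - ph e z.2) : ℂ) :=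
    Complex.measurable_ofReal.comp ((kb_cont b).measurable.comp
      (((ph_meas e).comp measurable_fst).sub ((ph_meas e).comp measurable_snd)))
  exact (h1.mul h2).mul h3

theorem Kf_int (hf : Integrable f) (b : ℝ) (hb : 0 < b) :
    Integrable (Kf e f b) (volume.prod volume) := by
  have hgg : Integrable (fun z : E 2 × E 2 => f z.1 * conj (f z.2)) (volume.prod volume) :=
    hf.mul_prod ((Complex.conjLIE.toContinuousLinearEquiv.integrable_comp_iff).2 hf)
  have h3 : Measurable fun z : E 2 × E 2 => (kb b (ph e z.1 - ph e z.2) : ℂ) :=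
    Complex.measurable_ofReal.comp ((kb_cont b).measurable.comp
      (((ph_meas e).comp measurable_fst).sub ((ph_meas e).comp measurable_snd)))
  have := hgg.bdd_mul (c := Real.sqrt (Real.pi / b)) h3.aestronglyMeasurable
    (Filter.Eventually.of_forall fun z => by
      rw [Complex.norm_real, Real.norm_of_nonneg (kb_nonneg _ _)]
      exact kb_le b _ hb)
  refine this.congr (Filter.Eventually.of_forall fun z => ?_)
  simp only [Kf]
  ring

theorem KT_int (hf : Integrable f) (b : ℝ) (hb : 0 < b) :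
    Integrable (fun p : E 2 × (ℝ × ℝ) => Kf e f b (Th e p)) (volume.prod volume) := by
  have h1 : Integrable (Kf e f b) (Measure.map (Th e) (volume : Measure (E 2 × (ℝ × ℝ)))) := by
    rw [Th_map]
    exact (Kf_int e hf b hb).smul_measure (by norm_num)
  exact h1.comp_measurable (Th_meas e)

theorem Hf_meas (hfm : Measurable f) (b : ℝ) : Measurable (Hf e f b) := by
  have h : StronglyMeasurable fun p : E 2 × (ℝ × ℝ) => Kf e f b (Th e p) :=
    ((Kf_sm e hfm b).comp (Th_meas e)).stronglyMeasurable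
  have h2 : StronglyMeasurable fun y : E 2 => ∫ q : ℝ × ℝ, Kf e f b (Th e (y, q)) :=
    StronglyMeasurable.integral_prod_right h
  exact h2.measurable.const_mul _

theorem Hf_int (hf : Integrable f) (b : ℝ) (hb : 0 < b) :
    Integrable (Hf e f b) := by
  have h := (KT_int e hf b hb).integral_prod_left
  exact h.const_mul _

/-- **The representation formula.** -/
theorem rep (hfm : Measurable f) (hf : Integrable f) (b : ℝ) (hb : 0 < b) (y : E 2) :
    ∫⁻ s : ℝ, ‖EE f (pt e y s)‖ₑ ^ 2 * ENNReal.ofReal (Real.exp (-b * s ^ 2)) =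
      ‖ft (Hf e f b) y‖ₑ := by
  set g : E 2 → ℂ := fun x => cexp (-((⟪y, Pp e x⟫ : ℝ) : ℂ) * I) * f x with hg
  have hkm : Measurable fun x : E 2 => cexp (-((⟪y, Pp e x⟫ : ℝ) : ℂ) * I) :=
    Complex.measurable_exp.comp ((Complex.measurable_ofReal.comp
      (measurable_const.inner (Pp_meas e))).neg.mul_const I)
  have hgi : Integrable g := hf.bdd_mul (c := 1) hkm.aestronglyMeasurable
    (Filter.Eventually.of_forall fun x => (norm_ker _).le)
  have e1 : ∀ s : ℝ, EE f (pt e y s) = ∫ x, cexp (-((s * ph e x : ℝ) : ℂ) * I) * g x := by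
    intro s
    unfold EE
    congr 1
    ext x
    rw [hg, inner_pt]
    simp only
    rw [← mul_assoc, ← Complex.exp_add]
    congr 2
    push_cast
    ring
  simp_rw [e1]
  rw [reg1 (ph_meas e) hgi b hb]
  congr 1
  have e2 : ∀ z : E 2 × E 2, (g z.1 * conj (g z.2)) * (kb b (ph e z.1 - ph e z.2) : ℂ) =
      cexp (-((⟪y, Pp e z.1 - Pp e z.2⟫ : ℝ) : ℂ) * I) * Kf e f b z := by
    intro z
    simp only [hg, Kf, map_mul]
    rw [← Complex.exp_conj]
    have e3 : cexp (-((⟪y, Pp e z.1 - Pp e z.2⟫ : ℝ) : ℂ) * I) =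
        cexp (-((⟪y, Pp e z.1⟫ : ℝ) : ℂ) * I) * cexp (conj (-((⟪y, Pp e z.2⟫ : ℝ) : ℂ) * I)) := by
      rw [← Complex.exp_add]
      congr 1
      simp only [map_mul, map_neg, conj_ofReal, conj_I, inner_sub_right]
      push_cast
      ring
    rw [e3]
    ring
  simp_rw [e2]
  set L : E 2 × E 2 → ℂ := fun z =>
    cexp (-((⟪y, Pp e z.1 - Pp e z.2⟫ : ℝ) : ℂ) * I) * Kf e f b z with hL
  have hLm : Measurable L := by
    refine Measurable.mul ?_ (Kf_sm e hfm b)
    exact Complex.measurable_exp.comp ((Complex.measurable_ofReal.comp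
      (measurable_const.inner (((Pp_meas e).comp measurable_fst).sub
        ((Pp_meas e).comp measurable_snd)))).neg.mul_const I)
  have hLi : Integrable L (volume.prod volume) := by
    have h := (Kf_int e hf b hb).bdd_mul (c := 1) (f := fun z : E 2 × E 2 =>
      cexp (-((⟪y, Pp e z.1 - Pp e z.2⟫ : ℝ) : ℂ) * I)) ?_ (Filter.Eventually.of_forall fun z =>
        (norm_ker _).le)
    · exact h
    · exact (Complex.measurable_exp.comp ((Complex.measurable_ofReal.comp
        (measurable_const.inner (((Pp_meas e).comp measurable_fst).sub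
        ((Pp_meas e).comp measurable_snd)))).neg.mul_const I)).aestronglyMeasurable
  have e4 : ∫ p : E 2 × (ℝ × ℝ), L (Th e p) = 2 * ∫ z, L z ∂((volume : Measure (E 2)).prod volume) := by
    rw [← integral_map (Th_meas e).aemeasurable hLm.aestronglyMeasurable, Th_map,
      integral_smul_measure]
    simp
  have hLTi : Integrable (fun p : E 2 × (ℝ × ℝ) => L (Th e p)) (volume.prod volume) := by
    have h1 : Integrable L (Measure.map (Th e) (volume : Measure (E 2 × (ℝ × ℝ)))) := by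
      rw [Th_map]
      exact hLi.smul_measure (by norm_num)
    exact h1.comp_measurable (Th_meas e)
  have e5 : ∫ z, L z ∂((volume : Measure (E 2)).prod volume) =
      (1 / 2) * ∫ p : E 2 × (ℝ × ℝ), L (Th e p) := by
    rw [e4]; ring
  rw [e5, Measure.volume_eq_prod, integral_prod _ hLTi]
  unfold ft
  rw [← integral_const_mul]
  refine integral_congr_ae ?_
  filter_upwards [pt_ne' e] with ζ hζ
  unfold Hf
  have e6 : ∫ q : ℝ × ℝ, L (Th e (ζ, q)) =
      ∫ q : ℝ × ℝ, cexp (-((⟪y, ζ⟫ : ℝ) : ℂ) * I) * Kf e f b (Th e (ζ, q)) := by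
    refine integral_congr_ae ?_
    filter_upwards [hζ] with q hq
    have h1 := Phi_diff (pt e ζ q.1) q.2 hq
    have h2 : ∀ i, ⟪Phi (Th e (ζ, q)).1, e i⟫ - ⟪Phi (Th e (ζ, q)).2, e i⟫ =
        ⟪pt e ζ q.1, e i⟫ := by
      intro i
      rw [← inner_sub_left]
      congr 1
    have h3 : ∀ i j, ⟪e i, e j⟫ = if i = j then (1 : ℝ) else 0 :=
      fun i j => orthonormal_iff_ite.1 e.orthonormal i j
    have h4 : Pp e (Th e (ζ, q)).1 - Pp e (Th e (ζ, q)).2 = ζ := by
      ext i
      fin_cases i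
      · show ⟪Phi (Th e (ζ, q)).1, e 0⟫ - ⟪Phi (Th e (ζ, q)).2, e 0⟫ = ζ 0
        rw [h2]
        simp [pt, inner_add_left, inner_smul_left, h3]
      · show ⟪Phi (Th e (ζ, q)).1, e 1⟫ - ⟪Phi (Th e (ζ, q)).2, e 1⟫ = ζ 1
        rw [h2]
        simp [pt, inner_add_left, inner_smul_left, h3]
    simp only [hL]
    rw [h4]
  rw [e6, integral_const_mul]
  ring

theorem ph_Th {y : E 2} {q : ℝ × ℝ} (hq : (pt e y q.1) 0 ^ 2 + (pt e y q.1) 1 ^ 2 ≠ 0) :
    ph e (Th e (y, q)).1 - ph e (Th e (y, q)).2 = q.1 := by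
  have h1 := Phi_diff (pt e y q.1) q.2 hq
  have h3 : ∀ i j, ⟪e i, e j⟫ = if i = j then (1 : ℝ) else 0 :=
    fun i j => orthonormal_iff_ite.1 e.orthonormal i j
  unfold ph
  rw [← inner_sub_left]
  have : Phi (Th e (y, q)).1 - Phi (Th e (y, q)).2 = pt e y q.1 := h1
  rw [this]
  simp [pt, inner_add_left, inner_smul_left, h3]

end Pool.Agent.K4H46.RX
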