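import Mathlib
import Pool.Agent.K4H46.RX.REP

set_option autoImplicit false

/-! Weighted Hölder inequality and Schur's test for the density of `∫ |Ef|²` along lines. -/

namespace Pool.Agent.K4H46.RX

open MeasureTheory Set Complex
open scoped ENNReal NNReal RealInnerProductSpace ComplexConjugate
open Pool.Agent.TH941.FN (ft ft_sq ft_cont)

theorem kb_lint (b α v0 : ℝ) (hb : 0 < b) (hα : 0 < α) :
    ∫⁻ v : ℝ, ENNReal.ofReal (kb b (α * (v - v0))) ≤ ENNReal.ofReal (2 * Real.pi / α) := by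
  have h1 : ∫⁻ v : ℝ, ENNReal.ofReal (kb b (α * (v - v0))) =
      ∫⁻ v : ℝ, ENNReal.ofReal (kb b (α * v)) :=
    lintegral_sub_right_eq_self (fun v => ENNReal.ofReal (kb b (α * v))) v0
  rw [h1]
  set c : ℝ := α ^ 2 / (4 * b) with hc
  have hc0 : 0 < c := by positivity
  have h2 : ∀ v : ℝ, kb b (α * v) = Real.sqrt (Real.pi / b) * Real.exp (-c * v ^ 2) := by
    intro v
    unfold kb
    congr 2
    rw [hc]
    ring
  have h3 : Integrable fun v : ℝ => Real.sqrt (Real.pi / b) * Real.exp (-c * v ^ 2) :=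
    (integrable_exp_neg_mul_sq hc0).const_mul _
  simp_rw [h2]
  rw [← ofReal_integral_eq_lintegral_ofReal h3
    (Filter.Eventually.of_forall fun v => by positivity), integral_const_mul, integral_gaussian]
  apply ENNReal.ofReal_le_ofReal
  rw [← Real.sqrt_mul (by positivity)]
  apply le_of_eq
  have : Real.pi / b * (Real.pi / c) = (2 * Real.pi / α) ^ 2 := by
    rw [hc]
    have := Real.pi_pos
    field_simp
    ring
  rw [this, Real.sqrt_sq (by positivity)]

theorem holder_w {Z : Type*} [MeasurableSpace Z] (ν : Measure Z) {ρ : ℝ} (hρ : 1 < ρ)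
    (a w : Z → ℝ≥0∞) (ha : Measurable a) (hw : Measurable w)
    (h0 : ∀ᵐ z ∂ν, a z ≠ 0 → w z ≠ 0 ∧ w z ≠ ∞) :
    (∫⁻ z, a z ∂ν) ^ ρ ≤ (∫⁻ z, a z ^ ρ * w z ∂ν) *
      (∫⁻ z, (if a z = 0 then 0 else w z ^ (-(1 / (ρ - 1)))) ∂ν) ^ (ρ - 1) := by
  have hρ0 : 0 < ρ := by linarith
  have hρ1 : 0 < ρ - 1 := by linarith
  have hs : MeasurableSet {z | a z = 0} := ha (measurableSet_singleton 0)
  set f1 : Z → ℝ≥0∞ := fun z => a z * w z ^ (1 / ρ) with hf1
  set f2 : Z → ℝ≥0∞ := fun z => if a z = 0 then 0 else w z ^ (-(1 / ρ)) with hf2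
  have hf1m : Measurable f1 := ha.mul (hw.pow_const _)
  have hf2m : Measurable f2 := Measurable.ite hs measurable_const (hw.pow_const _)
  have hpq : ρ.HolderConjugate (ρ / (ρ - 1)) := Real.HolderConjugate.conjExponent hρ
  have h := ENNReal.lintegral_mul_le_Lp_mul_Lq ν hpq hf1m.aemeasurable hf2m.aemeasurable
  have e1 : ∫⁻ z, (f1 * f2) z ∂ν = ∫⁻ z, a z ∂ν := by
    refine lintegral_congr_ae ?_
    filter_upwards [h0] with z hz
    simp only [Pi.mul_apply, hf1, hf2]
    by_cases haz : a z = 0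
    · simp [haz]
    · rw [if_neg haz, mul_assoc, ← ENNReal.rpow_add _ _ (hz haz).1 (hz haz).2, add_neg_cancel,
        ENNReal.rpow_zero, mul_one]
  have e2 : ∫⁻ z, f1 z ^ ρ ∂ν = ∫⁻ z, a z ^ ρ * w z ∂ν := by
    refine lintegral_congr fun z => ?_
    simp only [hf1]
    rw [ENNReal.mul_rpow_of_nonneg _ _ hρ0.le, ← ENNReal.rpow_mul, one_div_mul_cancel hρ0.ne',
      ENNReal.rpow_one]
  have e3 : ∫⁻ z, f2 z ^ (ρ / (ρ - 1)) ∂ν =
      ∫⁻ z, (if a z = 0 then 0 else w z ^ (-(1 / (ρ - 1)))) ∂ν := by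
    refine lintegral_congr fun z => ?_
    simp only [hf2]
    by_cases haz : a z = 0
    · rw [if_pos haz, if_pos haz, ENNReal.zero_rpow_of_pos (by positivity)]
    · rw [if_neg haz, if_neg haz, ← ENNReal.rpow_mul]
      congr 1
      field_simp
  rw [e1, e2, e3] at h
  calc (∫⁻ z, a z ∂ν) ^ ρ ≤ ((∫⁻ z, a z ^ ρ * w z ∂ν) ^ (1 / ρ) *
        (∫⁻ z, (if a z = 0 then 0 else w z ^ (-(1 / (ρ - 1)))) ∂ν) ^ (1 / (ρ / (ρ - 1)))) ^ ρ := by
        gcongr
    _ = _ := by
      rw [ENNReal.mul_rpow_of_nonneg _ _ hρ0.le, ← ENNReal.rpow_mul, one_div_mul_cancel hρ0.ne',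
        ENNReal.rpow_one, ← ENNReal.rpow_mul]
      congr 2
      field_simp

variable (e : OrthonormalBasis (Fin 3) ℝ (E 3)) {f : E 2 → ℂ}

/-- the abstract estimate of the density -/
theorem schur {ρ : ℝ} (hρ : 1 < ρ) (hfm : Measurable f) (U : Set (E 2)) (hU : MeasurableSet U)
    (hfU : ∀ x, x ∉ U → f x = 0)
    (b : ℝ) (hb : 0 < b) (W : E 2 × E 2 → ℝ≥0∞) (hW : Measurable W)
    (hWs : ∀ z, W z.swap = W z) (hW0 : ∀ z : E 2 × E 2, z.1 ≠ z.2 → W z ≠ 0 ∧ W z ≠ ∞)
    (C1 C2 : ℝ≥0∞)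
    (h1 : ∀ D : E 3, D 0 ^ 2 + D 1 ^ 2 ≠ 0 →
      ∫⁻ β in {β : ℝ | XX D β ∈ U}, W (XX D β, XX D β - dd D) ^ (-(1 / (ρ - 1))) ≤ C1)
    (h2 : ∀ x ∈ U, ∫⁻ x' in U, W (x, x') * ENNReal.ofReal (kb b (ph e x - ph e x')) ≤ C2) :
    ∫⁻ y, ‖Hf e f b y‖ₑ ^ ρ ≤ (C1 * ENNReal.ofReal (2 * Real.pi)) ^ (ρ - 1) *
      (2 * (2 * (C2 * ∫⁻ x, ‖f x‖ₑ ^ (2 * ρ)))) := by
  have hρ0 : 0 < ρ := by linarith
  have hρ1 : 0 < ρ - 1 := by linarith
  set ν : Measure (ℝ × ℝ) :=
    (volume : Measure (ℝ × ℝ)).withDensity (fun q => ENNReal.ofReal (kb b q.1)) with hν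
  have hkm : Measurable fun q : ℝ × ℝ => ENNReal.ofReal (kb b q.1) :=
    ((kb_cont b).measurable.comp measurable_fst).ennreal_ofReal
  have hThy : ∀ y, Measurable fun q : ℝ × ℝ => Th e (y, q) := fun y =>
    (Th_meas e).comp (measurable_const.prodMk measurable_id)
  set A : E 2 × E 2 → ℝ≥0∞ := fun z => ‖f z.1‖ₑ * ‖f z.2‖ₑ with hA
  have hAm : Measurable A := ((hfm.comp measurable_fst).enorm).mul ((hfm.comp measurable_snd).enorm)
  have hAy : ∀ y, Measurable fun q : ℝ × ℝ => A (Th e (y, q)) := fun y => hAm.comp (hThy y)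
  have hWy : ∀ y, Measurable fun q : ℝ × ℝ => W (Th e (y, q)) := fun y => hW.comp (hThy y)
  -- fibrewise estimate
  have hfib : ∀ᵐ y : E 2, ‖Hf e f b y‖ₑ ^ ρ ≤ (C1 * ENNReal.ofReal (2 * Real.pi)) ^ (ρ - 1) *
      ∫⁻ q : ℝ × ℝ, A (Th e (y, q)) ^ ρ * W (Th e (y, q)) * ENNReal.ofReal (kb b q.1) := by
    filter_upwards [pt_ne' e] with y hy
    have hH : ‖Hf e f b y‖ₑ ≤ ∫⁻ q, A (Th e (y, q)) ∂ν := by
      unfold Hf
      rw [enorm_mul, hν, lintegral_withDensity_eq_lintegral_mul _ hkm (hAy y)]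
      have h3 : ‖(1 / 2 : ℂ)‖ₑ ≤ 1 := by
        rw [← ofReal_norm]
        norm_num
      calc ‖(1 / 2 : ℂ)‖ₑ * ‖∫ q : ℝ × ℝ, Kf e f b (Th e (y, q))‖ₑ
          ≤ 1 * ∫⁻ q : ℝ × ℝ, ‖Kf e f b (Th e (y, q))‖ₑ :=
            mul_le_mul' h3 (enorm_integral_le_lintegral_enorm _)
        _ = ∫⁻ q : ℝ × ℝ, ‖Kf e f b (Th e (y, q))‖ₑ := one_mul _
        _ = _ := by
          refine lintegral_congr_ae ?_
          filter_upwards [hy] with q hq
          simp only [Kf, Pi.mul_apply, Function.comp_apply, hA]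
          rw [ph_Th e hq, enorm_mul, enorm_mul]
          have h4 : ‖conj (f (Th e (y, q)).2)‖ₑ = ‖f (Th e (y, q)).2‖ₑ := by
            rw [← ofReal_norm, Complex.norm_conj, ofReal_norm]
          have h5 : ‖((kb b q.1 : ℝ) : ℂ)‖ₑ = ENNReal.ofReal (kb b q.1) := by
            rw [← ofReal_norm, Complex.norm_real, Real.norm_of_nonneg (kb_nonneg _ _)]
          rw [h4, h5]
          ring
    have hac : ∀ᵐ q ∂ν, (pt e y q.1) 0 ^ 2 + (pt e y q.1) 1 ^ 2 ≠ 0 :=
      (withDensity_absolutelyContinuous _ _).ae_le hy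
    have hne : ∀ q : ℝ × ℝ, (pt e y q.1) 0 ^ 2 + (pt e y q.1) 1 ^ 2 ≠ 0 →
        (Th e (y, q)).1 ≠ (Th e (y, q)).2 := by
      intro q hq h
      have h3 : dd (pt e y q.1) = 0 := by
        have h4 : XX (pt e y q.1) q.2 = XX (pt e y q.1) q.2 - dd (pt e y q.1) := h
        exact (sub_eq_self.1 h4.symm)
      apply hq
      have h5 : (pt e y q.1) 0 = 0 := by
        have := congrArg (fun v : E 2 => v 0) h3
        simpa [dd] using this
      have h6 : (pt e y q.1) 1 = 0 := by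
        have := congrArg (fun v : E 2 => v 1) h3
        simpa [dd] using this
      rw [h5, h6]
      norm_num
    have hhold := holder_w ν hρ (fun q => A (Th e (y, q))) (fun q => W (Th e (y, q)))
      (hAm.comp (hThy y)) (hW.comp (hThy y)) (by
        filter_upwards [hac] with q hq _
        exact hW0 _ (hne q hq))
    have hsec : ∫⁻ q, (if A (Th e (y, q)) = 0 then 0 else W (Th e (y, q)) ^ (-(1 / (ρ - 1)))) ∂ν ≤
        C1 * ENNReal.ofReal (2 * Real.pi) := by
      have hm1 : Measurable fun q : ℝ × ℝ => (if A (Th e (y, q)) = 0 then 0 else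
          W (Th e (y, q)) ^ (-(1 / (ρ - 1)))) :=
        Measurable.ite ((hAm.comp (hThy y)) (measurableSet_singleton 0)) measurable_const
          ((hW.comp (hThy y)).pow_const _)
      rw [hν, lintegral_withDensity_eq_lintegral_mul _ hkm hm1, Measure.volume_eq_prod,
        lintegral_prod _ (hkm.mul hm1).aemeasurable]
      have h3 : ∀ᵐ σ : ℝ, (pt e y σ) 0 ^ 2 + (pt e y σ) 1 ^ 2 ≠ 0 := by
        have h4 : ∀ᵐ q ∂((volume : Measure ℝ).prod (volume : Measure ℝ)),
          (pt e y q.1) 0 ^ 2 + (pt e y q.1) 1 ^ 2 ≠ 0 := hy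
        have h5 := Measure.ae_ae_of_ae_prod h4
        filter_upwards [h5] with σ hσ
        obtain ⟨β, hβ⟩ := hσ.exists
        exact hβ
      calc ∫⁻ σ : ℝ, ∫⁻ β : ℝ, ((fun q : ℝ × ℝ => ENNReal.ofReal (kb b q.1)) *
            fun q => (if A (Th e (y, q)) = 0 then 0 else
              W (Th e (y, q)) ^ (-(1 / (ρ - 1))))) (σ, β)
          ≤ ∫⁻ σ : ℝ, ENNReal.ofReal (kb b σ) * C1 := by
            refine lintegral_mono_ae ?_
            filter_upwards [h3] with σ hσ
            simp only [Pi.mul_apply]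
            rw [lintegral_const_mul' _ _ ENNReal.ofReal_ne_top]
            gcongr
            have hXm : MeasurableSet {β : ℝ | XX (pt e y σ) β ∈ U} :=
              (XX_meas.comp (measurable_const.prodMk measurable_id)) hU
            refine le_trans ?_ (h1 (pt e y σ) hσ)
            rw [← lintegral_indicator hXm]
            refine lintegral_mono fun β => ?_
            by_cases hz : A (Th e (y, (σ, β))) = 0
            · rw [if_pos hz]; exact zero_le
            · rw [if_neg hz]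
              have hXU : β ∈ {β : ℝ | XX (pt e y σ) β ∈ U} := by
                by_contra hn
                apply hz
                simp only [hA]
                have : f (Th e (y, (σ, β))).1 = 0 := hfU _ hn
                rw [this]
                simp
              rw [indicator_of_mem hXU]
              rfl
        _ = (∫⁻ σ : ℝ, ENNReal.ofReal (kb b σ)) * C1 := by
            rw [lintegral_mul_const]
            exact (kb_cont b).measurable.ennreal_ofReal
        _ ≤ ENNReal.ofReal (2 * Real.pi) * C1 := by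
            gcongr
            have := kb_lint b 1 0 hb one_pos
            simpa using this
        _ = _ := mul_comm _ _
    calc ‖Hf e f b y‖ₑ ^ ρ ≤ (∫⁻ q, A (Th e (y, q)) ∂ν) ^ ρ := by gcongr
      _ ≤ (∫⁻ q, A (Th e (y, q)) ^ ρ * W (Th e (y, q)) ∂ν) *
          (C1 * ENNReal.ofReal (2 * Real.pi)) ^ (ρ - 1) := by
          refine hhold.trans ?_
          gcongr
      _ = _ := by
          have hAW : Measurable fun q : ℝ × ℝ => A (Th e (y, q)) ^ ρ * W (Th e (y, q)) :=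
            ((hAy y).pow_const ρ).mul (hWy y)
          rw [mul_comm, hν, lintegral_withDensity_eq_lintegral_mul _ hkm hAW]
          congr 1
          refine lintegral_congr fun q => ?_
          simp only [Pi.mul_apply]
          ring
  -- integration
  set B : E 2 × E 2 → ℝ≥0∞ := fun z => A z ^ ρ * W z * ENNReal.ofReal (kb b (ph e z.1 - ph e z.2))
    with hB
  have hkm2 : Measurable fun z : E 2 × E 2 => ENNReal.ofReal (kb b (ph e z.1 - ph e z.2)) :=
    ((kb_cont b).measurable.comp (((ph_meas e).comp measurable_fst).sub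
      ((ph_meas e).comp measurable_snd))).ennreal_ofReal
  have hBm : Measurable B := ((hAm.pow_const ρ).mul hW).mul hkm2
  have hint : ∫⁻ y : E 2, ∫⁻ q : ℝ × ℝ, A (Th e (y, q)) ^ ρ * W (Th e (y, q)) *
      ENNReal.ofReal (kb b q.1) = 2 * ∫⁻ z, B z ∂((volume : Measure (E 2)).prod volume) := by
    have h3 : ∫⁻ p : E 2 × (ℝ × ℝ), B (Th e p) = 2 * ∫⁻ z, B z ∂((volume : Measure (E 2)).prod volume) := by
      rw [← lintegral_map hBm (Th_meas e), Th_map, lintegral_smul_measure, smul_eq_mul]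
    rw [← h3]
    have h4 : ∫⁻ p : E 2 × (ℝ × ℝ), B (Th e p) = ∫⁻ y : E 2, ∫⁻ q : ℝ × ℝ, B (Th e (y, q)) :=
      lintegral_prod (fun p : E 2 × (ℝ × ℝ) => B (Th e p)) (hBm.comp (Th_meas e)).aemeasurable
    rw [h4]
    refine lintegral_congr_ae ?_
    filter_upwards [pt_ne' e] with y hy
    refine lintegral_congr_ae ?_
    filter_upwards [hy] with q hq
    simp only [hB]
    rw [ph_Th e hq]
  -- Schur's test
  have hhalf : ∀ z : E 2 × E 2, A z ^ ρ ≤ ‖f z.1‖ₑ ^ (2 * ρ) + ‖f z.2‖ₑ ^ (2 * ρ) := by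
    intro z
    simp only [hA]
    rw [ENNReal.mul_rpow_of_nonneg _ _ hρ0.le, mul_comm 2 ρ, ENNReal.rpow_mul, ENNReal.rpow_mul]
    have hxy : ∀ s t : ℝ≥0∞, s * t ≤ s ^ (2 : ℝ) + t ^ (2 : ℝ) := by
      intro s t
      rw [ENNReal.rpow_two, ENNReal.rpow_two]
      rcases le_total s t with h | h
      · calc s * t ≤ t * t := by gcongr
          _ = t ^ 2 := (sq t).symm
          _ ≤ s ^ 2 + t ^ 2 := le_add_self
      · calc s * t ≤ s * s := by gcongr
          _ = s ^ 2 := (sq s).symm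
          _ ≤ s ^ 2 + t ^ 2 := le_self_add
    exact hxy _ _
  have hpt : ∀ z : E 2 × E 2, B z ≤ (‖f z.1‖ₑ ^ (2 * ρ) *
      (U.indicator (fun x' => W (z.1, x') * ENNReal.ofReal (kb b (ph e z.1 - ph e x'))) z.2)) +
      (‖f z.2‖ₑ ^ (2 * ρ) *
      (U.indicator (fun x' => W (z.2, x') * ENNReal.ofReal (kb b (ph e z.2 - ph e x'))) z.1)) := by
    intro z
    by_cases hz1 : z.1 ∈ U
    · by_cases hz2 : z.2 ∈ U
      · rw [indicator_of_mem hz2, indicator_of_mem hz1]
        have h3 : W (z.2, z.1) = W (z.1, z.2) := hWs (z.1, z.2)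
        have h4 : kb b (ph e z.2 - ph e z.1) = kb b (ph e z.1 - ph e z.2) := by
          unfold kb
          congr 3
          ring
        rw [h3, h4]
        calc B z ≤ (‖f z.1‖ₑ ^ (2 * ρ) + ‖f z.2‖ₑ ^ (2 * ρ)) * W z *
              ENNReal.ofReal (kb b (ph e z.1 - ph e z.2)) := by
              simp only [hB]
              gcongr
              exact hhalf z
          _ = _ := by ring
      · have : A z = 0 := by simp [hA, hfU _ hz2]
        simp [hB, this, ENNReal.zero_rpow_of_pos hρ0]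
    · have : A z = 0 := by simp [hA, hfU _ hz1]
      simp [hB, this, ENNReal.zero_rpow_of_pos hρ0]
  have hM1 : Measurable fun z : E 2 × E 2 => ‖f z.1‖ₑ ^ (2 * ρ) *
      (U.indicator (fun x' => W (z.1, x') * ENNReal.ofReal (kb b (ph e z.1 - ph e x'))) z.2) := by
    refine ((hfm.comp measurable_fst).enorm.pow_const _).mul ?_
    have h3 : Measurable ((Prod.snd ⁻¹' U).indicator fun z : E 2 × E 2 => W (z.1, z.2) *
        ENNReal.ofReal (kb b (ph e z.1 - ph e z.2))) :=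
      (hW.mul hkm2).indicator (measurable_snd hU)
    exact h3
  have hone : ∫⁻ z : E 2 × E 2, ‖f z.1‖ₑ ^ (2 * ρ) *
      (U.indicator (fun x' => W (z.1, x') * ENNReal.ofReal (kb b (ph e z.1 - ph e x'))) z.2)
      ∂(volume.prod volume) ≤ C2 * ∫⁻ x, ‖f x‖ₑ ^ (2 * ρ) := by
    rw [lintegral_prod _ hM1.aemeasurable, ← lintegral_const_mul _ (hfm.enorm.pow_const _)]
    refine lintegral_mono fun x => ?_
    by_cases hx : x ∈ U
    · have hm3 : Measurable fun x' => U.indicator (fun x' => W (x, x') *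
          ENNReal.ofReal (kb b (ph e x - ph e x'))) x' :=
        ((hW.comp (measurable_const.prodMk measurable_id)).mul (hkm2.comp
          (measurable_const.prodMk measurable_id))).indicator hU
      simp only
      rw [lintegral_const_mul _ hm3, lintegral_indicator hU, mul_comm]
      gcongr
      exact h2 x hx
    · simp only [hfU x hx, enorm_zero, ENNReal.zero_rpow_of_pos (show 0 < 2 * ρ by positivity),
        zero_mul, lintegral_zero]
      exact zero_le
  have htwo : ∫⁻ z : E 2 × E 2, ‖f z.2‖ₑ ^ (2 * ρ) *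
      (U.indicator (fun x' => W (z.2, x') * ENNReal.ofReal (kb b (ph e z.2 - ph e x'))) z.1)
      ∂(volume.prod volume) ≤ C2 * ∫⁻ x, ‖f x‖ₑ ^ (2 * ρ) := by
    refine le_trans (le_of_eq ?_) hone
    exact lintegral_prod_swap (μ := (volume : Measure (E 2))) (ν := (volume : Measure (E 2)))
      (fun z : E 2 × E 2 => ‖f z.1‖ₑ ^ (2 * ρ) *
      (U.indicator (fun x' => W (z.1, x') * ENNReal.ofReal (kb b (ph e z.1 - ph e x'))) z.2))
  have hBle : ∫⁻ z, B z ∂((volume : Measure (E 2)).prod volume) ≤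
      2 * (C2 * ∫⁻ x, ‖f x‖ₑ ^ (2 * ρ)) := by
    calc ∫⁻ z, B z ∂((volume : Measure (E 2)).prod volume)
        ≤ ∫⁻ z, ((‖f z.1‖ₑ ^ (2 * ρ) *
      (U.indicator (fun x' => W (z.1, x') * ENNReal.ofReal (kb b (ph e z.1 - ph e x'))) z.2)) +
      (‖f z.2‖ₑ ^ (2 * ρ) *
      (U.indicator (fun x' => W (z.2, x') * ENNReal.ofReal (kb b (ph e z.2 - ph e x'))) z.1)))
        ∂((volume : Measure (E 2)).prod volume) := lintegral_mono hpt
      _ ≤ (C2 * ∫⁻ x, ‖f x‖ₑ ^ (2 * ρ)) + (C2 * ∫⁻ x, ‖f x‖ₑ ^ (2 * ρ)) := by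
        rw [lintegral_add_left hM1]
        gcongr
      _ = _ := by rw [← two_mul]
  calc ∫⁻ y, ‖Hf e f b y‖ₑ ^ ρ ≤ ∫⁻ y, (C1 * ENNReal.ofReal (2 * Real.pi)) ^ (ρ - 1) *
      ∫⁻ q : ℝ × ℝ, A (Th e (y, q)) ^ ρ * W (Th e (y, q)) * ENNReal.ofReal (kb b q.1) :=
        lintegral_mono_ae hfib
    _ = (C1 * ENNReal.ofReal (2 * Real.pi)) ^ (ρ - 1) *
        (2 * ∫⁻ z, B z ∂((volume : Measure (E 2)).prod volume)) := by
        rw [lintegral_const_mul, hint]
        have h3 : Measurable fun p : E 2 × (ℝ × ℝ) => A (Th e p) ^ ρ * W (Th e p) *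
            ENNReal.ofReal (kb b p.2.1) :=
          (((hAm.comp (Th_meas e)).pow_const ρ).mul (hW.comp (Th_meas e))).mul
            (hkm.comp measurable_snd)
        exact h3.lintegral_prod_right'
    _ ≤ _ := by gcongr

end Pool.Agent.K4H46.RX
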