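import Mathlib
import Pool.Agent.K4H46.RX.SCH

set_option autoImplicit false

/-! Kernel estimates for the two regimes of directions. -/

namespace Pool.Agent.K4H46.RX

open MeasureTheory Set
open scoped ENNReal NNReal RealInnerProductSpace

/-- integrability of a power at the origin -/
theorem fin_pow (γ M : ℝ) (hγ : -1 < γ) (hM : 0 ≤ M) :
    ∫⁻ w in Icc (-M) M, ENNReal.ofReal (|w| ^ γ) < ∞ := by
  have h2 : IntervalIntegrable (fun t : ℝ => t ^ γ) volume 0 M :=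
    intervalIntegral.intervalIntegrable_rpow' hγ
  have h3 : IntegrableOn (fun t : ℝ => t ^ γ) (Ioc 0 M) :=
    (intervalIntegrable_iff_integrableOn_Ioc_of_le hM).1 h2
  have h4 : ∫⁻ w in Ioc 0 M, ENNReal.ofReal (|w| ^ γ) < ∞ := by
    have : ∫⁻ w in Ioc 0 M, ENNReal.ofReal (|w| ^ γ) = ∫⁻ w in Ioc 0 M, ENNReal.ofReal (w ^ γ) :=
      setLIntegral_congr_fun measurableSet_Ioc fun w hw => by
        show ENNReal.ofReal (|w| ^ γ) = ENNReal.ofReal (w ^ γ)
        rw [abs_of_pos hw.1]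
    rw [this, ← ofReal_integral_eq_lintegral_ofReal h3 ((ae_restrict_iff' measurableSet_Ioc).2
      (Filter.Eventually.of_forall fun t ht => Real.rpow_nonneg ht.1.le _))]
    exact ENNReal.ofReal_lt_top
  have h5 : ∫⁻ w in Ico (-M) 0, ENNReal.ofReal (|w| ^ γ) = ∫⁻ w in Ioc 0 M, ENNReal.ofReal (|w| ^ γ) := by
    rw [← lintegral_indicator measurableSet_Ico, ← lintegral_indicator measurableSet_Ioc]
    have := (Measure.measurePreserving_neg (volume : Measure ℝ)).lintegral_comp_emb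
      (MeasurableEquiv.neg ℝ).measurableEmbedding
      (fun w => (Ico (-M) 0).indicator (fun w => ENNReal.ofReal (|w| ^ γ)) w)
    rw [← this]
    refine lintegral_congr fun w => ?_
    by_cases hw : w ∈ Ioc 0 M
    · have hw' : -w ∈ Ico (-M) 0 := ⟨by linarith [hw.2], by linarith [hw.1]⟩
      show (Ico (-M) 0).indicator _ (-w) = _
      rw [indicator_of_mem hw, indicator_of_mem hw', abs_neg]
    · have hw' : -w ∉ Ico (-M) 0 := fun h => hw ⟨by linarith [h.2], by linarith [h.1]⟩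
      show (Ico (-M) 0).indicator _ (-w) = _
      rw [indicator_of_notMem hw, indicator_of_notMem hw']
  have h6 : Icc (-M) M ⊆ Ico (-M) 0 ∪ {0} ∪ Ioc 0 M := by
    intro w hw
    rcases lt_trichotomy w 0 with h | h | h
    · exact Or.inl (Or.inl ⟨hw.1, h⟩)
    · exact Or.inl (Or.inr h)
    · exact Or.inr ⟨h, hw.2⟩
  calc ∫⁻ w in Icc (-M) M, ENNReal.ofReal (|w| ^ γ)
      ≤ ∫⁻ w in Ico (-M) 0 ∪ {0} ∪ Ioc 0 M, ENNReal.ofReal (|w| ^ γ) := lintegral_mono_set h6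
    _ ≤ (∫⁻ w in Ico (-M) 0 ∪ {0}, ENNReal.ofReal (|w| ^ γ)) +
        (∫⁻ w in Ioc 0 M, ENNReal.ofReal (|w| ^ γ)) := lintegral_union_le _ _ _
    _ ≤ ((∫⁻ w in Ico (-M) 0, ENNReal.ofReal (|w| ^ γ)) +
        (∫⁻ w in ({0} : Set ℝ), ENNReal.ofReal (|w| ^ γ))) +
        (∫⁻ w in Ioc 0 M, ENNReal.ofReal (|w| ^ γ)) := by gcongr; exact lintegral_union_le _ _ _
    _ < ∞ := by
      rw [h5, Measure.restrict_singleton]
      simp only [Real.volume_singleton, zero_smul, lintegral_zero_measure, add_zero]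
      exact ENNReal.add_lt_top.2 ⟨h4, h4⟩

theorem fin_pow_tr (γ M s : ℝ) (hγ : -1 < γ) (hM : 0 ≤ M) :
    ∫⁻ w in Icc (-M) M, ENNReal.ofReal (|w - s| ^ γ) < ∞ := by
  have h0 := fin_pow γ (M + |s|) hγ (by positivity)
  refine lt_of_le_of_lt ?_ h0
  rw [← lintegral_indicator measurableSet_Icc, ← lintegral_indicator measurableSet_Icc,
    ← lintegral_sub_right_eq_self (fun w => (Icc (-(M + |s|)) (M + |s|)).indicator
      (fun w => ENNReal.ofReal (|w| ^ γ)) w) s]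
  refine lintegral_mono fun w => ?_
  by_cases hw : w ∈ Icc (-M) M
  · have hw' : w - s ∈ Icc (-(M + |s|)) (M + |s|) :=
      ⟨by linarith [hw.1, le_abs_self s], by linarith [hw.2, neg_abs_le s]⟩
    rw [indicator_of_mem hw, indicator_of_mem hw']
  · rw [indicator_of_notMem hw]; exact zero_le

/-- a uniform bound for translates -/
theorem pow_tr_le (γ : ℝ) (s : ℝ) (hs : |s| ≤ 1 / 2) :
    ∫⁻ w in Icc (-(1 / 2) : ℝ) (1 / 2), ENNReal.ofReal (|s - w| ^ γ) ≤
      ∫⁻ w in Icc (-1 : ℝ) 1, ENNReal.ofReal (|w| ^ γ) := by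
  rw [← lintegral_indicator measurableSet_Icc, ← lintegral_indicator measurableSet_Icc,
    ← lintegral_sub_left_eq_self (fun w => (Icc (-1 : ℝ) 1).indicator
      (fun w => ENNReal.ofReal (|w| ^ γ)) w) s]
  refine lintegral_mono fun w => ?_
  have hs' := abs_le.1 hs
  by_cases hw : w ∈ Icc (-(1 / 2) : ℝ) (1 / 2)
  · have hw' : s - w ∈ Icc (-1 : ℝ) 1 := ⟨by linarith [hw.2], by linarith [hw.1]⟩
    rw [indicator_of_mem hw, indicator_of_mem hw']
  · rw [indicator_of_notMem hw]; exact zero_le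

/-- one-dimensional integrals of the Gaussian kernel along a quadratic polynomial without critical
point -/
theorem kb_quad (b : ℝ) (hb : 0 < b) (u v w : ℝ) (hu : 2 / 3 ≤ |u|) (hv : 2 * |v| ≤ |u|) :
    ∫⁻ t in Icc (-(1 / 2) : ℝ) (1 / 2), ENNReal.ofReal (kb b (w - (u * t + v * t ^ 2))) ≤
      ENNReal.ofReal (12 * Real.pi) := by
  set g : ℝ → ℝ := fun t => u * t + v * t ^ 2 with hg
  have hgc : Continuous g := by fun_prop
  obtain ⟨t0, ht0, hmin⟩ := isCompact_Icc.exists_isMinOn (s := Icc (-(1 / 2) : ℝ) (1 / 2))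
    ⟨0, by norm_num, by norm_num⟩ (f := fun t => |w - g t|) (by fun_prop)
  have hkey : ∀ t ∈ Icc (-(1 / 2) : ℝ) (1 / 2), (1 / 6) * |t - t0| ≤ |w - g t| := by
    intro t ht
    have h1 : |w - g t0| ≤ |w - g t| := hmin ht
    have h2 : |g t - g t0| ≤ 2 * |w - g t| := by
      have : g t - g t0 = (w - g t0) - (w - g t) := by ring
      rw [this]
      calc |(w - g t0) - (w - g t)| ≤ |w - g t0| + |w - g t| := abs_sub _ _
        _ ≤ 2 * |w - g t| := by linarith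
    have h3 : g t - g t0 = (t - t0) * (u + v * (t + t0)) := by simp only [hg]; ring
    have h4 : |u| / 2 ≤ |u + v * (t + t0)| := by
      have h5 : |t + t0| ≤ 1 := by
        rw [abs_le]
        exact ⟨by linarith [ht.1, ht0.1], by linarith [ht.2, ht0.2]⟩
      have h6 : |v * (t + t0)| ≤ |v| := by
        rw [abs_mul]
        exact mul_le_of_le_one_right (abs_nonneg _) h5
      have h7 : |u| ≤ |u + v * (t + t0)| + |v * (t + t0)| := by
        have : u = (u + v * (t + t0)) - v * (t + t0) := by ring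
        nth_rewrite 1 [this]
        exact abs_sub _ _
      linarith
    rw [h3, abs_mul] at h2
    have h8 : 1 / 3 ≤ |u + v * (t + t0)| := by linarith
    nlinarith [abs_nonneg (t - t0)]
  calc ∫⁻ t in Icc (-(1 / 2) : ℝ) (1 / 2), ENNReal.ofReal (kb b (w - g t))
      ≤ ∫⁻ t in Icc (-(1 / 2) : ℝ) (1 / 2), ENNReal.ofReal (kb b ((1 / 6) * (t - t0))) := by
        refine setLIntegral_mono' measurableSet_Icc fun t ht => ?_
        apply ENNReal.ofReal_le_ofReal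
        unfold kb
        refine mul_le_mul_of_nonneg_left ?_ (Real.sqrt_nonneg _)
        rw [Real.exp_le_exp]
        apply div_le_div_of_nonneg_right _ (by positivity)
        rw [neg_le_neg_iff, ← sq_abs (1 / 6 * (t - t0)), ← sq_abs (w - g t)]
        refine pow_le_pow_left₀ (abs_nonneg _) ?_ 2
        rw [abs_mul, abs_of_pos (by norm_num : (0 : ℝ) < 1 / 6)]
        exact hkey t ht
    _ ≤ ∫⁻ t : ℝ, ENNReal.ofReal (kb b ((1 / 6) * (t - t0))) := setLIntegral_le_lintegral _ _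
    _ ≤ ENNReal.ofReal (2 * Real.pi / (1 / 6)) := kb_lint b (1 / 6) t0 hb (by norm_num)
    _ = _ := by congr 1; ring

theorem enorm_pow_ae (γ : ℝ) : ∀ᵐ w : ℝ, ‖w‖ₑ ^ γ = ENNReal.ofReal (|w| ^ γ) := by
  have h0 : ∀ᵐ w : ℝ, w ≠ 0 := by
    rw [ae_iff]
    simp
  filter_upwards [h0] with w hw
  rw [← ENNReal.ofReal_rpow_of_pos (abs_pos.2 hw), ← Real.norm_eq_abs, ofReal_norm]

/-- the constant of the second regime -/
noncomputable def cρ (ρ : ℝ) : ℝ≥0∞ := ∫⁻ w in Icc (-1 : ℝ) 1, ‖w‖ₑ ^ (1 - ρ)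

theorem cρ_lt (ρ : ℝ) (hρ : ρ < 2) : cρ ρ < ∞ := by
  unfold cρ
  rw [lintegral_congr_ae (ae_restrict_of_ae (enorm_pow_ae (1 - ρ)))]
  exact fin_pow _ 1 (by linarith) (by norm_num)

theorem cρ_tr (ρ : ℝ) (s : ℝ) (hs : |s| ≤ 1 / 2) :
    ∫⁻ w in Icc (-(1 / 2) : ℝ) (1 / 2), ‖s - w‖ₑ ^ (1 - ρ) ≤ cρ ρ := by
  unfold cρ
  rw [← lintegral_indicator measurableSet_Icc, ← lintegral_indicator measurableSet_Icc,
    ← lintegral_sub_left_eq_self (fun w => (Icc (-1 : ℝ) 1).indicator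
      (fun w : ℝ => ‖w‖ₑ ^ (1 - ρ)) w) s]
  refine lintegral_mono fun w => ?_
  have hs' := abs_le.1 hs
  by_cases hw : w ∈ Icc (-(1 / 2) : ℝ) (1 / 2)
  · have hw' : s - w ∈ Icc (-1 : ℝ) 1 := ⟨by linarith [hw.2], by linarith [hw.1]⟩
    rw [indicator_of_mem hw, indicator_of_mem hw']
  · rw [indicator_of_notMem hw]; exact zero_le

theorem norm_sq_E2 (x : E 2) : ‖x‖ ^ 2 = x 0 ^ 2 + x 1 ^ 2 := by
  rw [EuclideanSpace.norm_sq_eq, Fin.sum_univ_two]
  simp

theorem abs_le_norm0 (x : E 2) : |x 0| ≤ ‖x‖ := by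
  apply abs_le_of_sq_le_sq _ (norm_nonneg _)
  rw [norm_sq_E2]
  nlinarith [sq_nonneg (x 1)]

theorem abs_le_norm1 (x : E 2) : |x 1| ≤ ‖x‖ := by
  apply abs_le_of_sq_le_sq _ (norm_nonneg _)
  rw [norm_sq_E2]
  nlinarith [sq_nonneg (x 0)]

variable (e : OrthonormalBasis (Fin 3) ℝ (E 3))

theorem ph_eq (x : E 2) : ph e x = x 0 * (e 2) 0 + x 1 * (e 2) 1 + (x 0 ^ 2 + x 1 ^ 2) * (e 2) 2 := by
  unfold ph Phi
  rw [PiLp.inner_apply (𝕜 := ℝ), Fin.sum_univ_three]
  simp [mul_comm]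

/-- Schur's test in the second regime -/
theorem iiB {ρ : ℝ} (hρ : 1 < ρ) (b : ℝ) (hb : 0 < b) (U : Set (E 2)) (hU : MeasurableSet U)
    (hUb : U ⊆ Metric.ball 0 (1 / 2))
    (hu : (2 / 3 ≤ |(e 2) 0| ∧ 2 * |(e 2) 2| ≤ |(e 2) 0|) ∨
      (2 / 3 ≤ |(e 2) 1| ∧ 2 * |(e 2) 2| ≤ |(e 2) 1|)) (x : E 2) (hx : x ∈ U) :
    ∫⁻ x' in U, ‖x - x'‖ₑ ^ (1 - ρ) * ENNReal.ofReal (kb b (ph e x - ph e x')) ≤
      ENNReal.ofReal (12 * Real.pi) * cρ ρ := by
  have hUc : ∀ y ∈ U, |y 0| ≤ 1 / 2 ∧ |y 1| ≤ 1 / 2 := by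
    intro y hy
    have h1 : ‖y‖ < 1 / 2 := by simpa using hUb hy
    exact ⟨(abs_le_norm0 y).trans h1.le, (abs_le_norm1 y).trans h1.le⟩
  obtain ⟨hx0, hx1⟩ := hUc x hx
  have hkm : Measurable fun x' : E 2 => ENNReal.ofReal (kb b (ph e x - ph e x')) :=
    ((kb_cont b).measurable.comp (measurable_const.sub (ph_meas e))).ennreal_ofReal
  have hWm : Measurable fun x' : E 2 => ‖x - x'‖ₑ ^ (1 - ρ) :=
    (measurable_const.sub measurable_id).enorm.pow_const _
  have hFm : Measurable fun a : E 2 => U.indicator (fun x' => ‖x - x'‖ₑ ^ (1 - ρ) *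
      ENNReal.ofReal (kb b (ph e x - ph e x'))) a := (hWm.mul hkm).indicator hU
  rw [← lintegral_indicator hU, lint_E2 _ hFm]
  have hIcc : ∀ a : ℝ, |a| ≤ 1 / 2 → a ∈ Icc (-(1 / 2) : ℝ) (1 / 2) := fun a ha => abs_le.1 ha
  have hmon : ∀ s t : ℝ≥0∞, s ≤ t → t ^ (1 - ρ) ≤ s ^ (1 - ρ) := by
    intro s t hst
    have h1 : 1 - ρ = -(ρ - 1) := by ring
    rw [h1, ENNReal.rpow_neg, ENNReal.rpow_neg, ENNReal.inv_le_inv]
    exact ENNReal.rpow_le_rpow hst (by linarith)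
  rcases hu with ⟨hu1, hu2⟩ | ⟨hu1, hu2⟩
  · have hpt : ∀ a c : ℝ, (U.indicator (fun x' => ‖x - x'‖ₑ ^ (1 - ρ) *
        ENNReal.ofReal (kb b (ph e x - ph e x'))) !₂[a, c]) ≤
        (Icc (-(1 / 2) : ℝ) (1 / 2)).indicator (fun c => ‖x 1 - c‖ₑ ^ (1 - ρ)) c *
        (Icc (-(1 / 2) : ℝ) (1 / 2)).indicator (fun a => ENNReal.ofReal (kb b
          ((ph e x - c * (e 2) 1 - c ^ 2 * (e 2) 2) - ((e 2) 0 * a + (e 2) 2 * a ^ 2)))) a := by
      intro a c
      by_cases hac : (!₂[a, c] : E 2) ∈ U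
      · obtain ⟨ha, hc⟩ := hUc _ hac
        have ha' : a ∈ Icc (-(1 / 2) : ℝ) (1 / 2) := hIcc a (by simpa using ha)
        have hc' : c ∈ Icc (-(1 / 2) : ℝ) (1 / 2) := hIcc c (by simpa using hc)
        rw [indicator_of_mem hac, indicator_of_mem ha', indicator_of_mem hc']
        refine mul_le_mul' ?_ (le_of_eq ?_)
        · apply hmon
          rw [← ofReal_norm, ← ofReal_norm]
          apply ENNReal.ofReal_le_ofReal
          have := abs_le_norm1 (x - !₂[a, c])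
          simpa using this
        · congr 2
          rw [ph_eq e (!₂[a, c] : E 2)]
          simp
          ring
      · rw [indicator_of_notMem hac]; exact zero_le
    have hm2 : Measurable fun p : ℝ × ℝ =>
        (Icc (-(1 / 2) : ℝ) (1 / 2)).indicator (fun c => ‖x 1 - c‖ₑ ^ (1 - ρ)) p.2 *
        (Icc (-(1 / 2) : ℝ) (1 / 2)).indicator (fun a => ENNReal.ofReal (kb b
          ((ph e x - p.2 * (e 2) 1 - p.2 ^ 2 * (e 2) 2) - ((e 2) 0 * a + (e 2) 2 * a ^ 2)))) p.1 := by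
      have h1 : Measurable ((Icc (-(1 / 2) : ℝ) (1 / 2)).indicator (fun c => ‖x 1 - c‖ₑ ^ (1 - ρ))) :=
        ((measurable_const.sub measurable_id).enorm.pow_const _).indicator measurableSet_Icc
      have h2 : Measurable ((Prod.fst ⁻¹' (Icc (-(1 / 2) : ℝ) (1 / 2))).indicator
          fun p : ℝ × ℝ => ENNReal.ofReal (kb b
          ((ph e x - p.2 * (e 2) 1 - p.2 ^ 2 * (e 2) 2) - ((e 2) 0 * p.1 + (e 2) 2 * p.1 ^ 2)))) := by
        refine Measurable.indicator ?_ (measurable_fst measurableSet_Icc)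
        refine ((kb_cont b).measurable.comp ?_).ennreal_ofReal
        fun_prop
      exact (h1.comp measurable_snd).mul h2
    calc ∫⁻ a : ℝ, ∫⁻ c : ℝ, (U.indicator (fun x' => ‖x - x'‖ₑ ^ (1 - ρ) *
        ENNReal.ofReal (kb b (ph e x - ph e x'))) !₂[a, c])
        ≤ ∫⁻ a : ℝ, ∫⁻ c : ℝ,
        (Icc (-(1 / 2) : ℝ) (1 / 2)).indicator (fun c => ‖x 1 - c‖ₑ ^ (1 - ρ)) c *
        (Icc (-(1 / 2) : ℝ) (1 / 2)).indicator (fun a => ENNReal.ofReal (kb b
          ((ph e x - c * (e 2) 1 - c ^ 2 * (e 2) 2) - ((e 2) 0 * a + (e 2) 2 * a ^ 2)))) a :=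
          lintegral_mono fun a => lintegral_mono fun c => hpt a c
      _ = ∫⁻ c : ℝ, ∫⁻ a : ℝ,
        (Icc (-(1 / 2) : ℝ) (1 / 2)).indicator (fun c => ‖x 1 - c‖ₑ ^ (1 - ρ)) c *
        (Icc (-(1 / 2) : ℝ) (1 / 2)).indicator (fun a => ENNReal.ofReal (kb b
          ((ph e x - c * (e 2) 1 - c ^ 2 * (e 2) 2) - ((e 2) 0 * a + (e 2) 2 * a ^ 2)))) a :=
          lintegral_lintegral_swap hm2.aemeasurable
      _ ≤ ∫⁻ c : ℝ, (Icc (-(1 / 2) : ℝ) (1 / 2)).indicator (fun c => ‖x 1 - c‖ₑ ^ (1 - ρ)) c *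
          ENNReal.ofReal (12 * Real.pi) := by
          refine lintegral_mono fun c => ?_
          have hm3 : Measurable fun a : ℝ => (Icc (-(1 / 2) : ℝ) (1 / 2)).indicator
              (fun a => ENNReal.ofReal (kb b
              ((ph e x - c * (e 2) 1 - c ^ 2 * (e 2) 2) - ((e 2) 0 * a + (e 2) 2 * a ^ 2)))) a := by
            refine Measurable.indicator ?_ measurableSet_Icc
            refine ((kb_cont b).measurable.comp ?_).ennreal_ofReal
            fun_prop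
          simp only
          rw [lintegral_const_mul _ hm3, lintegral_indicator measurableSet_Icc]
          gcongr
          exact kb_quad b hb _ _ _ hu1 hu2
      _ ≤ cρ ρ * ENNReal.ofReal (12 * Real.pi) := by
          rw [lintegral_mul_const', lintegral_indicator measurableSet_Icc]
          · gcongr
            exact cρ_tr ρ (x 1) hx1
          · exact ENNReal.ofReal_ne_top
      _ = _ := mul_comm _ _
  · have hpt : ∀ a c : ℝ, (U.indicator (fun x' => ‖x - x'‖ₑ ^ (1 - ρ) *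
        ENNReal.ofReal (kb b (ph e x - ph e x'))) !₂[a, c]) ≤
        (Icc (-(1 / 2) : ℝ) (1 / 2)).indicator (fun a => ‖x 0 - a‖ₑ ^ (1 - ρ)) a *
        (Icc (-(1 / 2) : ℝ) (1 / 2)).indicator (fun c => ENNReal.ofReal (kb b
          ((ph e x - a * (e 2) 0 - a ^ 2 * (e 2) 2) - ((e 2) 1 * c + (e 2) 2 * c ^ 2)))) c := by
      intro a c
      by_cases hac : (!₂[a, c] : E 2) ∈ U
      · obtain ⟨ha, hc⟩ := hUc _ hac
        have ha' : a ∈ Icc (-(1 / 2) : ℝ) (1 / 2) := hIcc a (by simpa using ha)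
        have hc' : c ∈ Icc (-(1 / 2) : ℝ) (1 / 2) := hIcc c (by simpa using hc)
        rw [indicator_of_mem hac, indicator_of_mem ha', indicator_of_mem hc']
        refine mul_le_mul' ?_ (le_of_eq ?_)
        · apply hmon
          rw [← ofReal_norm, ← ofReal_norm]
          apply ENNReal.ofReal_le_ofReal
          have := abs_le_norm0 (x - !₂[a, c])
          simpa using this
        · congr 2
          rw [ph_eq e (!₂[a, c] : E 2)]
          simp
          ring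
      · rw [indicator_of_notMem hac]; exact zero_le
    calc ∫⁻ a : ℝ, ∫⁻ c : ℝ, (U.indicator (fun x' => ‖x - x'‖ₑ ^ (1 - ρ) *
        ENNReal.ofReal (kb b (ph e x - ph e x'))) !₂[a, c])
        ≤ ∫⁻ a : ℝ, ∫⁻ c : ℝ,
        (Icc (-(1 / 2) : ℝ) (1 / 2)).indicator (fun a => ‖x 0 - a‖ₑ ^ (1 - ρ)) a *
        (Icc (-(1 / 2) : ℝ) (1 / 2)).indicator (fun c => ENNReal.ofReal (kb b
          ((ph e x - a * (e 2) 0 - a ^ 2 * (e 2) 2) - ((e 2) 1 * c + (e 2) 2 * c ^ 2)))) c :=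
          lintegral_mono fun a => lintegral_mono fun c => hpt a c
      _ ≤ ∫⁻ a : ℝ, (Icc (-(1 / 2) : ℝ) (1 / 2)).indicator (fun a => ‖x 0 - a‖ₑ ^ (1 - ρ)) a *
          ENNReal.ofReal (12 * Real.pi) := by
          refine lintegral_mono fun a => ?_
          have hm3 : Measurable fun c : ℝ => (Icc (-(1 / 2) : ℝ) (1 / 2)).indicator
              (fun c => ENNReal.ofReal (kb b
              ((ph e x - a * (e 2) 0 - a ^ 2 * (e 2) 2) - ((e 2) 1 * c + (e 2) 2 * c ^ 2)))) c := by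
            refine Measurable.indicator ?_ measurableSet_Icc
            refine ((kb_cont b).measurable.comp ?_).ennreal_ofReal
            fun_prop
          simp only
          rw [lintegral_const_mul _ hm3, lintegral_indicator measurableSet_Icc]
          gcongr
          exact kb_quad b hb _ _ _ hu1 hu2
      _ ≤ cρ ρ * ENNReal.ofReal (12 * Real.pi) := by
          rw [lintegral_mul_const', lintegral_indicator measurableSet_Icc]
          · gcongr
            exact cρ_tr ρ (x 0) hx0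
          · exact ENNReal.ofReal_ne_top
      _ = _ := mul_comm _ _

/-- the fibre integral in the second regime -/
theorem iB {ρ : ℝ} (hρ : 1 < ρ) (U : Set (E 2)) (hUb : U ⊆ Metric.ball 0 (1 / 2)) (D : E 3)
    (hD : D 0 ^ 2 + D 1 ^ 2 ≠ 0) :
    ∫⁻ β in {β : ℝ | XX D β ∈ U}, (‖XX D β - (XX D β - dd D)‖ₑ ^ (1 - ρ)) ^ (-(1 / (ρ - 1))) ≤ 1 := by
  have hρ1 : 0 < ρ - 1 := by linarith
  have hn : ‖dd D‖ ^ 2 = D 0 ^ 2 + D 1 ^ 2 := by
    rw [norm_sq_E2]
    simp [dd]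
  have hn0 : 0 < ‖dd D‖ := by
    apply norm_pos_iff.2
    intro h
    rw [h, norm_zero] at hn
    apply hD
    rw [← hn]
    norm_num
  have e1 : ∀ β : ℝ, (‖XX D β - (XX D β - dd D)‖ₑ ^ (1 - ρ)) ^ (-(1 / (ρ - 1))) = ‖dd D‖ₑ := by
    intro β
    rw [sub_sub_cancel, ← ENNReal.rpow_mul]
    have : (1 - ρ) * -(1 / (ρ - 1)) = 1 := by
      field_simp
      ring
    rw [this, ENNReal.rpow_one]
  simp_rw [e1]
  rw [lintegral_const, Measure.restrict_apply_univ]
  have hsub : {β : ℝ | XX D β ∈ U} ⊆ Icc (-(1 / (2 * ‖dd D‖))) (1 / (2 * ‖dd D‖)) := by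
    intro β hβ
    have h1 : ‖XX D β‖ < 1 / 2 := by simpa using hUb hβ
    have h2 : |(XX D β) 1 * D 0 - (XX D β) 0 * D 1| ≤ ‖XX D β‖ * ‖dd D‖ := by
      apply abs_le_of_sq_le_sq _ (by positivity)
      rw [mul_pow, norm_sq_E2, hn]
      nlinarith [sq_nonneg ((XX D β) 0 * D 0 + (XX D β) 1 * D 1)]
    have h3 : (XX D β) 1 * D 0 - (XX D β) 0 * D 1 = β * ‖dd D‖ ^ 2 := by
      rw [hn]
      simp [XX]
      ring
    rw [h3, abs_mul, abs_of_pos (pow_pos hn0 2)] at h2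
    have h4 : |β| * ‖dd D‖ ≤ 1 / 2 := by
      have : |β| * ‖dd D‖ ^ 2 = (|β| * ‖dd D‖) * ‖dd D‖ := by ring
      rw [this] at h2
      exact (le_of_mul_le_mul_right h2 hn0).trans h1.le
    have h5 : |β| ≤ 1 / (2 * ‖dd D‖) := by
      rw [le_div_iff₀ (by positivity)]
      linarith
    exact abs_le.1 h5
  calc ‖dd D‖ₑ * volume {β : ℝ | XX D β ∈ U}
      ≤ ‖dd D‖ₑ * volume (Icc (-(1 / (2 * ‖dd D‖))) (1 / (2 * ‖dd D‖))) := by gcongr
    _ = 1 := by
      rw [Real.volume_Icc, ← ofReal_norm, ← ENNReal.ofReal_mul (norm_nonneg _)]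
      have : ‖dd D‖ * (1 / (2 * ‖dd D‖) - -(1 / (2 * ‖dd D‖))) = 1 := by
        field_simp
        ring
      rw [this, ENNReal.ofReal_one]

end Pool.Agent.K4H46.RX
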