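import Mathlib
import Pool.Agent.K4H46.RX.KER

set_option autoImplicit false

/-! Kernel estimates in the first regime of directions. -/

namespace Pool.Agent.K4H46.RX

open MeasureTheory Set
open scoped ENNReal NNReal RealInnerProductSpace

/-- the weight of the first regime -/
noncomputable def WA (c : E 2) (ρ : ℝ) (z : E 2 × E 2) : ℝ≥0∞ :=
  ((‖z.1 - c‖ₑ + ‖z.2 - c‖ₑ) / ‖z.1 - z.2‖ₑ) ^ (ρ / 2)

theorem WA_meas (c : E 2) (ρ : ℝ) : Measurable (WA c ρ) := by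
  unfold WA
  have h1 : Measurable fun z : E 2 × E 2 => ‖z.1 - c‖ₑ := (measurable_fst.sub_const c).enorm
  have h2 : Measurable fun z : E 2 × E 2 => ‖z.2 - c‖ₑ := (measurable_snd.sub_const c).enorm
  have h3 : Measurable fun z : E 2 × E 2 => ‖z.1 - z.2‖ₑ := (measurable_fst.sub measurable_snd).enorm
  exact ((h1.add h2).div h3).pow_const _

theorem WA_swap (c : E 2) (ρ : ℝ) (z : E 2 × E 2) : WA c ρ z.swap = WA c ρ z := by
  unfold WA
  simp only [Prod.fst_swap, Prod.snd_swap]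
  rw [add_comm, enorm_sub_rev z.2 z.1]

theorem WA_ne (c : E 2) {ρ : ℝ} (hρ : 0 < ρ) (z : E 2 × E 2) (hz : z.1 ≠ z.2) :
    WA c ρ z ≠ 0 ∧ WA c ρ z ≠ ∞ := by
  have h1 : ‖z.1 - z.2‖ₑ ≠ 0 := by
    rw [enorm_ne_zero]
    exact sub_ne_zero.2 hz
  have h2 : ‖z.1 - z.2‖ₑ ≠ ∞ := enorm_ne_top
  have h3 : ‖z.1 - c‖ₑ + ‖z.2 - c‖ₑ ≠ 0 := by
    intro h
    rw [add_eq_zero] at h
    apply hz
    have h4 : z.1 - c = 0 := by simpa using h.1
    have h5 : z.2 - c = 0 := by simpa using h.2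
    rw [sub_eq_zero.1 h4, sub_eq_zero.1 h5]
  have h4 : ‖z.1 - c‖ₑ + ‖z.2 - c‖ₑ ≠ ∞ := by
    rw [ENNReal.add_ne_top]
    exact ⟨enorm_ne_top, enorm_ne_top⟩
  constructor
  · intro h
    unfold WA at h
    rw [ENNReal.rpow_eq_zero_iff_of_pos (by positivity), ENNReal.div_eq_zero_iff] at h
    rcases h with h | h
    · exact h3 h
    · exact h2 h
  · unfold WA
    apply ENNReal.rpow_ne_top_of_nonneg (by positivity)
    exact ENNReal.div_ne_top h4 h1

/-- the constant of the fibre integral -/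
noncomputable def cA1 (ρ : ℝ) : ℝ≥0∞ :=
  ∫⁻ t : ℝ, ENNReal.ofReal ((1 / 2 * (1 + |t|)) ^ (-(ρ / (2 * (ρ - 1)))))

theorem cA1_lt {ρ : ℝ} (hρ1 : 1 < ρ) (hρ2 : ρ < 2) : cA1 ρ < ∞ := by
  have ha : 1 < ρ / (2 * (ρ - 1)) := by
    rw [lt_div_iff₀ (by linarith)]
    linarith
  have h := integrable_one_add_norm (E := ℝ) (μ := volume) (r := ρ / (2 * (ρ - 1)))
    (by simpa using ha)
  unfold cA1
  have h2 : Integrable fun t : ℝ => (1 / 2 * (1 + |t|)) ^ (-(ρ / (2 * (ρ - 1)))) := by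
    have h3 := h.const_mul ((1 / 2 : ℝ) ^ (-(ρ / (2 * (ρ - 1)))))
    refine h3.congr (Filter.Eventually.of_forall fun t => ?_)
    simp only
    rw [Real.mul_rpow (by norm_num) (by positivity), Real.norm_eq_abs]
  rw [← ofReal_integral_eq_lintegral_ofReal h2 (Filter.Eventually.of_forall fun t => by positivity)]
  exact ENNReal.ofReal_lt_top

/-- the fibre integral in the first regime -/
theorem iA {ρ : ℝ} (hρ1 : 1 < ρ) (c : E 2) (D : E 3) (hD : D 0 ^ 2 + D 1 ^ 2 ≠ 0) :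
    ∫⁻ β : ℝ, WA c ρ (XX D β, XX D β - dd D) ^ (-(1 / (ρ - 1))) ≤ cA1 ρ := by
  have hρ : 0 < ρ - 1 := by linarith
  have hn : ‖dd D‖ ^ 2 = D 0 ^ 2 + D 1 ^ 2 := by
    rw [norm_sq_E2]
    simp [dd]
  have hn0 : 0 < ‖dd D‖ := by
    apply norm_pos_iff.2
    intro h
    rw [h, norm_zero] at hn
    apply hD
    rw [← hn]
    norm_num
  set β0 : ℝ := (c 1 * D 0 - c 0 * D 1) / ‖dd D‖ ^ 2 with hβ0
  have hpt : ∀ β : ℝ, WA c ρ (XX D β, XX D β - dd D) ^ (-(1 / (ρ - 1))) ≤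
      ENNReal.ofReal ((1 / 2 * (1 + |β - β0|)) ^ (-(ρ / (2 * (ρ - 1))))) := by
    intro β
    unfold WA
    simp only
    rw [sub_sub_cancel, ← ENNReal.rpow_mul]
    have e1 : ρ / 2 * -(1 / (ρ - 1)) = -(ρ / (2 * (ρ - 1))) := by
      field_simp
    rw [e1]
    have hb0 : 0 < 1 / 2 * (1 + |β - β0|) := by positivity
    rw [← ENNReal.ofReal_rpow_of_pos hb0, ENNReal.rpow_neg, ENNReal.rpow_neg, ENNReal.inv_le_inv]
    refine ENNReal.rpow_le_rpow ?_ (by positivity)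
    have h1 : ‖XX D β - c‖ₑ + ‖XX D β - dd D - c‖ₑ =
        ENNReal.ofReal (‖XX D β - c‖ + ‖XX D β - dd D - c‖) := by
      rw [ENNReal.ofReal_add (norm_nonneg _) (norm_nonneg _), ofReal_norm, ofReal_norm]
    rw [h1, ← ofReal_norm (dd D), ← ENNReal.ofReal_div_of_pos hn0]
    apply ENNReal.ofReal_le_ofReal
    rw [le_div_iff₀ hn0]
    have h2 : ‖dd D‖ ≤ ‖XX D β - c‖ + ‖XX D β - dd D - c‖ := by
      have : dd D = (XX D β - c) - (XX D β - dd D - c) := by abel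
      nth_rewrite 1 [this]
      exact norm_sub_le _ _
    have h3 : 2 * |β - β0| * ‖dd D‖ ≤ ‖XX D β - c‖ + ‖XX D β - dd D - c‖ := by
      set V : E 2 := (XX D β - c) + (XX D β - dd D - c) with hV
      have h4 : |V 1 * D 0 - V 0 * D 1| ≤ ‖V‖ * ‖dd D‖ := by
        apply abs_le_of_sq_le_sq _ (by positivity)
        rw [mul_pow, norm_sq_E2, hn]
        nlinarith [sq_nonneg (V 0 * D 0 + V 1 * D 1)]
      have h5 : V 1 * D 0 - V 0 * D 1 = 2 * (β - β0) * ‖dd D‖ ^ 2 := by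
        have h6 : V 1 * D 0 - V 0 * D 1 = 2 * β * ‖dd D‖ ^ 2 - 2 * (c 1 * D 0 - c 0 * D 1) := by
          rw [hn, hV]
          simp [XX, dd]
          ring
        rw [h6, hβ0]
        field_simp
      rw [h5, abs_mul, abs_mul, abs_of_pos (pow_pos hn0 2), abs_of_pos (by norm_num : (0 : ℝ) < 2)] at h4
      have h7 : 2 * |β - β0| * ‖dd D‖ ^ 2 = (2 * |β - β0| * ‖dd D‖) * ‖dd D‖ := by ring
      rw [h7] at h4
      exact (le_of_mul_le_mul_right h4 hn0).trans (norm_add_le _ _)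
    nlinarith [mul_nonneg (abs_nonneg (β - β0)) hn0.le]
  calc ∫⁻ β : ℝ, WA c ρ (XX D β, XX D β - dd D) ^ (-(1 / (ρ - 1)))
      ≤ ∫⁻ β : ℝ, ENNReal.ofReal ((1 / 2 * (1 + |β - β0|)) ^ (-(ρ / (2 * (ρ - 1))))) :=
        lintegral_mono hpt
    _ = cA1 ρ := lintegral_sub_right_eq_self
        (fun t => ENNReal.ofReal ((1 / 2 * (1 + |t|)) ^ (-(ρ / (2 * (ρ - 1)))))) β0

/-- the angular constant -/
noncomputable def cA2 (b : ℝ) : ℝ≥0∞ :=
  ∫⁻ t in Icc (-(2 * Real.pi)) (2 * Real.pi), (2 / ‖Real.sin t‖ₑ) ^ b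

theorem cA2_lt {b : ℝ} (hb0 : 0 < b) (hb1 : b < 1) : cA2 b < ∞ := by
  have hpi := Real.pi_pos
  -- pointwise bound
  have hpt : ∀ t ∈ Icc (-(2 * Real.pi)) (2 * Real.pi), (2 / ‖Real.sin t‖ₑ) ^ b ≤
      ∑ k ∈ Finset.range 5, ENNReal.ofReal (Real.pi ^ b) *
        ‖t - ((k : ℝ) - 2) * Real.pi‖ₑ ^ (-b) := by
    intro t ht
    have hk : ∃ k ∈ Finset.range 5, |t - ((k : ℝ) - 2) * Real.pi| ≤ Real.pi / 2 := by
      rcases le_total t (-(3 * Real.pi / 2)) with h1 | h1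
      · exact ⟨0, by simp, by rw [abs_le]; constructor <;> push_cast <;> linarith [ht.1, ht.2]⟩
      rcases le_total t (-(Real.pi / 2)) with h2 | h2
      · exact ⟨1, by simp, by rw [abs_le]; constructor <;> push_cast <;> linarith [ht.1, ht.2]⟩
      rcases le_total t (Real.pi / 2) with h3 | h3
      · exact ⟨2, by simp, by rw [abs_le]; constructor <;> push_cast <;> linarith [ht.1, ht.2]⟩
      rcases le_total t (3 * Real.pi / 2) with h4 | h4
      · exact ⟨3, by simp, by rw [abs_le]; constructor <;> push_cast <;> linarith [ht.1, ht.2]⟩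
      · exact ⟨4, by simp, by rw [abs_le]; constructor <;> push_cast <;> linarith [ht.1, ht.2]⟩
    obtain ⟨k, hkm, hk⟩ := hk
    refine le_trans ?_ (Finset.single_le_sum (f := fun k : ℕ => ENNReal.ofReal (Real.pi ^ b) *
        ‖t - ((k : ℝ) - 2) * Real.pi‖ₑ ^ (-b)) (fun i _ => zero_le) hkm)
    have h1 := Real.mul_abs_le_abs_sin hk
    have h2 : |Real.sin (t - ((k : ℝ) - 2) * Real.pi)| = |Real.sin t| := by
      have : t - ((k : ℝ) - 2) * Real.pi = t - (((k : ℤ) - 2 : ℤ) : ℝ) * Real.pi := by push_cast; ring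
      rw [this, Real.sin_sub_int_mul_pi, abs_mul]
      have h3 : |((-1 : ℝ) ^ ((k : ℤ) - 2 : ℤ))| = 1 := by
        rw [abs_zpow]; simp
      rw [h3, one_mul]
    rw [h2] at h1
    set w : ℝ := t - ((k : ℝ) - 2) * Real.pi with hw
    rw [← ENNReal.ofReal_rpow_of_pos hpi, ENNReal.rpow_neg, ← ENNReal.inv_rpow,
      ← ENNReal.mul_rpow_of_nonneg _ _ hb0.le, ← div_eq_mul_inv]
    refine ENNReal.rpow_le_rpow ?_ hb0.le
    by_cases hw0 : w = 0
    · rw [hw0]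
      simp [ENNReal.div_zero (ENNReal.ofReal_pos.2 hpi).ne']
    have hw1 : 0 < |w| := abs_pos.2 hw0
    have hs1 : 0 < |Real.sin t| := lt_of_lt_of_le (by positivity) h1
    rw [← ofReal_norm, ← ofReal_norm, Real.norm_eq_abs, Real.norm_eq_abs,
      ← ENNReal.ofReal_div_of_pos hw1, show (2 : ℝ≥0∞) = ENNReal.ofReal 2 by norm_num,
      ← ENNReal.ofReal_div_of_pos hs1]
    apply ENNReal.ofReal_le_ofReal
    rw [div_le_div_iff₀ hs1 hw1]
    have h4 : 2 / Real.pi * |w| * Real.pi = 2 * |w| := by field_simp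
    nlinarith [mul_le_mul_of_nonneg_right h1 hpi.le]
  have hfin : ∀ k : ℕ, ∫⁻ t in Icc (-(2 * Real.pi)) (2 * Real.pi), ENNReal.ofReal (Real.pi ^ b) *
        ‖t - ((k : ℝ) - 2) * Real.pi‖ₑ ^ (-b) < ∞ := by
    intro k
    rw [lintegral_const_mul' _ _ ENNReal.ofReal_ne_top]
    refine ENNReal.mul_lt_top ENNReal.ofReal_lt_top ?_
    have h1 := fin_pow_tr (-b) (2 * Real.pi) (((k : ℝ) - 2) * Real.pi) (by linarith) (by positivity)
    refine lt_of_le_of_lt (le_of_eq ?_) h1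
    have hae : ∀ᵐ t : ℝ, ‖t - ((k : ℝ) - 2) * Real.pi‖ₑ ^ (-b) =
        ENNReal.ofReal (|t - ((k : ℝ) - 2) * Real.pi| ^ (-b)) := by
      have h2 : ∀ᵐ t : ℝ, t ≠ ((k : ℝ) - 2) * Real.pi := by
        rw [ae_iff]
        simp
      filter_upwards [h2] with t ht
      rw [← ENNReal.ofReal_rpow_of_pos (abs_pos.2 (sub_ne_zero.2 ht)), ← Real.norm_eq_abs, ofReal_norm]
    exact lintegral_congr_ae (ae_restrict_of_ae hae)
  unfold cA2
  refine lt_of_le_of_lt (setLIntegral_mono' measurableSet_Icc hpt) ?_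
  rw [lintegral_finsetSum']
  · exact ENNReal.sum_lt_top.2 fun k _ => hfin k
  · intro k _
    refine Measurable.aemeasurable ?_
    refine Measurable.const_mul ?_ _
    exact (measurable_id.sub_const _).enorm.pow_const _

/-- the geometric inequality behind the angular bound -/
theorem geo (A r θ φ : ℝ) :
    (A + r) * |Real.sin (θ - φ)| ≤ 2 * Real.sqrt ((A * Real.cos φ - r * Real.cos θ) ^ 2 +
      (A * Real.sin φ - r * Real.sin θ) ^ 2) := by
  have hcos := Real.cos_sub θ φ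
  have hsin := Real.sin_sub θ φ
  have e1 : (A * Real.cos φ - r * Real.cos θ) ^ 2 + (A * Real.sin φ - r * Real.sin θ) ^ 2 =
      A ^ 2 + r ^ 2 - 2 * A * r * Real.cos (θ - φ) := by
    rw [hcos]
    have h1 := Real.sin_sq_add_cos_sq θ
    have h2 := Real.sin_sq_add_cos_sq φ
    nlinarith
  have h3 := Real.sin_sq_add_cos_sq (θ - φ)
  have h4 : A * |Real.sin (θ - φ)| ≤ Real.sqrt ((A * Real.cos φ - r * Real.cos θ) ^ 2 +
      (A * Real.sin φ - r * Real.sin θ) ^ 2) := by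
    apply Real.le_sqrt_of_sq_le
    rw [e1, mul_pow, sq_abs]
    nlinarith [sq_nonneg (r - A * Real.cos (θ - φ))]
  have h5 : r * |Real.sin (θ - φ)| ≤ Real.sqrt ((A * Real.cos φ - r * Real.cos θ) ^ 2 +
      (A * Real.sin φ - r * Real.sin θ) ^ 2) := by
    apply Real.le_sqrt_of_sq_le
    rw [e1, mul_pow, sq_abs]
    nlinarith [sq_nonneg (A - r * Real.cos (θ - φ))]
  linarith

/-- the radial integral -/
theorem radial (b : ℝ) (hb : 0 < b) (A u : ℝ) (hu : 0 < u) :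
    ∫⁻ r in Ioi (0 : ℝ), ENNReal.ofReal r * ENNReal.ofReal (kb b (u * (r ^ 2 - A))) ≤
      ENNReal.ofReal (2 * Real.pi / u) := by
  have h := lintegral_image_eq_lintegral_abs_deriv_mul (s := Ioi (0 : ℝ)) (f := fun r => r ^ 2)
    (f' := fun r => 2 * r) measurableSet_Ioi
    (fun r _ => by
      have := (hasDerivAt_pow 2 r).hasDerivWithinAt (s := Ioi (0 : ℝ))
      simpa using this)
    (fun r hr s hs hrs => by
      have h1 : r ^ 2 = s ^ 2 := hrs
      exact (pow_left_inj₀ (le_of_lt hr) (le_of_lt hs) (by norm_num)).1 h1)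
    (fun v => ENNReal.ofReal (kb b (u * (v - A))))
  calc ∫⁻ r in Ioi (0 : ℝ), ENNReal.ofReal r * ENNReal.ofReal (kb b (u * (r ^ 2 - A)))
      ≤ ∫⁻ r in Ioi (0 : ℝ), ENNReal.ofReal |2 * r| * ENNReal.ofReal (kb b (u * (r ^ 2 - A))) := by
        refine setLIntegral_mono' measurableSet_Ioi fun r hr => ?_
        gcongr
        have hr' : (0 : ℝ) < r := hr
        rw [abs_of_pos (by linarith)]
        linarith
    _ = ∫⁻ v in (fun r : ℝ => r ^ 2) '' Ioi (0 : ℝ), ENNReal.ofReal (kb b (u * (v - A))) := h.symm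
    _ ≤ ∫⁻ v : ℝ, ENNReal.ofReal (kb b (u * (v - A))) := setLIntegral_le_lintegral _ _
    _ ≤ _ := kb_lint b u A hb hu

theorem kb_even (b t : ℝ) : kb b (-t) = kb b t := by
  unfold kb
  rw [neg_sq]

theorem angular (b φ : ℝ) (hφ : |φ| ≤ Real.pi) :
    ∫⁻ θ in Ioo (-Real.pi) Real.pi, (2 / ‖Real.sin (θ - φ)‖ₑ) ^ b ≤ cA2 b := by
  unfold cA2
  rw [← lintegral_indicator measurableSet_Ioo, ← lintegral_indicator measurableSet_Icc,
    ← lintegral_sub_right_eq_self (fun t => (Icc (-(2 * Real.pi)) (2 * Real.pi)).indicator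
      (fun t => (2 / ‖Real.sin t‖ₑ) ^ b) t) φ]
  refine lintegral_mono fun θ => ?_
  have hφ' := abs_le.1 hφ
  by_cases hw : θ ∈ Ioo (-Real.pi) Real.pi
  · have hw' : θ - φ ∈ Icc (-(2 * Real.pi)) (2 * Real.pi) :=
      ⟨by linarith [hw.1], by linarith [hw.2]⟩
    rw [indicator_of_mem hw, indicator_of_mem hw']
  · rw [indicator_of_notMem hw]; exact zero_le

/-- the planar integral behind Schur's test in the first regime, centred at the origin -/
theorem plane {ρ : ℝ} (hρ : 0 < ρ) (b : ℝ) (hb : 0 < b) (u : ℝ) (hu : 0 < u) (z : E 2) :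
    ∫⁻ z' : E 2, ((‖z‖ₑ + ‖z'‖ₑ) / ‖z - z'‖ₑ) ^ (ρ / 2) *
      ENNReal.ofReal (kb b (u * (‖z'‖ ^ 2 - ‖z‖ ^ 2))) ≤
      ENNReal.ofReal (2 * Real.pi / u) * cA2 (ρ / 2) := by
  set G : E 2 → ℝ≥0∞ := fun z' => ((‖z‖ₑ + ‖z'‖ₑ) / ‖z - z'‖ₑ) ^ (ρ / 2) *
      ENNReal.ofReal (kb b (u * (‖z'‖ ^ 2 - ‖z‖ ^ 2))) with hG
  have hGm : Measurable G := by
    refine Measurable.mul ?_ ?_
    · exact ((measurable_const.add measurable_enorm).div
        (measurable_const.sub measurable_id).enorm).pow_const _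
    · refine ((kb_cont b).measurable.comp ?_).ennreal_ofReal
      exact ((measurable_norm.pow_const 2).sub_const _).const_mul u
  have hmk : Measurable fun p : ℝ × ℝ => (!₂[p.1, p.2] : E 2) := by
    refine (PiLp.volume_preserving_toLp (Fin 2)).measurable.comp ?_
    refine measurable_pi_lambda _ fun i => ?_
    fin_cases i
    · exact measurable_fst
    · exact measurable_snd
  have h1 : ∫⁻ z' : E 2, G z' = ∫⁻ p : ℝ × ℝ, G !₂[p.1, p.2] := by
    rw [lint_E2 G hGm, Measure.volume_eq_prod, lintegral_prod (fun p : ℝ × ℝ => G !₂[p.1, p.2])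
      (hGm.comp hmk).aemeasurable]
  set φ : ℝ := Complex.arg ⟨z 0, z 1⟩ with hφ
  have hzn : ‖(⟨z 0, z 1⟩ : ℂ)‖ = ‖z‖ := by
    rw [← sq_eq_sq₀ (norm_nonneg _) (norm_nonneg _), norm_sq_E2, Complex.sq_norm, Complex.normSq_mk]
    ring
  have hc : ‖z‖ * Real.cos φ = z 0 := by
    have := Complex.norm_mul_cos_arg (⟨z 0, z 1⟩ : ℂ)
    rw [hzn] at this
    exact this
  have hs : ‖z‖ * Real.sin φ = z 1 := by
    have := Complex.norm_mul_sin_arg (⟨z 0, z 1⟩ : ℂ)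
    rw [hzn] at this
    exact this
  have hφ1 : |φ| ≤ Real.pi := Complex.abs_arg_le_pi _
  have hnr : ∀ r θ : ℝ, 0 < r → ‖(!₂[r * Real.cos θ, r * Real.sin θ] : E 2)‖ = r := by
    intro r θ hr
    rw [← sq_eq_sq₀ (norm_nonneg _) hr.le, norm_sq_E2]
    simp only [PiLp.toLp_apply, Matrix.cons_val_zero, Matrix.cons_val_one]
    have := Real.sin_sq_add_cos_sq θ
    nlinarith
  have hpt : ∀ r θ : ℝ, 0 < r → G !₂[r * Real.cos θ, r * Real.sin θ] ≤
      (2 / ‖Real.sin (θ - φ)‖ₑ) ^ (ρ / 2) * ENNReal.ofReal (kb b (u * (r ^ 2 - ‖z‖ ^ 2))) := by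
    intro r θ hr
    simp only [hG]
    rw [hnr r θ hr]
    refine mul_le_mul' (ENNReal.rpow_le_rpow ?_ (by positivity)) le_rfl
    set w : E 2 := !₂[r * Real.cos θ, r * Real.sin θ] with hw
    have h2 : (‖z‖ + ‖w‖) * |Real.sin (θ - φ)| ≤ 2 * ‖z - w‖ := by
      have h3 := geo ‖z‖ r θ φ
      have h4 : ‖z - w‖ = Real.sqrt ((‖z‖ * Real.cos φ - r * Real.cos θ) ^ 2 +
          (‖z‖ * Real.sin φ - r * Real.sin θ) ^ 2) := by
        rw [hc, hs, ← Real.sqrt_sq (norm_nonneg (z - w)), norm_sq_E2]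
        simp [hw]
      rw [h4, hw, hnr r θ hr]
      exact h3
    by_cases hs0 : Real.sin (θ - φ) = 0
    · rw [hs0]
      simp [ENNReal.div_zero]
    · have hs1 : 0 < |Real.sin (θ - φ)| := abs_pos.2 hs0
      have hs2 : ‖Real.sin (θ - φ)‖ₑ ≠ 0 := by simpa using hs0
      apply ENNReal.div_le_of_le_mul
      rw [← ENNReal.mul_div_right_comm, ENNReal.le_div_iff_mul_le (Or.inl hs2) (Or.inl enorm_ne_top)]
      rw [← ofReal_norm z, ← ofReal_norm w, ← ENNReal.ofReal_add (norm_nonneg _) (norm_nonneg _),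
        ← ofReal_norm (Real.sin (θ - φ)), Real.norm_eq_abs, ← ENNReal.ofReal_mul (by positivity),
        ← ofReal_norm (z - w)]
      have h5 := ENNReal.ofReal_le_ofReal h2
      rw [ENNReal.ofReal_mul (by norm_num : (0 : ℝ) ≤ 2)] at h5
      simpa using h5
  rw [h1, ← lintegral_comp_polarCoord_symm (fun p : ℝ × ℝ => G !₂[p.1, p.2]), polarCoord_target]
  have hkm : Measurable fun r : ℝ => ENNReal.ofReal r * ENNReal.ofReal (kb b (u * (r ^ 2 - ‖z‖ ^ 2))) := by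
    refine measurable_id.ennreal_ofReal.mul ((kb_cont b).measurable.comp ?_).ennreal_ofReal
    fun_prop
  have ham : Measurable fun θ : ℝ => (2 / ‖Real.sin (θ - φ)‖ₑ) ^ (ρ / 2) :=
    (measurable_const.div ((Real.measurable_sin.comp (measurable_id.sub_const φ)).enorm)).pow_const _
  calc ∫⁻ p in Ioi (0 : ℝ) ×ˢ Ioo (-Real.pi) Real.pi, ENNReal.ofReal p.1 •
        G !₂[(polarCoord.symm p).1, (polarCoord.symm p).2]
      ≤ ∫⁻ p in Ioi (0 : ℝ) ×ˢ Ioo (-Real.pi) Real.pi,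
        (ENNReal.ofReal p.1 * ENNReal.ofReal (kb b (u * (p.1 ^ 2 - ‖z‖ ^ 2)))) *
        (2 / ‖Real.sin (p.2 - φ)‖ₑ) ^ (ρ / 2) := by
        refine setLIntegral_mono' (measurableSet_Ioi.prod measurableSet_Ioo) fun p hp => ?_
        rw [polarCoord_symm_apply, smul_eq_mul]
        calc ENNReal.ofReal p.1 * G !₂[p.1 * Real.cos p.2, p.1 * Real.sin p.2]
            ≤ ENNReal.ofReal p.1 * ((2 / ‖Real.sin (p.2 - φ)‖ₑ) ^ (ρ / 2) *
              ENNReal.ofReal (kb b (u * (p.1 ^ 2 - ‖z‖ ^ 2)))) := by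
              gcongr
              exact hpt p.1 p.2 hp.1
          _ = _ := by ring
    _ = (∫⁻ r in Ioi (0 : ℝ), ENNReal.ofReal r * ENNReal.ofReal (kb b (u * (r ^ 2 - ‖z‖ ^ 2)))) *
        ∫⁻ θ in Ioo (-Real.pi) Real.pi, (2 / ‖Real.sin (θ - φ)‖ₑ) ^ (ρ / 2) := by
        rw [Measure.volume_eq_prod, ← Measure.prod_restrict]
        exact lintegral_prod_mul hkm.aemeasurable ham.aemeasurable
    _ ≤ _ := by
        gcongr
        · exact radial b hb (‖z‖ ^ 2) u hu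
        · exact angular (ρ / 2) φ hφ1

variable (e : OrthonormalBasis (Fin 3) ℝ (E 3))

/-- Schur's test in the first regime -/
theorem iiA {ρ : ℝ} (hρ : 0 < ρ) (b : ℝ) (hb : 0 < b) (U : Set (E 2)) (c : E 2)
    (hu : 1 / 3 ≤ |(e 2) 2|) (hc0 : (e 2) 0 = -(2 * c 0 * (e 2) 2))
    (hc1 : (e 2) 1 = -(2 * c 1 * (e 2) 2)) (x : E 2) :
    ∫⁻ x' in U, WA c ρ (x, x') * ENNReal.ofReal (kb b (ph e x - ph e x')) ≤
      ENNReal.ofReal (6 * Real.pi) * cA2 (ρ / 2) := by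
  set u : ℝ := |(e 2) 2| with hudef
  have hu0 : 0 < u := by linarith
  have e1 : ∀ x' : E 2, kb b (ph e x - ph e (x' + c)) = kb b (u * (‖x'‖ ^ 2 - ‖x - c‖ ^ 2)) := by
    intro x'
    have h1 : ph e x - ph e (x' + c) = -((e 2) 2 * (‖x'‖ ^ 2 - ‖x - c‖ ^ 2)) := by
      rw [ph_eq, ph_eq, norm_sq_E2, norm_sq_E2, hc0, hc1]
      simp
      ring
    rw [h1, kb_even]
    rcases abs_choice ((e 2) 2) with h2 | h2
    · rw [hudef, h2]
    · rw [hudef, h2, neg_mul, kb_even]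
  calc ∫⁻ x' in U, WA c ρ (x, x') * ENNReal.ofReal (kb b (ph e x - ph e x'))
      ≤ ∫⁻ x', WA c ρ (x, x') * ENNReal.ofReal (kb b (ph e x - ph e x')) :=
        setLIntegral_le_lintegral _ _
    _ = ∫⁻ x', WA c ρ (x, x' + c) * ENNReal.ofReal (kb b (ph e x - ph e (x' + c))) :=
        (lintegral_add_right_eq_self (fun x' => WA c ρ (x, x') *
          ENNReal.ofReal (kb b (ph e x - ph e x'))) c).symm
    _ = ∫⁻ z' : E 2, ((‖x - c‖ₑ + ‖z'‖ₑ) / ‖(x - c) - z'‖ₑ) ^ (ρ / 2) *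
      ENNReal.ofReal (kb b (u * (‖z'‖ ^ 2 - ‖x - c‖ ^ 2))) := by
        refine lintegral_congr fun x' => ?_
        rw [e1]
        unfold WA
        simp only
        rw [add_sub_cancel_right, show x - (x' + c) = (x - c) - x' by abel]
    _ ≤ ENNReal.ofReal (2 * Real.pi / u) * cA2 (ρ / 2) := plane hρ b hb u hu0 (x - c)
    _ ≤ _ := by
        gcongr
        rw [div_le_iff₀ hu0]
        have := Real.pi_pos
        nlinarith

end Pool.Agent.K4H46.RX
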