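import Mathlib
import Pool.Agent.K4H46.RX.KA

set_option autoImplicit false

/-! The mixed norm estimate for the extension operator, uniformly over all frames. -/

namespace Pool.Agent.K4H46.RX

open MeasureTheory Set Complex
open scoped ENNReal NNReal RealInnerProductSpace
open Pool.Agent.TH941.FN (ft ft_sq ft_cont)

theorem dens {ρ : ℝ} (hρ1 : 1 < ρ) (hρ2 : ρ < 2) : ∃ C : ℝ≥0∞, C ≠ ∞ ∧
    ∀ (e : OrthonormalBasis (Fin 3) ℝ (E 3)) (U : Set (E 2)), MeasurableSet U →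
      U ⊆ Metric.ball 0 (1 / 2) → ∀ f : E 2 → ℂ, Measurable f → (∀ x, x ∉ U → f x = 0) →
      ∀ b : ℝ, 0 < b → ∫⁻ y, ‖Hf e f b y‖ₑ ^ ρ ≤ C * ∫⁻ x, ‖f x‖ₑ ^ (2 * ρ) := by
  have hρ : 0 < ρ := by linarith
  set K1 : ℝ≥0∞ := (1 * ENNReal.ofReal (2 * Real.pi)) ^ (ρ - 1) *
    (2 * (2 * (ENNReal.ofReal (12 * Real.pi) * cρ ρ))) with hK1
  set K2 : ℝ≥0∞ := (cA1 ρ * ENNReal.ofReal (2 * Real.pi)) ^ (ρ - 1) *
    (2 * (2 * (ENNReal.ofReal (6 * Real.pi) * cA2 (ρ / 2)))) with hK2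
  have hK1t : K1 ≠ ∞ := by
    rw [hK1]
    refine ENNReal.mul_ne_top (ENNReal.rpow_ne_top_of_nonneg (by linarith)
      (ENNReal.mul_ne_top ENNReal.one_ne_top ENNReal.ofReal_ne_top)) ?_
    exact ENNReal.mul_ne_top (by norm_num) (ENNReal.mul_ne_top (by norm_num)
      (ENNReal.mul_ne_top ENNReal.ofReal_ne_top (cρ_lt ρ hρ2).ne))
  have hK2t : K2 ≠ ∞ := by
    rw [hK2]
    refine ENNReal.mul_ne_top (ENNReal.rpow_ne_top_of_nonneg (by linarith)
      (ENNReal.mul_ne_top (cA1_lt hρ1 hρ2).ne ENNReal.ofReal_ne_top)) ?_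
    exact ENNReal.mul_ne_top (by norm_num) (ENNReal.mul_ne_top (by norm_num)
      (ENNReal.mul_ne_top ENNReal.ofReal_ne_top (cA2_lt (by linarith) (by linarith)).ne))
  refine ⟨K1 + K2, ENNReal.add_ne_top.2 ⟨hK1t, hK2t⟩, ?_⟩
  intro e U hU hUb f hfm hfU b hb
  have hnorm : (e 2) 0 ^ 2 + (e 2) 1 ^ 2 + (e 2) 2 ^ 2 = 1 := by
    have h1 : ‖e 2‖ ^ 2 = 1 := by rw [e.norm_eq_one]; norm_num
    rw [EuclideanSpace.norm_sq_eq, Fin.sum_univ_three] at h1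
    simpa using h1
  have hB : ((2 / 3 ≤ |(e 2) 0| ∧ 2 * |(e 2) 2| ≤ |(e 2) 0|) ∨
      (2 / 3 ≤ |(e 2) 1| ∧ 2 * |(e 2) 2| ≤ |(e 2) 1|)) →
      ∫⁻ y, ‖Hf e f b y‖ₑ ^ ρ ≤ K1 * ∫⁻ x, ‖f x‖ₑ ^ (2 * ρ) := by
    intro hu
    have h := schur e hρ1 hfm U hU hfU b hb (fun z => ‖z.1 - z.2‖ₑ ^ (1 - ρ))
      ((measurable_fst.sub measurable_snd).enorm.pow_const _)
      (fun z => by
        simp only [Prod.fst_swap, Prod.snd_swap]
        rw [enorm_sub_rev])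
      (fun z hz => by
        have h1 : ‖z.1 - z.2‖ₑ ≠ 0 := by
          rw [enorm_ne_zero]
          exact sub_ne_zero.2 hz
        have h2 : ‖z.1 - z.2‖ₑ ≠ ∞ := enorm_ne_top
        exact ⟨(ENNReal.rpow_pos (pos_iff_ne_zero.2 h1) h2).ne', ENNReal.rpow_ne_top_of_ne_zero h1 h2⟩)
      1 (ENNReal.ofReal (12 * Real.pi) * cρ ρ)
      (fun D hD => iB hρ1 U hUb D hD)
      (fun x hx => iiB e hρ1 b hb U hU hUb hu x hx)
    refine h.trans (le_of_eq ?_)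
    rw [hK1]
    ring
  have hA : 1 / 3 ≤ |(e 2) 2| → ∫⁻ y, ‖Hf e f b y‖ₑ ^ ρ ≤ K2 * ∫⁻ x, ‖f x‖ₑ ^ (2 * ρ) := by
    intro hu
    have hu0 : (e 2) 2 ≠ 0 := by
      intro h
      rw [h, abs_zero] at hu
      norm_num at hu
    set c : E 2 := !₂[-(e 2) 0 / (2 * (e 2) 2), -(e 2) 1 / (2 * (e 2) 2)] with hc
    have h := schur e hρ1 hfm U hU hfU b hb (WA c ρ) (WA_meas c ρ) (WA_swap c ρ)
      (fun z hz => WA_ne c hρ z hz) (cA1 ρ) (ENNReal.ofReal (6 * Real.pi) * cA2 (ρ / 2))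
      (fun D hD => (setLIntegral_le_lintegral _ _).trans (iA hρ1 c D hD))
      (fun x _ => iiA e hρ b hb U c hu (by simp [hc]; field_simp) (by simp [hc]; field_simp) x)
    refine h.trans (le_of_eq ?_)
    rw [hK2]
    ring
  have hfin : ∫⁻ y, ‖Hf e f b y‖ₑ ^ ρ ≤ K1 * (∫⁻ x, ‖f x‖ₑ ^ (2 * ρ)) ∨
      ∫⁻ y, ‖Hf e f b y‖ₑ ^ ρ ≤ K2 * (∫⁻ x, ‖f x‖ₑ ^ (2 * ρ)) := by
    have s0 := sq_abs ((e 2) 0)
    have s1 := sq_abs ((e 2) 1)
    have s2 := sq_abs ((e 2) 2)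
    have a0 := abs_nonneg ((e 2) 0)
    have a1 := abs_nonneg ((e 2) 1)
    have a2 := abs_nonneg ((e 2) 2)
    by_cases h1 : 2 * |(e 2) 2| ≤ |(e 2) 0| ∧ |(e 2) 1| ≤ |(e 2) 0|
    · left
      apply hB
      left
      refine ⟨?_, h1.1⟩
      nlinarith [h1.1, h1.2]
    by_cases h2 : 2 * |(e 2) 2| ≤ |(e 2) 1| ∧ |(e 2) 0| ≤ |(e 2) 1|
    · left
      apply hB
      right
      refine ⟨?_, h2.1⟩
      nlinarith [h2.1, h2.2]
    · right
      apply hA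
      have h3 : |(e 2) 0| < 2 * |(e 2) 2| ∧ |(e 2) 1| < 2 * |(e 2) 2| := by
        rcases le_total |(e 2) 0| |(e 2) 1| with h | h
        · have h4 : |(e 2) 1| < 2 * |(e 2) 2| := by
            by_contra hn
            exact h2 ⟨not_lt.1 hn, h⟩
          exact ⟨lt_of_le_of_lt h h4, h4⟩
        · have h4 : |(e 2) 0| < 2 * |(e 2) 2| := by
            by_contra hn
            exact h1 ⟨not_lt.1 hn, h⟩
          exact ⟨h4, lt_of_le_of_lt h h4⟩
      nlinarith [h3.1, h3.2]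
  rcases hfin with h | h
  · refine h.trans ?_
    gcongr
    exact le_self_add
  · refine h.trans ?_
    gcongr
    exact le_add_self

theorem EE_meas {f : E 2 → ℂ} (hfm : Measurable f) : Measurable (EE f) := by
  have : StronglyMeasurable (Function.uncurry fun (ξ : E 3) (x : E 2) =>
      cexp (-((⟪Phi x, ξ⟫ : ℝ) : ℂ) * I) * f x) := by
    have h1 : Measurable fun p : E 3 × E 2 => cexp (-((⟪Phi p.2, p.1⟫ : ℝ) : ℂ) * I) :=
      Complex.measurable_exp.comp ((Complex.measurable_ofReal.comp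
        ((Phi_meas.comp measurable_snd).inner measurable_fst)).neg.mul_const I)
    exact (h1.mul (hfm.comp measurable_snd)).stronglyMeasurable
  exact this.integral_prod_right.measurable

/-- **The mixed norm estimate.** -/
theorem mixed {q : ℝ} (hq : 2 < q) : ∃ C : ℝ≥0,
    ∀ (e : OrthonormalBasis (Fin 3) ℝ (E 3)) (U : Set (E 2)), MeasurableSet U →
      U ⊆ Metric.ball 0 (1 / 2) → ∀ f : E 2 → ℂ, Measurable f → Integrable f →
      (∀ x, x ∉ U → f x = 0) →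
      ∫⁻ y : E 2, (∫⁻ s : ℝ, ‖EE f (pt e y s)‖ₑ ^ 2) ^ q ≤
        C * (∫⁻ x, ‖f x‖ₑ ^ (2 * (q / (q - 1)))) ^ (q - 1) := by
  have hq1 : 0 < q - 1 := by linarith
  have hρ1 : 1 < q / (q - 1) := by rw [lt_div_iff₀ hq1]; linarith
  have hρ2 : q / (q - 1) < 2 := by rw [div_lt_iff₀ hq1]; linarith
  obtain ⟨K, hKt, hK⟩ := dens hρ1 hρ2
  obtain ⟨C, hC⟩ := hausdorff_young (V := E 2) hq
  have hCK : (C : ℝ≥0∞) * K ^ (q - 1) ≠ ∞ :=
    ENNReal.mul_ne_top ENNReal.coe_ne_top (ENNReal.rpow_ne_top_of_nonneg hq1.le hKt)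
  refine ⟨((C : ℝ≥0∞) * K ^ (q - 1)).toNNReal, ?_⟩
  rw [ENNReal.coe_toNNReal hCK]
  intro e U hU hUb f hfm hf hfU
  set B : ℕ → ℝ := fun n => 1 / ((n : ℝ) + 1) with hB
  have hB0 : ∀ n, 0 < B n := fun n => by simp only [hB]; positivity
  have hF2 : Measurable fun p : E 2 × ℝ => ‖EE f (pt e p.1 p.2)‖ₑ ^ 2 :=
    ((EE_meas hfm).comp (pt_meas e)).enorm.pow_const 2
  set J : ℕ → E 2 → ℝ≥0∞ := fun n y =>
    ∫⁻ s : ℝ, ‖EE f (pt e y s)‖ₑ ^ 2 * ENNReal.ofReal (Real.exp (-(B n) * s ^ 2)) with hJ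
  have hem : ∀ n, Measurable fun s : ℝ => ENNReal.ofReal (Real.exp (-(B n) * s ^ 2)) := by
    intro n; fun_prop
  have hJm : ∀ n, Measurable (J n) := by
    intro n
    have : Measurable fun p : E 2 × ℝ => ‖EE f (pt e p.1 p.2)‖ₑ ^ 2 *
        ENNReal.ofReal (Real.exp (-(B n) * p.2 ^ 2)) := hF2.mul ((hem n).comp measurable_snd)
    exact this.lintegral_prod_right'
  have hmono : ∀ s : ℝ, Monotone fun n => ENNReal.ofReal (Real.exp (-(B n) * s ^ 2)) := by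
    intro s m n hmn
    apply ENNReal.ofReal_le_ofReal
    rw [Real.exp_le_exp]
    have h1 : B n ≤ B m := by
      simp only [hB]
      apply one_div_le_one_div_of_le (by positivity)
      have : (m : ℝ) ≤ n := by exact_mod_cast hmn
      linarith
    nlinarith [sq_nonneg s]
  have hsup : ∀ s : ℝ, ⨆ n, ENNReal.ofReal (Real.exp (-(B n) * s ^ 2)) = 1 := by
    intro s
    have h1 : Filter.Tendsto (fun n => ENNReal.ofReal (Real.exp (-(B n) * s ^ 2))) Filter.atTop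
        (nhds 1) := by
      rw [← ENNReal.ofReal_one]
      apply ENNReal.tendsto_ofReal
      have h2 : Filter.Tendsto (fun n : ℕ => -(B n) * s ^ 2) Filter.atTop (nhds 0) := by
        have h3 : Filter.Tendsto B Filter.atTop (nhds 0) := tendsto_one_div_add_atTop_nhds_zero_nat
        simpa using (h3.neg).mul_const (s ^ 2)
      have h4 := (Real.continuous_exp.tendsto 0).comp h2
      rwa [Real.exp_zero] at h4
    exact tendsto_nhds_unique (tendsto_atTop_iSup (hmono s)) h1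
  have hJsup : ∀ y, ∫⁻ s : ℝ, ‖EE f (pt e y s)‖ₑ ^ 2 = ⨆ n, J n y := by
    intro y
    have h1 : ∀ s : ℝ, ‖EE f (pt e y s)‖ₑ ^ 2 =
        ⨆ n, ‖EE f (pt e y s)‖ₑ ^ 2 * ENNReal.ofReal (Real.exp (-(B n) * s ^ 2)) := by
      intro s
      rw [← ENNReal.mul_iSup, hsup, mul_one]
    rw [lintegral_congr h1, lintegral_iSup]
    · intro n
      exact (hF2.comp (measurable_const.prodMk measurable_id)).mul (hem n)
    · intro m n hmn s
      exact mul_le_mul_right (hmono s hmn) _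
  have hJmono : Monotone J := by
    intro m n hmn y
    exact lintegral_mono fun s => mul_le_mul_right (hmono s hmn) _
  have hle : ∀ n, ∫⁻ y, J n y ^ q ≤ (C : ℝ≥0∞) * K ^ (q - 1) *
      (∫⁻ x, ‖f x‖ₑ ^ (2 * (q / (q - 1)))) ^ (q - 1) := by
    intro n
    have h1 : ∀ y, J n y = ‖ft (Hf e f (B n)) y‖ₑ := fun y => rep e hfm hf (B n) (hB0 n) y
    simp_rw [h1]
    calc ∫⁻ y, ‖ft (Hf e f (B n)) y‖ₑ ^ q
        ≤ C * (∫⁻ w, ‖Hf e f (B n) w‖ₑ ^ (q / (q - 1))) ^ (q - 1) :=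
          hC _ (Hf_meas e hfm _) (Hf_int e hf _ (hB0 n))
      _ ≤ C * (K * ∫⁻ x, ‖f x‖ₑ ^ (2 * (q / (q - 1)))) ^ (q - 1) := by
          gcongr
          exact hK e U hU hUb f hfm hfU (B n) (hB0 n)
      _ = _ := by
          rw [ENNReal.mul_rpow_of_nonneg _ _ hq1.le, mul_assoc]
  simp_rw [hJsup]
  have h5 : ∀ y, (⨆ n, J n y) ^ q = ⨆ n, J n y ^ q := by
    intro y
    exact Monotone.map_iSup_of_continuousAt (ENNReal.continuous_rpow_const.continuousAt)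
      (ENNReal.monotone_rpow_of_nonneg (by linarith)) (by simp [ENNReal.zero_rpow_of_pos (show 0 < q by linarith)])
  simp_rw [h5]
  rw [lintegral_iSup (fun n => (hJm n).pow_const q)
    (fun m n hmn y => ENNReal.rpow_le_rpow (hJmono hmn y) (by linarith))]
  exact iSup_le hle

end Pool.Agent.K4H46.RX
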