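import Mathlib
import Pool.Agent.K4H46.RX.MAIN

set_option autoImplicit false

/-! Necessary conditions for the mixed norm estimate. -/

namespace Pool.Agent.K4H46.RX

open MeasureTheory Set Complex
open scoped ENNReal NNReal RealInnerProductSpace ComplexConjugate

/-- the Gaussian kernel in three variables -/
noncomputable def k3 (δ : ℝ) (v : E 3) : ℝ :=
  (Real.pi / δ) ^ ((3 : ℝ) / 2) * Real.exp (-‖v‖ ^ 2 / (4 * δ))

theorem gauss3 (δ : ℝ) (hδ : 0 < δ) (v : E 3) :
    ∫ w : E 3, ((Real.exp (-δ * ‖w‖ ^ 2) : ℝ) : ℂ) * cexp (-((⟪v, w⟫ : ℝ) : ℂ) * I) =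
      (k3 δ v : ℂ) := by
  have h := GaussianFourier.integral_cexp_neg_mul_sq_norm_add (V := E 3) (b := (δ : ℂ))
    (by simpa using hδ) (-I) v
  have e1 : ∀ w : E 3, ((Real.exp (-δ * ‖w‖ ^ 2) : ℝ) : ℂ) * cexp (-((⟪v, w⟫ : ℝ) : ℂ) * I) =
      cexp (-(δ : ℂ) * ‖w‖ ^ 2 + -I * ⟪v, w⟫) := by
    intro w
    rw [Complex.ofReal_exp, ← Complex.exp_add]
    congr 1
    push_cast
    ring
  simp_rw [e1]
  rw [h]
  unfold k3
  rw [finrank_euclideanSpace, Fintype.card_fin]
  push_cast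
  rw [Complex.ofReal_cpow (by positivity)]
  push_cast
  congr 2
  have : (-I) ^ 2 = -1 := by rw [neg_sq, I_sq]
  rw [this]
  ring

theorem gexp3 (δ : ℝ) (hδ : 0 < δ) : Integrable (fun w : E 3 => Real.exp (-δ * ‖w‖ ^ 2)) := by
  by_contra hni
  have h1 := GaussianFourier.integral_rexp_neg_mul_sq_norm (V := E 3) hδ
  rw [integral_undef hni] at h1
  have : 0 < (Real.pi / δ) ^ ((Module.finrank ℝ (E 3) : ℝ) / 2) := by positivity
  linarith

/-- the lower bound for the mass in Gaussian balls -/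
theorem reg3 {g : E 2 → ℝ} (hg : Integrable g) (δ : ℝ) (hδ : 0 < δ) :
    ENNReal.ofReal (∫ z : E 2 × E 2, (g z.1 * g z.2) * k3 δ (Phi z.1 - Phi z.2)
        ∂(volume.prod volume)) ≤
      ∫⁻ w : E 3, ‖EE (fun x => (g x : ℂ)) w‖ₑ ^ 2 * ENNReal.ofReal (Real.exp (-δ * ‖w‖ ^ 2)) := by
  set gc : E 2 → ℂ := fun x => (g x : ℂ) with hgc
  have hgi : Integrable gc := hg.ofReal
  set F : E 3 → ℂ := fun w => ∫ x, cexp (-((⟪Phi x, w⟫ : ℝ) : ℂ) * I) * gc x with hF
  set h : E 3 → (E 2 × E 2) → ℂ := fun w z =>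
    ((Real.exp (-δ * ‖w‖ ^ 2) : ℝ) : ℂ) * (cexp (-((⟪Phi z.1 - Phi z.2, w⟫ : ℝ) : ℂ) * I) *
      (gc z.1 * conj (gc z.2))) with hh
  have hgm := hgi.aestronglyMeasurable
  have hgg : Integrable (fun z : E 2 × E 2 => gc z.1 * conj (gc z.2)) (volume.prod volume) :=
    hgi.mul_prod ((Complex.conjLIE.toContinuousLinearEquiv.integrable_comp_iff).2 hgi)
  have hprod : Integrable (fun p : E 3 × (E 2 × E 2) =>
      ((Real.exp (-δ * ‖p.1‖ ^ 2) : ℝ) : ℂ) * (gc p.2.1 * conj (gc p.2.2)))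
      (volume.prod (volume.prod volume)) :=
    (gexp3 δ hδ).ofReal.mul_prod hgg
  have hem : Measurable fun p : E 3 × (E 2 × E 2) =>
      cexp (-((⟪Phi p.2.1 - Phi p.2.2, p.1⟫ : ℝ) : ℂ) * I) := by
    have h1 : Measurable fun p : E 3 × (E 2 × E 2) => (⟪Phi p.2.1 - Phi p.2.2, p.1⟫ : ℝ) :=
      ((Phi_meas.comp (measurable_fst.comp measurable_snd)).sub
        (Phi_meas.comp (measurable_snd.comp measurable_snd))).inner measurable_fst
    exact Complex.measurable_exp.comp ((Complex.measurable_ofReal.comp h1).neg.mul_const I)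
  have hint : Integrable (fun p : E 3 × (E 2 × E 2) => h p.1 p.2)
      (volume.prod (volume.prod volume)) := by
    have h1 := hprod.bdd_mul (c := 1) hem.aestronglyMeasurable
      (Filter.Eventually.of_forall fun p => (norm_ker _).le)
    refine h1.congr (Filter.Eventually.of_forall fun p => ?_)
    simp only [hh]
    ring
  have hsq : ∀ w, (F w * conj (F w)) = ∫ z : E 2 × E 2,
      cexp (-((⟪Phi z.1 - Phi z.2, w⟫ : ℝ) : ℂ) * I) * (gc z.1 * conj (gc z.2))
        ∂(volume.prod volume) := by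
    intro w
    have e1 : conj (F w) = ∫ y, conj (cexp (-((⟪Phi y, w⟫ : ℝ) : ℂ) * I) * gc y) := by
      simp only [hF]
      rw [← integral_conj]
    rw [e1]
    simp only [hF]
    rw [← integral_prod_mul]
    refine integral_congr_ae (Filter.Eventually.of_forall fun z => ?_)
    simp only
    rw [map_mul, ← Complex.exp_conj]
    have e2 : cexp (-((⟪Phi z.1 - Phi z.2, w⟫ : ℝ) : ℂ) * I) =
        cexp (-((⟪Phi z.1, w⟫ : ℝ) : ℂ) * I) * cexp (conj (-((⟪Phi z.2, w⟫ : ℝ) : ℂ) * I)) := by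
      rw [← Complex.exp_add]
      congr 1
      simp only [map_mul, map_neg, conj_ofReal, conj_I, inner_sub_left]
      push_cast
      ring
    rw [e2]
    ring
  have hkey : ∫ w, ((Real.exp (-δ * ‖w‖ ^ 2) : ℝ) : ℂ) * (F w * conj (F w)) =
      ((∫ z : E 2 × E 2, (g z.1 * g z.2) * k3 δ (Phi z.1 - Phi z.2)
        ∂(volume.prod volume) : ℝ) : ℂ) := by
    have e1 : ∀ w, ((Real.exp (-δ * ‖w‖ ^ 2) : ℝ) : ℂ) * (F w * conj (F w)) =
        ∫ z : E 2 × E 2, h w z ∂(volume.prod volume) := by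
      intro w
      rw [hsq, ← integral_const_mul]
    simp_rw [e1]
    rw [integral_integral_swap hint, ← integral_complex_ofReal]
    refine integral_congr_ae (Filter.Eventually.of_forall fun z => ?_)
    simp only [hh]
    rw [Complex.ofReal_mul, ← gauss3 δ hδ, ← integral_const_mul]
    refine integral_congr_ae (Filter.Eventually.of_forall fun w => ?_)
    simp only [hgc, conj_ofReal]
    push_cast
    ring
  have hFm : AEStronglyMeasurable F volume := by
    have h1 : Measurable fun p : E 3 × E 2 => cexp (-((⟪Phi p.2, p.1⟫ : ℝ) : ℂ) * I) :=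
      Complex.measurable_exp.comp ((Complex.measurable_ofReal.comp
        ((Phi_meas.comp measurable_snd).inner measurable_fst)).neg.mul_const I)
    have : AEStronglyMeasurable (fun p : E 3 × E 2 => cexp (-((⟪Phi p.2, p.1⟫ : ℝ) : ℂ) * I) * gc p.2)
        (volume.prod volume) := h1.aestronglyMeasurable.mul hgm.comp_snd
    exact this.integral_prod_right'
  have hFb : ∀ s, ‖F s‖ ≤ ∫ x, ‖gc x‖ := by
    intro s
    refine (norm_integral_le_integral_norm _).trans (le_of_eq ?_)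
    refine integral_congr_ae (Filter.Eventually.of_forall fun x => ?_)
    simp only
    rw [norm_mul, norm_ker, one_mul]
  have hint2 : Integrable (fun w : E 3 => Real.exp (-δ * ‖w‖ ^ 2) * ‖F w‖ ^ 2) := by
    have := (gexp3 δ hδ).bdd_mul (c := (∫ x, ‖gc x‖) ^ 2) (hFm.norm.pow 2)
      (Filter.Eventually.of_forall fun t => by
        have h0 : 0 ≤ (‖F t‖) ^ 2 := by positivity
        show ‖(‖F t‖) ^ 2‖ ≤ _
        rw [Real.norm_of_nonneg h0]
        exact pow_le_pow_left₀ (norm_nonneg _) (hFb t) 2)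
    refine this.congr (Filter.Eventually.of_forall fun t => ?_)
    simp only [Pi.pow_apply]
    ring
  have hre : ∫ w, ((Real.exp (-δ * ‖w‖ ^ 2) : ℝ) : ℂ) * (F w * conj (F w)) =
      ((∫ w, Real.exp (-δ * ‖w‖ ^ 2) * ‖F w‖ ^ 2 : ℝ) : ℂ) := by
    rw [← integral_complex_ofReal]
    refine integral_congr_ae (Filter.Eventually.of_forall fun s => ?_)
    simp only
    rw [Complex.mul_conj, Complex.normSq_eq_norm_sq]
    push_cast
    ring
  have hlhs : ∫⁻ w : E 3, ‖F w‖ₑ ^ 2 * ENNReal.ofReal (Real.exp (-δ * ‖w‖ ^ 2)) =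
      ENNReal.ofReal (∫ w, Real.exp (-δ * ‖w‖ ^ 2) * ‖F w‖ ^ 2) := by
    rw [ofReal_integral_eq_lintegral_ofReal hint2 (Filter.Eventually.of_forall fun t => by positivity)]
    refine lintegral_congr fun t => ?_
    rw [ENNReal.ofReal_mul (by positivity), mul_comm, ENNReal.ofReal_pow (norm_nonneg _), ofReal_norm]
  rw [hre] at hkey
  have hk2 := Complex.ofReal_injective hkey
  have e3 : ∫⁻ w : E 3, ‖EE gc w‖ₑ ^ 2 * ENNReal.ofReal (Real.exp (-δ * ‖w‖ ^ 2)) =
      ∫⁻ w : E 3, ‖F w‖ₑ ^ 2 * ENNReal.ofReal (Real.exp (-δ * ‖w‖ ^ 2)) := rfl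
  rw [e3, hlhs, hk2]

end Pool.Agent.K4H46.RX
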