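import Mathlib
import Pool.Agent.K4H46.RX.NEC

set_option autoImplicit false

/-! Necessity of `p > 4` for every direction. -/

namespace Pool.Agent.K4H46.RX

open MeasureTheory Set Complex
open scoped ENNReal NNReal RealInnerProductSpace ComplexConjugate

theorem norm_pt (e : OrthonormalBasis (Fin 3) ℝ (E 3)) (y : E 2) (s : ℝ) :
    ‖pt e y s‖ ^ 2 = ‖y‖ ^ 2 + s ^ 2 := by
  rw [pt_repr, LinearIsometryEquiv.norm_map, EuclideanSpace.norm_sq_eq, Fin.sum_univ_three,
    EuclideanSpace.norm_sq_eq, Fin.sum_univ_two]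
  have h0 : (WithLp.toLp 2 ((2 : Fin 3).insertNth s (WithLp.ofLp y)) : E 3) 0 = y 0 := rfl
  have h1 : (WithLp.toLp 2 ((2 : Fin 3).insertNth s (WithLp.ofLp y)) : E 3) 1 = y 1 := rfl
  have h2 : (WithLp.toLp 2 ((2 : Fin 3).insertNth s (WithLp.ofLp y)) : E 3) 2 = s := rfl
  rw [h0, h1, h2]
  simp

theorem Phi_diff2 (x x' : E 2) (hx : ‖x‖ ≤ 1 / 2) (hx' : ‖x'‖ ≤ 1 / 2) :
    ‖Phi x - Phi x'‖ ^ 2 ≤ 2 * ‖x - x'‖ ^ 2 := by
  have h1 : ‖Phi x - Phi x'‖ ^ 2 = ‖x - x'‖ ^ 2 + (‖x‖ ^ 2 - ‖x'‖ ^ 2) ^ 2 := by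
    rw [EuclideanSpace.norm_sq_eq, Fin.sum_univ_three, EuclideanSpace.norm_sq_eq (x - x'),
      Fin.sum_univ_two, EuclideanSpace.norm_sq_eq x, EuclideanSpace.norm_sq_eq x',
      Fin.sum_univ_two, Fin.sum_univ_two]
    simp [Phi]
    
  have h2 : (‖x‖ ^ 2 - ‖x'‖ ^ 2) ^ 2 ≤ ‖x - x'‖ ^ 2 := by
    have h3 : |‖x‖ ^ 2 - ‖x'‖ ^ 2| ≤ ‖x - x'‖ := by
      have h4 : ‖x‖ ^ 2 - ‖x'‖ ^ 2 = (‖x‖ - ‖x'‖) * (‖x‖ + ‖x'‖) := by ring
      rw [h4, abs_mul]
      have h5 := abs_norm_sub_norm_le x x'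
      have h6 : |‖x‖ + ‖x'‖| ≤ 1 := by
        rw [abs_of_nonneg (by positivity)]
        linarith
      calc |‖x‖ - ‖x'‖| * |‖x‖ + ‖x'‖| ≤ ‖x - x'‖ * 1 := by gcongr
        _ = _ := mul_one _
    calc (‖x‖ ^ 2 - ‖x'‖ ^ 2) ^ 2 = |‖x‖ ^ 2 - ‖x'‖ ^ 2| ^ 2 := (sq_abs _).symm
      _ ≤ _ := by gcongr
  linarith

theorem tail0 {G : E 2 → ℝ≥0∞} (hG2 : ∫⁻ y, G y ^ 2 ≠ ∞) :
    Filter.Tendsto (fun n : ℕ => ∫⁻ y in (Metric.ball (0 : E 2) n)ᶜ, G y ^ 2) Filter.atTop
      (nhds 0) := by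
  have h1 : ∀ n : ℕ, ∫⁻ y in (Metric.ball (0 : E 2) n)ᶜ, G y ^ 2 =
      (volume.withDensity fun y => G y ^ 2) ((Metric.ball (0 : E 2) n)ᶜ) := fun n =>
    (withDensity_apply _ Metric.isOpen_ball.measurableSet.compl).symm
  simp_rw [h1]
  have h2 := tendsto_measure_iInter_atTop (μ := volume.withDensity fun y => G y ^ 2)
    (s := fun n : ℕ => (Metric.ball (0 : E 2) n)ᶜ)
    (fun n => Metric.isOpen_ball.measurableSet.compl.nullMeasurableSet)
    (fun m n hmn => by
      apply compl_subset_compl.2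
      exact Metric.ball_subset_ball (by exact_mod_cast hmn))
    ⟨0, by
      refine ne_top_of_le_ne_top hG2 ?_
      rw [← setLIntegral_univ, ← withDensity_apply _ MeasurableSet.univ]
      exact measure_mono (subset_univ _)⟩
  have h3 : ⋂ n : ℕ, (Metric.ball (0 : E 2) n)ᶜ = ∅ := by
    rw [eq_empty_iff_forall_notMem]
    intro y hy
    obtain ⟨n, hn⟩ := exists_nat_gt ‖y‖
    have := mem_iInter.1 hy n
    exact this (by simpa using hn)
  rw [h3, measure_empty] at h2
  exact h2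

theorem notL2 {G : E 2 → ℝ≥0∞} (hG : Measurable G) (hG2 : ∫⁻ y, G y ^ 2 ≠ ∞) {c t0 : ℝ}
    (hc : 0 < c) (ht0 : 0 < t0)
    (h : ∀ t : ℝ, 0 < t → t ≤ t0 → ENNReal.ofReal (c / t) ≤
      ∫⁻ y, G y * ENNReal.ofReal (Real.exp (-t ^ 2 * ‖y‖ ^ 2))) : False := by
  set w : ℝ → E 2 → ℝ≥0∞ := fun t y => ENNReal.ofReal (t * Real.exp (-t ^ 2 * ‖y‖ ^ 2)) with hw
  have hwm : ∀ t, Measurable (w t) := by intro t; simp only [hw]; fun_prop
  have hw2 : ∀ t : ℝ, 0 < t → ∫⁻ y, w t y ^ 2 = ENNReal.ofReal (Real.pi / 2) := by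
    intro t ht
    have hb : (0 : ℝ) < 2 * t ^ 2 := by positivity
    have h1 := GaussianFourier.integral_rexp_neg_mul_sq_norm (V := E 2) hb
    have hint : Integrable fun y : E 2 => Real.exp (-(2 * t ^ 2) * ‖y‖ ^ 2) := by
      by_contra hni
      rw [integral_undef hni] at h1
      have : 0 < (Real.pi / (2 * t ^ 2)) ^ ((Module.finrank ℝ (E 2) : ℝ) / 2) := by positivity
      linarith
    have h2 : ∀ y : E 2, w t y ^ 2 =
        ENNReal.ofReal (t ^ 2 * Real.exp (-(2 * t ^ 2) * ‖y‖ ^ 2)) := by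
      intro y
      simp only [hw]
      rw [← ENNReal.ofReal_pow (by positivity)]
      congr 1
      rw [mul_pow, ← Real.exp_nat_mul]
      congr 2
      push_cast
      ring
    simp_rw [h2]
    rw [← ofReal_integral_eq_lintegral_ofReal (hint.const_mul _)
      (Filter.Eventually.of_forall fun y => by positivity), integral_const_mul, h1,
      finrank_euclideanSpace, Fintype.card_fin]
    congr 1
    norm_num
    field_simp
  -- the basic inequality
  have hbasic : ∀ t : ℝ, 0 < t → t ≤ t0 → ENNReal.ofReal c ≤ ∫⁻ y, G y * w t y := by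
    intro t ht htt
    have h1 := h t ht htt
    have h2 : ENNReal.ofReal c = ENNReal.ofReal t * ENNReal.ofReal (c / t) := by
      rw [← ENNReal.ofReal_mul ht.le]
      congr 1
      field_simp
    have h3 : ∫⁻ y, G y * w t y =
        ENNReal.ofReal t * ∫⁻ y, G y * ENNReal.ofReal (Real.exp (-t ^ 2 * ‖y‖ ^ 2)) := by
      rw [← lintegral_const_mul _ (by fun_prop)]
      refine lintegral_congr fun y => ?_
      simp only [hw]
      rw [ENNReal.ofReal_mul ht.le]
      ring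
    rw [h2, h3]
    gcongr
  have hyoung : ∀ l : ℝ, 0 < l → ∀ a b : ℝ≥0∞, a * b ≤
      ENNReal.ofReal (1 / l) * a ^ 2 + ENNReal.ofReal l * b ^ 2 := by
    intro l hl a b
    have hl0 : ENNReal.ofReal l ≠ 0 := by simpa using hl
    rcases eq_or_ne a ∞ with rfl | ha
    · have : ENNReal.ofReal (1 / l) * (∞ : ℝ≥0∞) ^ 2 = ∞ := by
        rw [ENNReal.top_pow (by norm_num), ENNReal.mul_top (by simpa using hl)]
      rw [this, top_add]
      exact le_top
    rcases eq_or_ne b ∞ with rfl | hb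
    · have : ENNReal.ofReal l * (∞ : ℝ≥0∞) ^ 2 = ∞ := by
        rw [ENNReal.top_pow (by norm_num), ENNReal.mul_top hl0]
      rw [this, add_top]
      exact le_top
    rw [← ENNReal.ofReal_toReal ha, ← ENNReal.ofReal_toReal hb,
      ← ENNReal.ofReal_pow ENNReal.toReal_nonneg, ← ENNReal.ofReal_pow ENNReal.toReal_nonneg,
      ← ENNReal.ofReal_mul ENNReal.toReal_nonneg, ← ENNReal.ofReal_mul (by positivity),
      ← ENNReal.ofReal_mul hl.le, ← ENNReal.ofReal_add (by positivity) (by positivity)]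
    apply ENNReal.ofReal_le_ofReal
    set α := a.toReal
    set β := b.toReal
    have h1 : 0 ≤ (α - l * β) ^ 2 / l := by positivity
    have h2 : (α - l * β) ^ 2 / l = 1 / l * α ^ 2 + l * β ^ 2 - 2 * (α * β) := by
      field_simp
      ring
    have h3 : 0 ≤ 1 / l * α ^ 2 + l * β ^ 2 := by positivity
    linarith
  -- choose l
  set l : ℝ := c / (2 * Real.pi) with hl
  have hl0 : 0 < l := by positivity
  have hεpos : (0 : ℝ≥0∞) < ENNReal.ofReal (l * (c / 4)) := by
    rw [ENNReal.ofReal_pos]; positivity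
  obtain ⟨N, hN⟩ := ((tail0 hG2).eventually (gt_mem_nhds hεpos)).exists
  set A : Set (E 2) := Metric.ball (0 : E 2) N with hA
  have hAm : MeasurableSet A := Metric.isOpen_ball.measurableSet
  set M : ℝ≥0∞ := ∫⁻ y in A, G y with hM
  have hMt : M ≠ ∞ := by
    have h1 : M ≤ ∫⁻ y in A, (G y ^ 2 + 1) := by
      refine lintegral_mono fun y => ?_
      rcases le_total (G y) 1 with h1 | h1
      · exact h1.trans le_add_self
      · calc G y = G y * 1 := (mul_one _).symm
          _ ≤ G y * G y := by gcongr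
          _ = G y ^ 2 := (sq _).symm
          _ ≤ _ := le_self_add
    refine ne_top_of_le_ne_top ?_ h1
    rw [lintegral_add_right _ measurable_const]
    refine ENNReal.add_ne_top.2 ⟨ne_top_of_le_ne_top hG2 (setLIntegral_le_lintegral _ _), ?_⟩
    rw [lintegral_const, one_mul, Measure.restrict_apply_univ]
    exact (measure_ball_lt_top).ne
  have hfinal : ∀ t : ℝ, 0 < t → t ≤ t0 → ENNReal.ofReal c ≤
      ENNReal.ofReal t * M + ENNReal.ofReal (c / 4) + ENNReal.ofReal (c / 4) := by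
    intro t ht htt
    refine (hbasic t ht htt).trans ?_
    rw [← lintegral_add_compl (fun y => G y * w t y) hAm, add_assoc]
    refine add_le_add ?_ ?_
    · rw [hM, ← lintegral_const_mul _ hG]
      refine lintegral_mono fun y => ?_
      rw [mul_comm]
      refine mul_le_mul_left ?_ _
      simp only [hw]
      apply ENNReal.ofReal_le_ofReal
      refine mul_le_of_le_one_right ht.le ?_
      rw [Real.exp_le_one_iff]
      nlinarith [sq_nonneg (t * ‖y‖)]
    · calc ∫⁻ y in Aᶜ, G y * w t y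
          ≤ ∫⁻ y in Aᶜ, (ENNReal.ofReal (1 / l) * G y ^ 2 + ENNReal.ofReal l * w t y ^ 2) :=
            lintegral_mono fun y => hyoung l hl0 _ _
        _ = ENNReal.ofReal (1 / l) * (∫⁻ y in Aᶜ, G y ^ 2) +
            ENNReal.ofReal l * (∫⁻ y in Aᶜ, w t y ^ 2) := by
            rw [lintegral_add_right _ (((hwm t).pow_const 2).const_mul _),
              lintegral_const_mul _ (hG.pow_const 2), lintegral_const_mul _ ((hwm t).pow_const 2)]
        _ ≤ ENNReal.ofReal (1 / l) * ENNReal.ofReal (l * (c / 4)) +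
            ENNReal.ofReal l * ENNReal.ofReal (Real.pi / 2) := by
            gcongr
            rw [← hw2 t ht]
            exact setLIntegral_le_lintegral _ _
        _ = ENNReal.ofReal (c / 4) + ENNReal.ofReal (c / 4) := by
            rw [← ENNReal.ofReal_mul (by positivity), ← ENNReal.ofReal_mul hl0.le]
            congr 2
            · field_simp
            · rw [hl]
              field_simp
              ring
  -- choose t
  set t : ℝ := min t0 (c / (4 * (M.toReal + 1))) with ht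
  have hMr : 0 ≤ M.toReal := ENNReal.toReal_nonneg
  have htpos : 0 < t := lt_min ht0 (by positivity)
  have h1 := hfinal t htpos (min_le_left _ _)
  have h2 : ENNReal.ofReal t * M ≤ ENNReal.ofReal (c / 4) := by
    rw [← ENNReal.ofReal_toReal hMt, ← ENNReal.ofReal_mul htpos.le]
    apply ENNReal.ofReal_le_ofReal
    calc t * M.toReal ≤ (c / (4 * (M.toReal + 1))) * M.toReal := by
          gcongr
          exact min_le_right _ _
      _ ≤ c / 4 := by
          rw [div_mul_eq_mul_div, div_le_div_iff₀ (by positivity) (by norm_num)]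
          nlinarith
  have h3 : ENNReal.ofReal c ≤ ENNReal.ofReal (c / 4 + c / 4 + c / 4) := by
    rw [ENNReal.ofReal_add (by positivity) (by positivity), ENNReal.ofReal_add (by positivity)
      (by positivity)]
    refine h1.trans ?_
    gcongr
  rw [ENNReal.ofReal_le_ofReal_iff (by positivity)] at h3
  linarith

/-- the indicator function of a disc -/
noncomputable def db (x0 : E 2) (r0 : ℝ) : E 2 → ℂ :=
  fun x => (((Metric.ball x0 r0).indicator (fun _ => (1 : ℝ)) x : ℝ) : ℂ)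

theorem low {x0 : E 2} {r0 : ℝ} (hr0 : 0 < r0) (hb : Metric.ball x0 r0 ⊆ Metric.ball 0 (1 / 2)) :
    ∃ c : ℝ, 0 < c ∧ ∀ t : ℝ, 0 < t → t ≤ r0 / 2 → ENNReal.ofReal (c / t) ≤
      ∫⁻ w : E 3, ‖EE (db x0 r0) w‖ₑ ^ 2 *
        ENNReal.ofReal (Real.exp (-t ^ 2 * ‖w‖ ^ 2)) := by
  set g : E 2 → ℝ := (Metric.ball x0 r0).indicator (fun _ => (1 : ℝ)) with hg
  have hBm : MeasurableSet (Metric.ball x0 r0) := Metric.isOpen_ball.measurableSet
  have hgi : Integrable g := by
    rw [hg, integrable_indicator_iff hBm]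
    exact integrableOn_const (measure_ball_lt_top).ne
  have hgm : Measurable g := measurable_const.indicator hBm
  set m : ℝ := Real.pi ^ ((3 : ℝ) / 2) * Real.exp (-(1 / 2)) *
    ((r0 / 2) ^ 2 * Real.pi * Real.pi) with hm
  refine ⟨m, by positivity, ?_⟩
  intro t ht htr
  have ht2 : (0 : ℝ) < t ^ 2 := by positivity
  refine le_trans ?_ (reg3 hgi (t ^ 2) ht2)
  have hk0 : ∀ v : E 3, 0 ≤ k3 (t ^ 2) v := fun v => by unfold k3; positivity
  have hkm : Measurable (k3 (t ^ 2)) := by unfold k3; fun_prop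
  have hkb : ∀ v : E 3, k3 (t ^ 2) v ≤ (Real.pi / t ^ 2) ^ ((3 : ℝ) / 2) := by
    intro v
    unfold k3
    refine mul_le_of_le_one_right (by positivity) ?_
    rw [Real.exp_le_one_iff]
    exact div_nonpos_of_nonpos_of_nonneg (by nlinarith [sq_nonneg ‖v‖]) (by positivity)
  have hg0 : ∀ x, 0 ≤ g x := fun x => indicator_nonneg (fun _ _ => zero_le_one) x
  have hint : Integrable (fun z : E 2 × E 2 => (g z.1 * g z.2) * k3 (t ^ 2) (Phi z.1 - Phi z.2))
      (volume.prod volume) := by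
    have h1 : Integrable (fun z : E 2 × E 2 => g z.1 * g z.2) (volume.prod volume) :=
      hgi.mul_prod hgi
    have h2 : Measurable fun z : E 2 × E 2 => k3 (t ^ 2) (Phi z.1 - Phi z.2) :=
      hkm.comp ((Phi_meas.comp measurable_fst).sub (Phi_meas.comp measurable_snd))
    refine (h1.bdd_mul (c := (Real.pi / (t ^ 2)) ^ ((3 : ℝ) / 2)) h2.aestronglyMeasurable
      (Filter.Eventually.of_forall fun z => ?_)).congr
      (Filter.Eventually.of_forall fun z => ?_)
    · rw [Real.norm_of_nonneg (hk0 _)]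
      exact hkb _
    · simp only
      ring
  rw [ofReal_integral_eq_lintegral_ofReal hint
    (Filter.Eventually.of_forall fun z => mul_nonneg (mul_nonneg (hg0 _) (hg0 _)) (hk0 _))]
  set T : Set (E 2 × E 2) := {z | z.1 ∈ Metric.ball x0 (r0 / 2) ∧ dist z.2 z.1 < t} with hT
  have hTm : MeasurableSet T := by
    refine (Metric.isOpen_ball.measurableSet.preimage measurable_fst).inter ?_
    exact measurableSet_lt (measurable_snd.dist measurable_fst) measurable_const
  have hTv : (volume.prod volume) T = ENNReal.ofReal (r0 / 2) ^ 2 * ENNReal.ofReal Real.pi *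
      (ENNReal.ofReal t ^ 2 * ENNReal.ofReal Real.pi) := by
    rw [Measure.prod_apply hTm]
    have h1 : ∀ x : E 2, volume (Prod.mk x ⁻¹' T) = (Metric.ball x0 (r0 / 2)).indicator
        (fun _ => ENNReal.ofReal t ^ 2 * ENNReal.ofReal Real.pi) x := by
      intro x
      by_cases hx : x ∈ Metric.ball x0 (r0 / 2)
      · rw [indicator_of_mem hx]
        have : Prod.mk x ⁻¹' T = Metric.ball x t := by
          ext z
          simp only [hT, mem_preimage, mem_ofPred_eq, Metric.mem_ball]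
          exact ⟨fun h => h.2, fun h => ⟨hx, h⟩⟩
        rw [this, EuclideanSpace.volume_ball_fin_two, ENNReal.ofReal_eq_coe_nnreal Real.pi_pos.le]
      · rw [indicator_of_notMem hx]
        have : Prod.mk x ⁻¹' T = ∅ := by
          ext z
          simp only [hT, mem_preimage, mem_ofPred_eq, mem_empty_iff_false, iff_false]
          exact fun h => hx h.1
        rw [this, measure_empty]
    simp_rw [h1]
    rw [lintegral_indicator Metric.isOpen_ball.measurableSet, lintegral_const,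
      Measure.restrict_apply_univ, EuclideanSpace.volume_ball_fin_two,
      ENNReal.ofReal_eq_coe_nnreal Real.pi_pos.le, mul_comm]
  calc ENNReal.ofReal (m / t)
      = ENNReal.ofReal ((Real.pi / t ^ 2) ^ ((3 : ℝ) / 2) * Real.exp (-(1 / 2))) *
          (volume.prod volume) T := by
        rw [hTv, ← ENNReal.ofReal_pow (by positivity), ← ENNReal.ofReal_pow ht.le,
          ← ENNReal.ofReal_mul (by positivity), ← ENNReal.ofReal_mul (by positivity),
          ← ENNReal.ofReal_mul (by positivity), ← ENNReal.ofReal_mul (by positivity)]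
        congr 1
        rw [Real.div_rpow Real.pi_pos.le (by positivity), ← Real.rpow_natCast t 2,
          ← Real.rpow_mul ht.le]
        have h3 : t ^ (((2 : ℕ) : ℝ) * (3 / 2)) = t ^ 3 := by
          rw [← Real.rpow_natCast t 3]
          norm_num
        rw [h3, hm, Real.rpow_natCast t 2]
        field_simp
    _ = ∫⁻ _ in T, ENNReal.ofReal ((Real.pi / t ^ 2) ^ ((3 : ℝ) / 2) * Real.exp (-(1 / 2)))
          ∂(volume.prod volume) := by
        rw [lintegral_const, Measure.restrict_apply_univ]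
    _ ≤ ∫⁻ z in T, ENNReal.ofReal ((g z.1 * g z.2) * k3 (t ^ 2) (Phi z.1 - Phi z.2))
          ∂(volume.prod volume) := by
        refine setLIntegral_mono' hTm fun z hz => ?_
        apply ENNReal.ofReal_le_ofReal
        have hz1 : z.1 ∈ Metric.ball x0 r0 :=
          Metric.ball_subset_ball (by linarith) hz.1
        have hz2 : z.2 ∈ Metric.ball x0 r0 := by
          have h4 := hz.1
          have h5 := hz.2
          rw [Metric.mem_ball] at h4 ⊢
          calc dist z.2 x0 ≤ dist z.2 z.1 + dist z.1 x0 := dist_triangle _ _ _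
            _ < r0 := by linarith
        have e1 : g z.1 = 1 := by rw [hg, indicator_of_mem hz1]
        have e2 : g z.2 = 1 := by rw [hg, indicator_of_mem hz2]
        rw [e1, e2, one_mul, one_mul]
        unfold k3
        have h6 : ‖Phi z.1 - Phi z.2‖ ^ 2 ≤ 2 * t ^ 2 := by
          have h7 := Phi_diff2 z.1 z.2 (mem_ball_zero_iff.1 (hb hz1)).le
            (mem_ball_zero_iff.1 (hb hz2)).le
          have h8 : ‖z.1 - z.2‖ ≤ t := by
            rw [← dist_eq_norm, dist_comm]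
            exact hz.2.le
          have h9 : ‖z.1 - z.2‖ ^ 2 ≤ t ^ 2 := by gcongr
          linarith
        gcongr
        rw [le_div_iff₀ (by positivity)]
        linarith
    _ ≤ _ := setLIntegral_le_lintegral _ _

theorem db_meas (x0 : E 2) (r0 : ℝ) : Measurable (db x0 r0) :=
  Complex.measurable_ofReal.comp (measurable_const.indicator Metric.isOpen_ball.measurableSet)

theorem db_mem {x0 : E 2} {r0 : ℝ} {x : E 2} (hx : x ∈ Metric.ball x0 r0) : db x0 r0 x = 1 := by
  unfold db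
  rw [indicator_of_mem hx]
  simp

theorem db_notMem {x0 : E 2} {r0 : ℝ} {x : E 2} (hx : x ∉ Metric.ball x0 r0) :
    db x0 r0 x = 0 := by
  unfold db
  rw [indicator_of_notMem hx]
  simp

theorem db_int (x0 : E 2) (r0 : ℝ) : Integrable (db x0 r0) := by
  have h : Integrable ((Metric.ball x0 r0).indicator (fun _ => (1 : ℝ))) := by
    rw [integrable_indicator_iff Metric.isOpen_ball.measurableSet]
    exact integrableOn_const (measure_ball_lt_top).ne
  exact h.ofReal

theorem EE_line_meas (e : OrthonormalBasis (Fin 3) ℝ (E 3)) {f : E 2 → ℂ} (hfm : Measurable f)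
    (y : E 2) : Measurable fun s : ℝ => ‖EE f (pt e y s)‖ₑ ^ 2 := by
  have h1 : Measurable fun s : ℝ => pt e y s := by unfold pt; fun_prop
  exact ((EE_meas hfm).comp h1).enorm.pow_const 2

theorem nec_core (e : OrthonormalBasis (Fin 3) ℝ (E 3)) {f : E 2 → ℂ} (hfm : Measurable f)
    {q c t0 : ℝ} (hq2 : q ≤ 2) (hc : 0 < c) (ht0 : 0 < t0)
    (hlow : ∀ t : ℝ, 0 < t → t ≤ t0 → ENNReal.ofReal (c / t) ≤
      ∫⁻ w : E 3, ‖EE f w‖ₑ ^ 2 * ENNReal.ofReal (Real.exp (-t ^ 2 * ‖w‖ ^ 2)))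
    (h3 : ∫⁻ y : E 2, (∫⁻ s : ℝ, ‖EE f (pt e y s)‖ₑ ^ 2) ^ (3 : ℝ) ≠ ∞) :
    ∫⁻ y : E 2, (∫⁻ s : ℝ, ‖EE f (pt e y s)‖ₑ ^ 2) ^ q = ∞ := by
  by_contra hfin
  set G : E 2 → ℝ≥0∞ := fun y => ∫⁻ s : ℝ, ‖EE f (pt e y s)‖ₑ ^ 2 with hG
  have hGm : Measurable G := by
    have hF2 : Measurable fun p : E 2 × ℝ => ‖EE f (pt e p.1 p.2)‖ₑ ^ 2 :=
      ((EE_meas hfm).comp (pt_meas e)).enorm.pow_const 2
    exact hF2.lintegral_prod_right'
  have h2 : ∫⁻ y, G y ^ 2 ≠ ∞ := by
    have h4 : ∀ a : ℝ≥0∞, a ^ 2 ≤ a ^ q + a ^ (3 : ℝ) := by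
      intro a
      rcases le_total a 1 with ha | ha
      · refine le_trans ?_ le_self_add
        rw [← ENNReal.rpow_two]
        exact ENNReal.rpow_le_rpow_of_exponent_ge ha hq2
      · refine le_trans ?_ le_add_self
        rw [← ENNReal.rpow_two]
        exact ENNReal.rpow_le_rpow_of_exponent_le ha (by norm_num)
    refine ne_top_of_le_ne_top ?_ (lintegral_mono fun y => h4 (G y))
    rw [lintegral_add_left (hGm.pow_const q)]
    exact ENNReal.add_ne_top.2 ⟨hfin, h3⟩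
  refine notL2 hGm h2 hc ht0 ?_
  intro t ht htr
  refine (hlow t ht htr).trans ?_
  have hm : Measurable fun w : E 3 => ‖EE f w‖ₑ ^ 2 *
      ENNReal.ofReal (Real.exp (-t ^ 2 * ‖w‖ ^ 2)) :=
    ((EE_meas hfm).enorm.pow_const 2).mul (by fun_prop)
  rw [lint_E3 e _ hm]
  have hF2 : Measurable fun p : E 2 × ℝ => ‖EE f (pt e p.1 p.2)‖ₑ ^ 2 :=
    ((EE_meas hfm).comp (pt_meas e)).enorm.pow_const 2
  have key : ∀ y : E 2, (∫⁻ s : ℝ, ‖EE f (pt e y s)‖ₑ ^ 2 *
      ENNReal.ofReal (Real.exp (-t ^ 2 * ‖pt e y s‖ ^ 2))) ≤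
      G y * ENNReal.ofReal (Real.exp (-t ^ 2 * ‖y‖ ^ 2)) := by
    intro y
    have hsm : Measurable fun s : ℝ => ‖EE f (pt e y s)‖ₑ ^ 2 := EE_line_meas e hfm y
    have h5 : G y * ENNReal.ofReal (Real.exp (-t ^ 2 * ‖y‖ ^ 2)) =
        ∫⁻ s : ℝ, ‖EE f (pt e y s)‖ₑ ^ 2 * ENNReal.ofReal (Real.exp (-t ^ 2 * ‖y‖ ^ 2)) := by
      rw [lintegral_mul_const _ hsm]
    rw [h5]
    have h6 : ∀ s : ℝ, ‖EE f (pt e y s)‖ₑ ^ 2 *
      ENNReal.ofReal (Real.exp (-t ^ 2 * ‖pt e y s‖ ^ 2)) ≤ ‖EE f (pt e y s)‖ₑ ^ 2 *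
      ENNReal.ofReal (Real.exp (-t ^ 2 * ‖y‖ ^ 2)) := by
      intro s
      have h7 : ENNReal.ofReal (Real.exp (-t ^ 2 * ‖pt e y s‖ ^ 2)) ≤
          ENNReal.ofReal (Real.exp (-t ^ 2 * ‖y‖ ^ 2)) := by
        apply ENNReal.ofReal_le_ofReal
        rw [Real.exp_le_exp, norm_pt]
        nlinarith [sq_nonneg (t * s)]
      gcongr
    exact lintegral_mono h6
  exact lintegral_mono key

theorem mixed_db (e : OrthonormalBasis (Fin 3) ℝ (E 3)) {x0 : E 2} {r0 : ℝ}
    (hb : Metric.ball x0 r0 ⊆ Metric.ball 0 (1 / 2)) :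
    ∫⁻ y : E 2, (∫⁻ s : ℝ, ‖EE (db x0 r0) (pt e y s)‖ₑ ^ 2) ^ (3 : ℝ) ≠ ∞ := by
  obtain ⟨C, hC⟩ := mixed (q := 3) (by norm_num)
  have h := hC e (Metric.ball x0 r0) Metric.isOpen_ball.measurableSet hb (db x0 r0)
    (db_meas x0 r0) (db_int x0 r0) (fun x hx => db_notMem hx)
  refine ne_top_of_le_ne_top ?_ h
  refine ENNReal.mul_ne_top ENNReal.coe_ne_top (ENNReal.rpow_ne_top_of_nonneg (by norm_num) ?_)
  have h1 : ∀ x, ‖db x0 r0 x‖ₑ ^ (2 * ((3 : ℝ) / (3 - 1))) =
      (Metric.ball x0 r0).indicator (fun _ => (1 : ℝ≥0∞)) x := by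
    intro x
    by_cases hx : x ∈ Metric.ball x0 r0
    · rw [indicator_of_mem hx, db_mem hx]
      simp
    · rw [indicator_of_notMem hx, db_notMem hx, enorm_zero,
        ENNReal.zero_rpow_of_pos (by norm_num)]
  simp_rw [h1]
  rw [lintegral_indicator Metric.isOpen_ball.measurableSet, lintegral_const, one_mul,
    Measure.restrict_apply_univ]
  exact (measure_ball_lt_top).ne

/-- **Necessity of `p > 4`.**  The disc is a counterexample for every direction. -/
theorem nec_p (e : OrthonormalBasis (Fin 3) ℝ (E 3)) {x0 : E 2} {r0 : ℝ} (hr0 : 0 < r0)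
    (hb : Metric.ball x0 r0 ⊆ Metric.ball 0 (1 / 2)) {q : ℝ} (hq2 : q ≤ 2) :
    ∫⁻ y : E 2, (∫⁻ s : ℝ, ‖EE (db x0 r0) (pt e y s)‖ₑ ^ 2) ^ q = ∞ := by
  obtain ⟨c, hc, hlow⟩ := low hr0 hb
  exact nec_core e (db_meas x0 r0) hq2 hc (show 0 < r0 / 2 by positivity) hlow (mixed_db e hb)

end Pool.Agent.K4H46.RX
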