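import Mathlib
import Pool.Agent.K4H46.RX.NEC2

set_option autoImplicit false

/-! Knapp examples for normal directions. -/

namespace Pool.Agent.K4H46.RX

open MeasureTheory Set Complex
open scoped ENNReal NNReal RealInnerProductSpace ComplexConjugate

/-- tangent vectors of the paraboloid at the point over `x0` -/
noncomputable def tang (x0 v : E 2) : E 3 := !₂[v 0, v 1, 2 * (x0 0 * v 0 + x0 1 * v 1)]

theorem tang_norm (x0 v : E 2) (hx : ‖x0‖ ≤ 1 / 2) : ‖tang x0 v‖ ^ 2 ≤ 2 * ‖v‖ ^ 2 := by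
  have h1 : ‖tang x0 v‖ ^ 2 = ‖v‖ ^ 2 + 4 * (x0 0 * v 0 + x0 1 * v 1) ^ 2 := by
    rw [EuclideanSpace.norm_sq_eq, Fin.sum_univ_three, EuclideanSpace.norm_sq_eq v,
      Fin.sum_univ_two]
    simp [tang]
    rw [mul_pow, sq_abs]
    ring
  have h2 : (x0 0 * v 0 + x0 1 * v 1) ^ 2 ≤ ‖x0‖ ^ 2 * ‖v‖ ^ 2 := by
    rw [EuclideanSpace.norm_sq_eq v, Fin.sum_univ_two, EuclideanSpace.norm_sq_eq x0,
      Fin.sum_univ_two]
    simp only [Real.norm_eq_abs, sq_abs]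
    nlinarith [sq_nonneg (x0 0 * v 1 - x0 1 * v 0)]
  have h3 : ‖x0‖ ^ 2 ≤ 1 / 4 := by
    have := norm_nonneg x0
    nlinarith
  have h4 : 0 ≤ ‖v‖ ^ 2 := by positivity
  nlinarith

theorem phase_eq (e : OrthonormalBasis (Fin 3) ℝ (E 3)) (x0 x : E 2)
    (hn : ∀ v : E 2, (⟪e 2, tang x0 v⟫ : ℝ) = 0) (y : E 2) (s : ℝ) :
    (⟪Phi x - Phi x0, pt e y s⟫ : ℝ) =
      ⟪tang x0 (x - x0), pt e y 0⟫ + ‖x - x0‖ ^ 2 * (pt e y s) 2 := by
  have h1 : Phi x - Phi x0 = tang x0 (x - x0) + ‖x - x0‖ ^ 2 • (EuclideanSpace.single 2 1 : E 3) := by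
    ext i
    rw [EuclideanSpace.norm_sq_eq, Fin.sum_univ_two]
    fin_cases i
    · simp [Phi, tang]
    · simp [Phi, tang]
    · simp [Phi, tang]
      ring
  have h2 : pt e y s = pt e y 0 + s • e 2 := by
    unfold pt
    simp
  rw [h1, inner_add_left, real_inner_smul_left, EuclideanSpace.inner_single_left]
  simp only [map_one, one_mul]
  congr 1
  conv_lhs => rw [h2, inner_add_right, real_inner_smul_right, real_inner_comm, real_inner_comm (e 2)]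
  rw [hn (x - x0), mul_zero, add_zero, real_inner_comm]

theorem phase_le (e : OrthonormalBasis (Fin 3) ℝ (E 3)) (x0 x : E 2) (hx0 : ‖x0‖ ≤ 1 / 2)
    (hn : ∀ v : E 2, (⟪e 2, tang x0 v⟫ : ℝ) = 0) (y : E 2) (s : ℝ) (δ : ℝ) (hδ : 0 < δ)
    (hδ1 : δ ≤ 1) (hx : ‖x - x0‖ ≤ δ) (hy : ‖y‖ ≤ 1 / (6 * δ)) (hs : |s| ≤ 1 / (2 * δ ^ 2)) :
    |(⟪Phi x - Phi x0, pt e y s⟫ : ℝ)| ≤ 1 := by
  rw [phase_eq e x0 x hn y s]
  have h1 : |(⟪tang x0 (x - x0), pt e y 0⟫ : ℝ)| ≤ 1 / 4 := by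
    have h2 := abs_real_inner_le_norm (tang x0 (x - x0)) (pt e y 0)
    have h3 : ‖pt e y 0‖ = ‖y‖ := by
      have := norm_pt e y 0
      rw [zero_pow two_ne_zero, add_zero] at this
      exact (pow_left_inj₀ (norm_nonneg _) (norm_nonneg _) two_ne_zero).1 this
    have h4 := tang_norm x0 (x - x0) hx0
    have h5 : ‖tang x0 (x - x0)‖ ≤ 3 / 2 * δ := by
      have h6 : ‖tang x0 (x - x0)‖ ^ 2 ≤ (3 / 2 * δ) ^ 2 := by
        have : ‖x - x0‖ ^ 2 ≤ δ ^ 2 := by gcongr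
        nlinarith [sq_nonneg δ]
      exact le_of_sq_le_sq h6 (by positivity)
    rw [h3] at h2
    calc |(⟪tang x0 (x - x0), pt e y 0⟫ : ℝ)| ≤ ‖tang x0 (x - x0)‖ * ‖y‖ := h2
      _ ≤ (3 / 2 * δ) * (1 / (6 * δ)) := by gcongr
      _ = 1 / 4 := by field_simp; norm_num
  have h2 : |‖x - x0‖ ^ 2 * (pt e y s) 2| ≤ 1 / 6 + 1 / 2 := by
    have h3 : |(pt e y s) 2| ≤ ‖y‖ + |s| := by
      have h4 : |(pt e y s) 2| ≤ ‖pt e y s‖ := by
        have := PiLp.norm_apply_le (pt e y s) 2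
        simpa using this
      refine h4.trans ?_
      refine abs_le_of_sq_le_sq' ?_ (by positivity) |>.2
      rw [norm_pt]
      nlinarith [norm_nonneg y, abs_nonneg s, sq_abs s, mul_nonneg (norm_nonneg y) (abs_nonneg s)]
    rw [abs_mul, abs_of_nonneg (by positivity)]
    calc ‖x - x0‖ ^ 2 * |(pt e y s) 2| ≤ δ ^ 2 * (1 / (6 * δ) + 1 / (2 * δ ^ 2)) := by
          gcongr
          exact h3.trans (add_le_add hy hs)
      _ = δ / 6 + 1 / 2 := by field_simp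
      _ ≤ _ := by linarith
  calc |(⟪tang x0 (x - x0), pt e y 0⟫ : ℝ) + ‖x - x0‖ ^ 2 * (pt e y s) 2|
      ≤ 1 / 4 + (1 / 6 + 1 / 2) := (abs_add_le _ _).trans (add_le_add h1 h2)
    _ ≤ 1 := by norm_num

theorem knapp_pt (e : OrthonormalBasis (Fin 3) ℝ (E 3)) (x0 : E 2) (hx0 : ‖x0‖ ≤ 1 / 2)
    (hn : ∀ v : E 2, (⟪e 2, tang x0 v⟫ : ℝ) = 0) (y : E 2) (s : ℝ) (δ : ℝ) (hδ : 0 < δ)
    (hδ1 : δ ≤ 1) (hy : ‖y‖ ≤ 1 / (6 * δ)) (hs : |s| ≤ 1 / (2 * δ ^ 2)) :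
    ENNReal.ofReal (Real.pi * δ ^ 2 / 2) ≤ ‖EE (db x0 δ) (pt e y s)‖ₑ := by
  have hBm : MeasurableSet (Metric.ball x0 δ) := Metric.isOpen_ball.measurableSet
  have h1 : EE (db x0 δ) (pt e y s) = cexp (-((⟪Phi x0, pt e y s⟫ : ℝ) : ℂ) * I) *
      ∫ x in Metric.ball x0 δ, cexp (-((⟪Phi x - Phi x0, pt e y s⟫ : ℝ) : ℂ) * I) := by
    rw [← integral_const_mul, ← integral_indicator hBm]
    unfold EE
    refine integral_congr_ae (Filter.Eventually.of_forall fun x => ?_)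
    simp only
    by_cases hx : x ∈ Metric.ball x0 δ
    · rw [db_mem hx, indicator_of_mem hx, mul_one, ← Complex.exp_add]
      congr 1
      rw [inner_sub_left]
      push_cast
      ring
    · rw [db_notMem hx, indicator_of_notMem hx, mul_zero]
  have h2 : ‖EE (db x0 δ) (pt e y s)‖ =
      ‖∫ x in Metric.ball x0 δ, cexp (-((⟪Phi x - Phi x0, pt e y s⟫ : ℝ) : ℂ) * I)‖ := by
    rw [h1, norm_mul, norm_ker, one_mul]
  have hphm : Measurable fun x : E 2 => (⟪Phi x - Phi x0, pt e y s⟫ : ℝ) :=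
    (Phi_meas.sub measurable_const).inner measurable_const
  have hint : IntegrableOn (fun x : E 2 => cexp (-((⟪Phi x - Phi x0, pt e y s⟫ : ℝ) : ℂ) * I))
      (Metric.ball x0 δ) := by
    refine Measure.integrableOn_of_bounded (M := 1) (measure_ball_lt_top).ne
      (Complex.measurable_exp.comp ((Complex.measurable_ofReal.comp
        hphm).neg.mul_const I)).aestronglyMeasurable
      (Filter.Eventually.of_forall fun x => (norm_ker _).le)
  have h3 : (Real.pi * δ ^ 2 / 2) ≤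
      (∫ x in Metric.ball x0 δ, cexp (-((⟪Phi x - Phi x0, pt e y s⟫ : ℝ) : ℂ) * I)).re := by
    have h4 : (∫ x in Metric.ball x0 δ, cexp (-((⟪Phi x - Phi x0, pt e y s⟫ : ℝ) : ℂ) * I)).re =
        ∫ x in Metric.ball x0 δ, (cexp (-((⟪Phi x - Phi x0, pt e y s⟫ : ℝ) : ℂ) * I)).re :=
      (integral_re hint).symm
    rw [h4]
    have h5 : ∫ x in Metric.ball x0 δ, (1 / 2 : ℝ) = Real.pi * δ ^ 2 / 2 := by
      rw [setIntegral_const, measureReal_def, EuclideanSpace.volume_ball_fin_two,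
        ENNReal.toReal_mul, ENNReal.toReal_pow, ENNReal.toReal_ofReal hδ.le]
      simp only [smul_eq_mul]
      rw [ENNReal.toReal_ofReal Real.pi_pos.le]
      ring
    rw [← h5]
    refine setIntegral_mono_on (integrableOn_const (measure_ball_lt_top).ne) hint.re hBm ?_
    intro x hx
    have h6 : (cexp (-((⟪Phi x - Phi x0, pt e y s⟫ : ℝ) : ℂ) * I)).re =
        Real.cos (⟪Phi x - Phi x0, pt e y s⟫ : ℝ) := by
      rw [← Complex.ofReal_neg, Complex.exp_ofReal_mul_I_re, Real.cos_neg]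
    rw [h6]
    have h7 := phase_le e x0 x hx0 hn y s δ hδ hδ1 (by
      rw [← dist_eq_norm]; exact (Metric.mem_ball.1 hx).le) hy hs
    have h8 := Real.one_sub_sq_div_two_le_cos (x := (⟪Phi x - Phi x0, pt e y s⟫ : ℝ))
    have h9 : (⟪Phi x - Phi x0, pt e y s⟫ : ℝ) ^ 2 ≤ 1 := by
      rw [← sq_abs]
      exact pow_le_one₀ (abs_nonneg _) h7
    linarith
  rw [← ofReal_norm, h2]
  apply ENNReal.ofReal_le_ofReal
  exact h3.trans (Complex.re_le_norm _)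

/-- the Knapp lower bound -/
theorem knapp (e : OrthonormalBasis (Fin 3) ℝ (E 3)) (x0 : E 2) (hx0 : ‖x0‖ ≤ 1 / 2)
    (hn : ∀ v : E 2, (⟪e 2, tang x0 v⟫ : ℝ) = 0) (δ : ℝ) (hδ : 0 < δ) (hδ1 : δ ≤ 1)
    {q : ℝ} (hq : 0 < q) :
    ENNReal.ofReal (Real.pi / 36 / δ ^ 2 * (Real.pi ^ 2 / 4 * δ ^ 2) ^ q) ≤
      ∫⁻ y : E 2, (∫⁻ s : ℝ, ‖EE (db x0 δ) (pt e y s)‖ₑ ^ 2) ^ q := by
  have h1 : ∀ y ∈ Metric.ball (0 : E 2) (1 / (6 * δ)),
      ENNReal.ofReal (Real.pi ^ 2 / 4 * δ ^ 2) ^ q ≤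
      (∫⁻ s : ℝ, ‖EE (db x0 δ) (pt e y s)‖ₑ ^ 2) ^ q := by
    intro y hy
    have hy' : ‖y‖ ≤ 1 / (6 * δ) := (mem_ball_zero_iff.1 hy).le
    refine ENNReal.rpow_le_rpow ?_ hq.le
    calc ENNReal.ofReal (Real.pi ^ 2 / 4 * δ ^ 2)
        = ENNReal.ofReal (Real.pi * δ ^ 2 / 2) ^ 2 * ENNReal.ofReal (1 / δ ^ 2) := by
          rw [← ENNReal.ofReal_pow (by positivity), ← ENNReal.ofReal_mul (by positivity)]
          congr 1
          field_simp
          norm_num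
      _ = ∫⁻ _ in Icc (-(1 / (2 * δ ^ 2))) (1 / (2 * δ ^ 2)),
            ENNReal.ofReal (Real.pi * δ ^ 2 / 2) ^ 2 := by
          rw [lintegral_const, Measure.restrict_apply_univ, Real.volume_Icc]
          congr 2
          field_simp
          norm_num
      _ ≤ ∫⁻ s in Icc (-(1 / (2 * δ ^ 2))) (1 / (2 * δ ^ 2)),
            ‖EE (db x0 δ) (pt e y s)‖ₑ ^ 2 := by
          refine setLIntegral_mono' measurableSet_Icc fun s hs => ?_
          have := knapp_pt e x0 hx0 hn y s δ hδ hδ1 hy' (abs_le.2 hs)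
          gcongr
      _ ≤ _ := setLIntegral_le_lintegral _ _
  calc ENNReal.ofReal (Real.pi / 36 / δ ^ 2 * (Real.pi ^ 2 / 4 * δ ^ 2) ^ q)
      = ENNReal.ofReal (Real.pi ^ 2 / 4 * δ ^ 2) ^ q *
          volume (Metric.ball (0 : E 2) (1 / (6 * δ))) := by
        rw [EuclideanSpace.volume_ball_fin_two, ENNReal.ofReal_rpow_of_nonneg (by positivity) hq.le,
          mul_comm, ENNReal.ofReal_mul (by positivity), mul_comm (ENNReal.ofReal _ ^ 2),
          ← ENNReal.ofReal_pow (by positivity), ← ENNReal.ofReal_mul Real.pi_pos.le]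
        congr 2
        field_simp
        norm_num
    _ = ∫⁻ _ in Metric.ball (0 : E 2) (1 / (6 * δ)),
          ENNReal.ofReal (Real.pi ^ 2 / 4 * δ ^ 2) ^ q := by
        rw [lintegral_const, Measure.restrict_apply_univ]
    _ ≤ ∫⁻ y in Metric.ball (0 : E 2) (1 / (6 * δ)),
          (∫⁻ s : ℝ, ‖EE (db x0 δ) (pt e y s)‖ₑ ^ 2) ^ q :=
        setLIntegral_mono' Metric.isOpen_ball.measurableSet h1
    _ ≤ _ := setLIntegral_le_lintegral _ _

/-- the exponent comparison -/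
theorem expo {p ρ A δ0 : ℝ} (hp : 0 < p) (hδ0 : 0 < δ0) (hA : 0 ≤ A)
    (h : ∀ δ : ℝ, 0 < δ → δ ≤ δ0 →
      (Real.pi / 36 / δ ^ 2 * (Real.pi ^ 2 / 4 * δ ^ 2) ^ (p / 2)) ^ (1 / p) ≤
        A * (Real.pi * δ ^ 2) ^ (1 / ρ)) : 2 / ρ ≤ 1 - 2 / p := by
  by_contra hcon
  rw [not_le] at hcon
  set η : ℝ := 2 / ρ - (1 - 2 / p) with hη
  have hη0 : 0 < η := by linarith
  set a : ℝ := (Real.pi / 36) ^ (1 / p) * (Real.pi ^ 2 / 4) ^ ((1 : ℝ) / 2) with ha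
  have ha0 : 0 < a := by positivity
  set b : ℝ := A * Real.pi ^ (1 / ρ) with hb
  have hb0 : 0 ≤ b := by positivity
  have h1 : ∀ δ : ℝ, 0 < δ → δ ≤ δ0 → a ≤ b * δ ^ η := by
    intro δ hδ hδδ
    have h2 := h δ hδ hδδ
    have e1 : (Real.pi / 36 / δ ^ 2 * (Real.pi ^ 2 / 4 * δ ^ 2) ^ (p / 2)) ^ (1 / p) =
        a * δ ^ (1 - 2 / p) := by
      rw [Real.mul_rpow (by positivity) (by positivity), ← Real.rpow_mul (by positivity),
        div_eq_mul_inv (Real.pi / 36), Real.mul_rpow (by positivity) (by positivity),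
        show p / 2 * (1 / p) = 1 / 2 by field_simp,
        Real.mul_rpow (by positivity) (by positivity), ← Real.rpow_natCast δ 2,
        ← Real.rpow_neg hδ.le, ← Real.rpow_mul hδ.le, ← Real.rpow_mul hδ.le, ha]
      have : δ ^ (-((2 : ℕ) : ℝ) * (1 / p)) * δ ^ (((2 : ℕ) : ℝ) * (1 / 2)) =
          δ ^ (1 - 2 / p) := by
        rw [← Real.rpow_add hδ]
        congr 1
        push_cast
        field_simp
        ring
      rw [← this]
      ring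
    have e2 : A * (Real.pi * δ ^ 2) ^ (1 / ρ) = b * δ ^ (2 / ρ) := by
      rw [Real.mul_rpow (by positivity) (by positivity), ← Real.rpow_natCast δ 2,
        ← Real.rpow_mul hδ.le, hb]
      have : ((2 : ℕ) : ℝ) * (1 / ρ) = 2 / ρ := by push_cast; ring
      rw [this]
      ring
    rw [e1, e2] at h2
    have h3 : 0 < δ ^ (1 - 2 / p) := Real.rpow_pos_of_pos hδ _
    have h4 : δ ^ (2 / ρ) = δ ^ η * δ ^ (1 - 2 / p) := by
      rw [← Real.rpow_add hδ]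
      congr 1
      rw [hη]
      ring
    rw [h4, ← mul_assoc] at h2
    exact le_of_mul_le_mul_right h2 h3
  -- let δ tend to zero
  have h2 : Filter.Tendsto (fun δ : ℝ => b * δ ^ η) (nhdsWithin 0 (Ioi 0)) (nhds 0) := by
    have h3 : Filter.Tendsto (fun δ : ℝ => δ ^ η) (nhdsWithin 0 (Ioi 0)) (nhds 0) := by
      have h4 := (Real.continuousAt_rpow_const 0 η (Or.inr hη0.le)).tendsto
      rw [Real.zero_rpow hη0.ne'] at h4
      exact h4.mono_left nhdsWithin_le_nhds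
    simpa using h3.const_mul b
  have h5 : ∀ᶠ δ : ℝ in nhdsWithin 0 (Ioi 0), a ≤ b * δ ^ η := by
    filter_upwards [Ioc_mem_nhdsGT hδ0] with δ hδ
    exact h1 δ hδ.1 hδ.2
  have h6 := ge_of_tendsto h2 h5
  linarith

end Pool.Agent.K4H46.RX
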